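import Pool.Agent.K3E.Stmts
import Pool.Agent.DRB.Aut1

/-!
# E5L: linear algebra of the eigenspaces of `E`
-/

set_option autoImplicit false

open scoped BigOperators
open Matrix Polynomial

namespace Pool.Agent.K3E

open Pool.Agent.DRB Pool.Agent.K3D

namespace E5L

/-- transitivity on the roots of an irreducible polynomial -/
theorem exists_aut {P : ℚ[X]} (hP : Irreducible P) {z z' : ℂ} (hz : aeval z P = 0)
    (hz' : aeval z' P = 0) : ∃ σ : ℂ ≃ₐ[ℚ] ℂ, σ z = z' := by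
  let F := algebraicClosure ℚ ℂ
  have hcl : IsAlgClosure ℚ F := algebraicClosure.isAlgClosure ℚ ℂ
  have hN : Normal ℚ F := IsAlgClosure.normal ℚ F
  have hzF : z ∈ F := mem_algebraicClosure_iff.2 ⟨P, hP.ne_zero, hz⟩
  have hz'F : z' ∈ F := mem_algebraicClosure_iff.2 ⟨P, hP.ne_zero, hz'⟩
  have h1 : IsAlgebraic ℚ (⟨z', hz'F⟩ : F) := by
    refine ⟨P, hP.ne_zero, ?_⟩
    apply Subtype.ext
    have : ((aeval (⟨z', hz'F⟩ : F) P : F) : ℂ) = aeval z' P := by
      exact (aeval_algebraMap_apply ℂ (⟨z', hz'F⟩ : F) P).symm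
    rw [this, hz']; rfl
  have h0 : aeval (⟨z, hzF⟩ : F) P = 0 := by
    apply Subtype.ext
    have : ((aeval (⟨z, hzF⟩ : F) P : F) : ℂ) = aeval z P := by
      exact (aeval_algebraMap_apply ℂ (⟨z, hzF⟩ : F) P).symm
    rw [this, hz]; rfl
  have h0' : aeval (⟨z', hz'F⟩ : F) P = 0 := by
    apply Subtype.ext
    have : ((aeval (⟨z', hz'F⟩ : F) P : F) : ℂ) = aeval z' P := by
      exact (aeval_algebraMap_apply ℂ (⟨z', hz'F⟩ : F) P).symm
    rw [this, hz']; rfl
  have h2 : aeval (⟨z, hzF⟩ : F) (minpoly ℚ (⟨z', hz'F⟩ : F)) = 0 := by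
    have h3 : minpoly ℚ (⟨z', hz'F⟩ : F) ∣ P := minpoly.dvd _ _ h0'
    have h4 : P ∣ minpoly ℚ (⟨z', hz'F⟩ : F) := by
      have h5 := minpoly.irreducible h1.isIntegral
      exact (h5.associated_of_dvd hP h3).symm.dvd
    obtain ⟨R, hR⟩ := h4
    rw [hR, map_mul, h0, zero_mul]
  obtain ⟨τ, hτ⟩ := minpoly.exists_algEquiv_of_root h1 h2
  obtain ⟨ι, v, hv⟩ := exists_isTranscendenceBasis' F ℂ
  obtain ⟨σ, hσ, -⟩ := Aut1X.ext_aut v hv τ.toRingEquiv (Equiv.refl ι)
  obtain ⟨σ', hσ'⟩ := Aut1X.to_alg σ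
  refine ⟨σ', ?_⟩
  rw [hσ']
  have h3 := hσ ⟨z, hzF⟩
  have h4 : (τ.toRingEquiv (⟨z, hzF⟩ : F)) = ⟨z', hz'F⟩ := hτ
  rw [h4] at h3
  exact h3

variable {g n m : ℕ} {A : AbVar g} (K : KSE A n m)

theorem mem_Tl {z : ℂ} {v : Fin n → ℂ} : v ∈ K.Tl z ↔ K.thC *ᵥ v = z • v := Iff.rfl

theorem Tl_eq (z : ℂ) : K.Tl z = Module.End.eigenspace (Matrix.toLin' K.thC) z := by
  ext v
  rw [mem_Tl, Module.End.mem_eigenspace_iff, Matrix.toLin'_apply]

theorem thC_aeval : aeval K.thC K.P = 0 := by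
  have h : K.thC = (algebraMap ℚ ℂ).mapMatrix K.th := rfl
  have h2 : aeval K.thC K.P = ((Algebra.ofId ℚ ℂ).mapMatrix (m := Fin n)) (aeval K.th K.P) := by
    rw [← Polynomial.aeval_algHom_apply]
    rfl
  rw [h2, K.root, map_zero]

theorem T_aeval : aeval (Matrix.toLin' K.thC) (K.P.map (algebraMap ℚ ℂ)) = 0 := by
  have h1 : aeval K.thC (K.P.map (algebraMap ℚ ℂ)) = 0 := by
    rw [Polynomial.aeval_map_algebraMap]
    exact thC_aeval K
  have h2 : Matrix.toLin' K.thC = (Matrix.toLinAlgEquiv' : Matrix (Fin n) (Fin n) ℂ ≃ₐ[ℂ] _) K.thC :=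
    rfl
  rw [h2]
  have h3 := Polynomial.aeval_algHom_apply
    ((Matrix.toLinAlgEquiv' : Matrix (Fin n) (Fin n) ℂ ≃ₐ[ℂ] _).toAlgHom) K.thC
    (K.P.map (algebraMap ℚ ℂ))
  rw [h1, map_zero] at h3
  exact h3

theorem root_of_mem {z : ℂ} {v : Fin n → ℂ} (hv : v ∈ K.Tl z) (h0 : v ≠ 0) :
    aeval z K.P = 0 := by
  rw [Tl_eq] at hv
  have h1 : Module.End.HasEigenvector (Matrix.toLin' K.thC) z v := ⟨hv, h0⟩
  have h2 := Module.End.aeval_apply_of_hasEigenvector (p := K.P.map (algebraMap ℚ ℂ)) h1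
  rw [T_aeval, LinearMap.zero_apply] at h2
  have h3 := (smul_eq_zero.1 h2.symm).resolve_right h0
  rw [Polynomial.eval_map_algebraMap] at h3
  exact h3

theorem top : ⨆ z : ℂ, K.Tl z = ⊤ := by
  have hsq : Squarefree (K.P.map (algebraMap ℚ ℂ)) :=
    (K.irr.separable.map).squarefree
  have h := Module.End.isSemisimple_of_squarefree_aeval_eq_zero hsq (T_aeval K)
  have h2 := h.iSup_eigenspace_eq_top
  rw [← h2]
  exact iSup_congr fun z => Tl_eq K z

theorem top' (v : Fin n → ℂ) : v ∈ ⨆ z ∈ {z : ℂ | aeval z K.P = 0}, K.Tl z := by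
  have h : (⨆ z : ℂ, K.Tl z) ≤ ⨆ z ∈ {z : ℂ | aeval z K.P = 0}, K.Tl z := by
    refine iSup_le fun z => ?_
    by_cases hz : aeval z K.P = 0
    · exact le_iSup₂_of_le z hz le_rfl
    · intro w hw
      by_cases hw0 : w = 0
      · rw [hw0]; exact Submodule.zero_mem _
      · exact absurd (root_of_mem K hw hw0) hz
  rw [top] at h
  exact h Submodule.mem_top

/-! ### The form -/

theorem bil_comm (v w : Fin n → ℂ) : K.bil v w = K.bil w v := by
  simp only [KSE.bil]
  exact Finset.sum_congr rfl fun i _ => by ring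

/-- the form as a bilinear map -/
noncomputable def bf : (Fin n → ℂ) →ₗ[ℂ] (Fin n → ℂ) →ₗ[ℂ] ℂ :=
  LinearMap.mk₂ ℂ (fun v w => K.bil v w)
    (by intro x x' y; simp only [KSE.bil, Pi.add_apply, mul_add, add_mul, Finset.sum_add_distrib])
    (by
      intro c x y
      simp only [KSE.bil, Pi.smul_apply, smul_eq_mul, Finset.mul_sum]
      exact Finset.sum_congr rfl fun i _ => by ring)
    (by intro x y y'; simp only [KSE.bil, Pi.add_apply, mul_add, Finset.sum_add_distrib])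
    (by
      intro c x y
      simp only [KSE.bil, Pi.smul_apply, smul_eq_mul, Finset.mul_sum]
      exact Finset.sum_congr rfl fun i _ => by ring)

theorem bf_apply (v w : Fin n → ℂ) : bf K v w = K.bil v w := rfl

theorem bil_dot (v w : Fin n → ℂ) :
    K.bil v w = v ⬝ᵥ (Matrix.diagonal (fun i => (K.q i : ℂ)) *ᵥ w) := by
  simp only [KSE.bil, dotProduct, Matrix.mulVec_diagonal]
  exact Finset.sum_congr rfl fun i _ => by ring

theorem qC_ne (i : Fin n) : (K.q i : ℂ) ≠ 0 := by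
  exact_mod_cast K.q_ne i

theorem bil_single (v : Fin n → ℂ) (i : Fin n) : K.bil (Pi.single i 1) v = (K.q i : ℂ) * v i := by
  rw [KSE.bil, Finset.sum_eq_single i]
  · simp
  · intro j _ hj; simp [Pi.single_eq_of_ne hj]
  · simp

theorem bil_nondeg (v : Fin n → ℂ) (h : ∀ w, K.bil v w = 0) : v = 0 := by
  ext i
  have := h (Pi.single i 1)
  rw [bil_comm, bil_single] at this
  exact (mul_eq_zero.1 this).resolve_left (qC_ne K i)

theorem adjC : K.thCᵀ * Matrix.diagonal (fun i => (K.q i : ℂ)) =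
    Matrix.diagonal (fun i => (K.q i : ℂ)) * K.thC := by
  have h := congrArg (fun M : Matrix (Fin n) (Fin n) ℚ => M.map (fun x => (x : ℂ))) K.adj
  ext i j
  have h2 := congrFun (congrFun h i) j
  simp only [Matrix.map_apply, Matrix.mul_diagonal, Matrix.diagonal_mul, Matrix.transpose_apply,
    Rat.cast_mul] at h2
  rw [Matrix.mul_diagonal, Matrix.diagonal_mul, Matrix.transpose_apply]
  simpa [KSE.thC] using h2

theorem bil_th (v w : Fin n → ℂ) : K.bil (K.thC *ᵥ v) w = K.bil v (K.thC *ᵥ w) := by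
  rw [bil_dot, bil_dot, Matrix.mulVec_mulVec, ← adjC, ← Matrix.mulVec_mulVec,
    Matrix.dotProduct_mulVec v, Matrix.vecMul_transpose]

theorem orth {z z' : ℂ} (hne : z ≠ z') {v w : Fin n → ℂ} (hv : v ∈ K.Tl z) (hw : w ∈ K.Tl z') :
    K.bil v w = 0 := by
  have h := bil_th K v w
  rw [mem_Tl] at hv hw
  rw [hv, hw, ← bf_apply, ← bf_apply, map_smul, map_smul, LinearMap.smul_apply, smul_eq_mul,
    smul_eq_mul] at h
  have h2 : (z - z') * bf K v w = 0 := by rw [sub_mul, h, sub_self]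
  exact (mul_eq_zero.1 h2).resolve_left (sub_ne_zero.2 hne)

/-- a vector orthogonal to all the eigenspaces vanishes -/
theorem orth_all {v : Fin n → ℂ} (h : ∀ z : ℂ, aeval z K.P = 0 → ∀ w ∈ K.Tl z, K.bil v w = 0) :
    v = 0 := by
  refine bil_nondeg K v fun w => ?_
  have hw := top' K w
  have : (⨆ z ∈ {z : ℂ | aeval z K.P = 0}, K.Tl z) ≤ LinearMap.ker (bf K v) :=
    iSup₂_le fun z hz w hw => h z hz w hw
  exact this hw

theorem nondegT {z : ℂ} {v : Fin n → ℂ} (hv : v ∈ K.Tl z) (h : ∀ w ∈ K.Tl z, K.bil v w = 0) :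
    v = 0 := by
  refine orth_all K fun z' _ w hw => ?_
  by_cases hz : z = z'
  · rw [← hz] at hw; exact h w hw
  · exact orth K hz hv hw

/-! ### The wedge -/

/-- the matrix of `x ∧ y` -/
def wm (x y : Fin n → ℂ) : Matrix (Fin n) (Fin n) ℂ :=
  Matrix.of fun i j => x i * ((K.q j : ℂ) * y j) - y i * ((K.q j : ℂ) * x j)

theorem wm_mulVec (x y v : Fin n → ℂ) : wm K x y *ᵥ v = K.bil y v • x - K.bil x v • y := by
  ext i
  simp only [Matrix.mulVec, dotProduct, wm, Matrix.of_apply, Pi.sub_apply, Pi.smul_apply,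
    smul_eq_mul, KSE.bil, Finset.sum_mul]
  rw [← Finset.sum_sub_distrib]
  exact Finset.sum_congr rfl fun j _ => by ring

theorem mat_ext {M N : Matrix (Fin n) (Fin n) ℂ} (h : ∀ v, M *ᵥ v = N *ᵥ v) : M = N := by
  ext i j
  have := congrFun (h (Pi.single j 1)) i
  simpa using this

theorem wm_mem {z : ℂ} {x y : Fin n → ℂ} (hx : x ∈ K.Tl z) (hy : y ∈ K.Tl z) : wm K x y ∈ K.S := by
  refine ⟨?_, ?_⟩
  · ext i j
    simp only [Matrix.add_apply, Matrix.mul_diagonal, Matrix.diagonal_mul, Matrix.transpose_apply,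
      wm, Matrix.of_apply, Matrix.zero_apply]
    ring
  · refine mat_ext fun v => ?_
    rw [← Matrix.mulVec_mulVec, ← Matrix.mulVec_mulVec, wm_mulVec, wm_mulVec, ← bil_th, ← bil_th,
      Matrix.mulVec_sub, Matrix.mulVec_smul, Matrix.mulVec_smul]
    rw [mem_Tl] at hx hy
    rw [hx, hy, ← bf_apply, ← bf_apply, ← bf_apply, ← bf_apply, map_smul, map_smul,
      LinearMap.smul_apply, LinearMap.smul_apply]
    simp only [smul_eq_mul, smul_smul]
    rw [mul_comm z, mul_comm z]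

theorem S_pres {a : Matrix (Fin n) (Fin n) ℂ} (ha : a ∈ K.S) {z : ℂ} {v : Fin n → ℂ}
    (hv : v ∈ K.Tl z) : a *ᵥ v ∈ K.Tl z := by
  rw [mem_Tl] at hv ⊢
  rw [Matrix.mulVec_mulVec, ← ha.2, ← Matrix.mulVec_mulVec, hv, Matrix.mulVec_smul]

/-! ### Dimension -/

theorem finrank_Tl {z : ℂ} (hz : aeval z K.P = 0) : Module.finrank ℂ (K.Tl z) = m := by
  classical
  have hsq : Squarefree (K.P.map (algebraMap ℚ ℂ)) := (K.irr.separable.map).squarefree
  have hss := Module.End.isSemisimple_of_squarefree_aeval_eq_zero hsq (T_aeval K)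
  have h1 : ∀ z, Module.finrank ℂ (K.Tl z) =
      ((Matrix.toLin' K.thC).charpoly).rootMultiplicity z := by
    intro z
    rw [← LinearMap.finrank_maxGenEigenspace_eq,
      hss.isFinitelySemisimple.maxGenEigenspace_eq_eigenspace, ← Tl_eq]
  have hch : (Matrix.toLin' K.thC).charpoly = (K.th.charpoly).map (algebraMap ℚ ℂ) := by
    have h3 : Matrix.toLin' K.thC = Matrix.toLin (Pi.basisFun ℂ (Fin n)) (Pi.basisFun ℂ (Fin n)) K.thC := by
      rw [Matrix.toLin_eq_toLin']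
    rw [h3, Matrix.charpoly_toLin, ← Matrix.charpoly_map]
    rfl
  set c := (K.th.charpoly).map (algebraMap ℚ ℂ) with hc
  -- invariance
  have h2 : ∀ z', aeval z' K.P = 0 → c.rootMultiplicity z' = c.rootMultiplicity z := by
    intro z' hz'
    obtain ⟨σ, hσ⟩ := exists_aut K.irr hz hz'
    have h3 := Polynomial.eq_rootMultiplicity_map (p := c) (f := (σ : ℂ →+* ℂ))
      (RingHom.injective _) z
    have h4 : c.map (σ : ℂ →+* ℂ) = c := by
      rw [hc, Polynomial.map_map]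
      congr 1
      ext x
      simp
    rw [h4] at h3
    rw [h3]
    congr 1
    exact hσ.symm
  -- the roots of `P`
  let R : Finset ℂ := (K.P.aroots ℂ).toFinset
  have hR : ∀ w, w ∈ R ↔ aeval w K.P = 0 := by
    intro w
    rw [Multiset.mem_toFinset, Polynomial.mem_aroots]
    exact ⟨fun h => h.2, fun h => ⟨K.irr.ne_zero, h⟩⟩
  have hRcard : R.card = K.P.natDegree := by
    have h5 := Polynomial.card_rootSet_eq_natDegree (K := ℂ) K.irr.separable
      (IsAlgClosed.splits _)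
    rw [← h5, Fintype.card_of_finset' R]
    intro w
    rw [hR, Polynomial.mem_rootSet]
    exact ⟨fun h => ⟨K.irr.ne_zero, h⟩, fun h => h.2⟩
  have hcm : c.Monic := by rw [hc]; exact (Matrix.charpoly_monic _).map _
  have hdeg : c.natDegree = n := by
    rw [hc, Polynomial.natDegree_map, Matrix.charpoly_natDegree_eq_dim, Fintype.card_fin]
  have hsum : ∑ w ∈ R, c.rootMultiplicity w = n := by
    have h6 : ∀ w ∈ c.roots, w ∈ R := by
      intro w hw
      have h7 : 0 < c.rootMultiplicity w := by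
        rw [Polynomial.rootMultiplicity_pos hcm.ne_zero]
        exact (Polynomial.mem_roots hcm.ne_zero).1 hw
      rw [← hch, ← h1, Module.finrank_pos_iff_exists_ne_zero] at h7
      obtain ⟨v, hv⟩ := h7
      rw [hR]
      exact root_of_mem K v.2 (by simpa using hv)
    have h8 := Multiset.sum_count_eq_card h6
    have h9 : Multiset.card c.roots = n := by
      rw [← hdeg]
      exact (IsAlgClosed.splits c).natDegree_eq_card_roots.symm
    rw [← h9, ← h8]
    exact Finset.sum_congr rfl fun w _ => (Polynomial.count_roots c).symm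
  rw [Finset.sum_congr rfl fun w hw => h2 w ((hR w).1 hw), Finset.sum_const, hRcard, smul_eq_mul] at hsum
  rw [h1, hch]
  have hd : 0 < K.P.natDegree := K.irr.natDegree_pos
  have h10 : K.P.natDegree * c.rootMultiplicity z = K.P.natDegree * m := by
    rw [hsum, mul_comm]; exact K.dim
  exact Nat.eq_of_mul_eq_mul_left hd h10

/-! ### Irreducibility -/

theorem irrT (hm : 3 ≤ m) {z : ℂ} {W : Submodule ℂ (Fin n → ℂ)} (hW : W ≤ K.Tl z)
    (hS : ∀ a ∈ K.S, ∀ v ∈ W, a *ᵥ v ∈ W) : W = ⊥ ∨ W = K.Tl z := by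
  by_cases hbot : W = ⊥
  · exact Or.inl hbot
  right
  obtain ⟨w, hw, hw0⟩ := Submodule.exists_mem_ne_zero_of_ne_bot hbot
  have hwT := hW hw
  have hz := root_of_mem K hwT hw0
  have hfin := finrank_Tl K hz
  -- t with B w t = 1
  obtain ⟨t, ht, hwt⟩ : ∃ t ∈ K.Tl z, bf K w t = 1 := by
    by_contra hcon
    push Not at hcon
    apply hw0
    refine nondegT K hwT fun t ht => ?_
    by_contra hne
    refine hcon ((K.bil w t)⁻¹ • t) ((K.Tl z).smul_mem _ ht) ?_
    rw [map_smul, bf_apply, smul_eq_mul, inv_mul_cancel₀ hne]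
  -- elements of Tl z orthogonal to w are in W
  have hH : ∀ x ∈ K.Tl z, bf K x w = 0 → x ∈ W := by
    intro x hx hxw
    have h1 := hS _ (wm_mem K hx ht) w hw
    rw [wm_mulVec, bil_comm, ← bf_apply, ← bf_apply, hwt, hxw, one_smul, zero_smul, sub_zero] at h1
    exact h1
  -- y orthogonal to w, not proportional to w
  obtain ⟨y, hy, hyw, hyn⟩ : ∃ y ∈ K.Tl z, bf K y w = 0 ∧ ∀ c : ℂ, y ≠ c • w := by
    by_contra hcon
    push Not at hcon
    have h2 : K.Tl z ≤ Submodule.span ℂ {w} ⊔ Submodule.span ℂ {t} := by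
      intro v hv
      have h3 : bf K (v - bf K v w • t) w = 0 := by
        have : bf K t w = 1 := by rw [bf_apply, bil_comm, ← bf_apply, hwt]
        rw [map_sub, map_smul, LinearMap.sub_apply, LinearMap.smul_apply, this, smul_eq_mul,
          mul_one, sub_self]
      obtain ⟨c, hc⟩ := hcon _ ((K.Tl z).sub_mem hv ((K.Tl z).smul_mem _ ht)) h3
      have h4 : v = c • w + bf K v w • t := by rw [← hc]; abel
      rw [h4]
      exact Submodule.add_mem_sup (Submodule.smul_mem _ _ (Submodule.mem_span_singleton_self w))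
        (Submodule.smul_mem _ _ (Submodule.mem_span_singleton_self t))
    have h5 := Submodule.finrank_mono h2
    have h6 := Submodule.finrank_add_le_finrank_add_finrank (Submodule.span ℂ {w})
      (Submodule.span ℂ {t})
    have ht0 : t ≠ 0 := by
      rintro rfl
      simp at hwt
    have h7 := finrank_span_singleton (K := ℂ) hw0
    have h8 := finrank_span_singleton (K := ℂ) ht0
    omega
  have hyW := hH y hy hyw
  -- h orthogonal to w with B y h ≠ 0
  obtain ⟨h, hh, hhw, hyh⟩ : ∃ h ∈ K.Tl z, bf K h w = 0 ∧ bf K y h = 1 := by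
    by_contra hcon
    push Not at hcon
    have h0 : ∀ h ∈ K.Tl z, bf K h w = 0 → bf K y h = 0 := by
      intro h hh hhw
      by_contra hne
      refine hcon ((bf K y h)⁻¹ • h) ((K.Tl z).smul_mem _ hh) ?_ ?_
      · rw [map_smul, LinearMap.smul_apply, hhw, smul_zero]
      · rw [map_smul, smul_eq_mul, inv_mul_cancel₀ hne]
    refine hyn (bf K y t) ?_
    rw [← sub_eq_zero]
    refine nondegT K ((K.Tl z).sub_mem hy ((K.Tl z).smul_mem _ hwT)) fun v hv => ?_
    have h3 : bf K (v - bf K v w • t) w = 0 := by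
      have : bf K t w = 1 := by rw [bf_apply, bil_comm, ← bf_apply, hwt]
      rw [map_sub, map_smul, LinearMap.sub_apply, LinearMap.smul_apply, this, smul_eq_mul,
        mul_one, sub_self]
    have h4 := h0 _ ((K.Tl z).sub_mem hv ((K.Tl z).smul_mem _ ht)) h3
    rw [map_sub, map_smul, smul_eq_mul] at h4
    rw [← bf_apply, map_sub, map_smul, LinearMap.sub_apply, LinearMap.smul_apply, smul_eq_mul]
    have h5 : bf K w v = bf K v w := by rw [bf_apply, bil_comm, ← bf_apply]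
    rw [h5]
    linear_combination h4
  have hhW := hH h hh hhw
  refine le_antisymm hW fun x hx => ?_
  have h1 := hS _ (wm_mem K hx hy) h hhW
  rw [wm_mulVec, ← bf_apply, ← bf_apply, hyh, one_smul] at h1
  have h2 := W.add_mem h1 (W.smul_mem (bf K x h) hyW)
  rwa [sub_add_cancel] at h2

theorem map_Tl (σ : ℂ ≃ₐ[ℚ] ℂ) {z : ℂ} {v : Fin n → ℂ} (hv : v ∈ K.Tl z) :
    (fun i => σ (v i)) ∈ K.Tl (σ z) := by
  rw [mem_Tl] at hv ⊢
  ext i
  have h := congrArg σ (congrFun hv i)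
  simp only [Matrix.mulVec, dotProduct, map_sum, map_mul, Pi.smul_apply, smul_eq_mul] at h ⊢
  rw [← h]
  refine Finset.sum_congr rfl fun j _ => ?_
  congr 1
  simp [KSE.thC]

theorem ratW (hm : 3 ≤ m) {W : Submodule ℂ (Fin n → ℂ)}
    (hσ : ∀ (σ : ℂ ≃ₐ[ℚ] ℂ), ∀ v ∈ W, (fun i => σ (v i)) ∈ W)
    (hS : ∀ a ∈ K.S, ∀ v ∈ W, a *ᵥ v ∈ W) : W = ⊥ ∨ W = ⊤ := by
  by_cases hbot : W = ⊥
  · exact Or.inl hbot
  right
  obtain ⟨w, hw, hw0⟩ := Submodule.exists_mem_ne_zero_of_ne_bot hbot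
  obtain ⟨z, hz, y, hy, hyw⟩ : ∃ z : ℂ, aeval z K.P = 0 ∧ ∃ y ∈ K.Tl z, bf K y w ≠ 0 := by
    by_contra hcon
    push Not at hcon
    refine hw0 (orth_all K fun z hz y hy => ?_)
    rw [bil_comm]
    exact hcon z hz y hy
  have hfin := finrank_Tl K hz
  -- x in Tl z, orthogonal to w, nonzero
  obtain ⟨x, hx, hx0, hxw⟩ : ∃ x ∈ K.Tl z, x ≠ 0 ∧ bf K x w = 0 := by
    let φ : K.Tl z →ₗ[ℂ] ℂ := ((bf K).flip w) ∘ₗ (K.Tl z).subtype
    have hk : LinearMap.ker φ ≠ ⊥ := by
      apply LinearMap.ker_ne_bot_of_finrank_lt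
      rw [Module.finrank_self, hfin]
      omega
    obtain ⟨x, hx, hx0⟩ := Submodule.exists_mem_ne_zero_of_ne_bot hk
    exact ⟨x, x.2, by simpa using hx0, hx⟩
  have h1 := hS _ (wm_mem K hx hy) w hw
  rw [wm_mulVec, ← bf_apply, ← bf_apply, hxw, zero_smul, sub_zero] at h1
  have hxW : x ∈ W := by
    have := W.smul_mem (bf K y w)⁻¹ h1
    rwa [smul_smul, inv_mul_cancel₀ hyw, one_smul] at this
  have h2 : W ⊓ K.Tl z = K.Tl z := by
    refine (irrT K hm (W := W ⊓ K.Tl z) inf_le_right ?_).resolve_left ?_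
    · rintro a ha v ⟨hv, hv'⟩
      exact ⟨hS a ha v hv, S_pres K ha hv'⟩
    · intro h
      have : x ∈ W ⊓ K.Tl z := ⟨hxW, hx⟩
      rw [h] at this
      exact hx0 (by simpa using this)
  have h3 : K.Tl z ≤ W := inf_eq_right.1 h2
  rw [eq_top_iff]
  intro v _
  have h4 : (⨆ z ∈ {z : ℂ | aeval z K.P = 0}, K.Tl z) ≤ W := by
    refine iSup₂_le fun z' hz' u hu => ?_
    obtain ⟨σ, hs⟩ := exists_aut K.irr hz' hz
    have h5 := map_Tl K σ hu
    rw [hs] at h5
    have h6 := hσ σ.symm _ (h3 h5)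
    convert h6 using 1
    ext i
    simp
  exact h4 (top' K v)

end E5L

open E5L in
theorem E5l_proof : Stmt_E5l := by
  intro g A n m K hm
  refine ⟨fun z hz => finrank_Tl K hz, top' K, fun z z' h v hv w hw => orth K h hv hw,
    fun z v hv h => nondegT K hv h, fun z x hx y hy => ⟨wm K x y, wm_mem K hx hy, wm_mulVec K x y⟩,
    fun a ha z v hv => S_pres K ha hv, fun z W hW hS => irrT K hm hW hS, fun W hσ hS => ratW K hm hσ hS⟩

end Pool.Agent.K3E
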