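import Pool.Agent.K3E.E5y

/-!
# E5V: matrices commuting with the endomorphisms and preserving `T` act `E`-linearly on `T`
-/

open scoped BigOperators
open Matrix

namespace Pool.Agent.K3E

open Pool.Agent.DRB Pool.Agent.K3D

namespace E5X

section

variable {g n m : ℕ} {A : AbVar g} (K : KSE A n m)

/-- `R` is the volume element of the nondegenerate subspace `W`. -/
structure Vol (W : Submodule ℂ (Fin n → ℂ)) (R : Matrix (Idx g) (Idx g) ℂ) (e ρ : ℂ) : Prop where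
  he : e * e = 1
  hρ : ρ ≠ 0
  sq : R * R = ρ • 1
  mem : ∀ w ∈ W, R * K.cl w = e • (K.cl w * R)
  perp : ∀ w, (∀ v ∈ W, K.bil w v = 0) → R * K.cl w = (-e) • (K.cl w * R)
  dec : ∀ v, ∃ a ∈ W, ∃ u, (∀ w ∈ W, K.bil u w = 0) ∧ v = a + u

theorem exists_Vol (W : Submodule ℂ (Fin n → ℂ))
    (hnd : ∀ v ∈ W, (∀ w ∈ W, K.bil v w = 0) → v = 0) :
    ∃ (l : List (Fin n → ℂ)) (e ρ : ℂ), Vol K W (pr K l) e ρ := by
  obtain ⟨k, b, hbW, hbinj, horth, hne, hspan, hdec⟩ := orth_basis K W hnd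
  obtain ⟨l, e, he, hunit, hW1, hW2⟩ := exists_vol K (rel K) W hnd
  obtain ⟨ρ, hρ⟩ : ∃ ρ : ℂ, pr K l * pr K l = ρ • 1 := by
    apply even_scalar K
    · rw [← pr_append]
      exact pr_mem_Pw K (l ++ l) 0 (by rw [List.length_append]; exact ⟨l.length, by ring⟩)
    · intro v
      obtain ⟨a, ha, u, hu, rfl⟩ := hdec v
      have h1 : pr K l * pr K l * K.cl a = K.cl a * (pr K l * pr K l) := by
        rw [Matrix.mul_assoc, hW1 a ha, Matrix.mul_smul, ← Matrix.mul_assoc, hW1 a ha,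
          Matrix.smul_mul, smul_smul, he, one_smul, Matrix.mul_assoc]
      have h2 : pr K l * pr K l * K.cl u = K.cl u * (pr K l * pr K l) := by
        rw [Matrix.mul_assoc, hW2 u hu, Matrix.mul_smul, ← Matrix.mul_assoc, hW2 u hu,
          Matrix.smul_mul, smul_smul, neg_mul_neg, he, one_smul, Matrix.mul_assoc]
      rw [cl_add, Matrix.mul_add, h1, h2, Matrix.add_mul]
  refine ⟨l, e, ρ, he, ?_, hρ, hW1, hW2, hdec⟩
  rintro rfl
  rw [zero_smul] at hρ
  have := hunit.mul hunit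
  rw [hρ] at this
  obtain ⟨u, hu⟩ := this
  have h1 := u.mul_inv
  rw [hu, Matrix.zero_mul] at h1
  exact one_ne K.pos h1.symm

variable {K}

theorem Vol.mem_of {W : Submodule ℂ (Fin n → ℂ)} {R : Matrix (Idx g) (Idx g) ℂ} {e ρ : ℂ}
    (h : Vol K W R e ρ) (w : Fin n → ℂ) (hw : R * K.cl w = e • (K.cl w * R)) : w ∈ W := by
  obtain ⟨a, ha, u, hu, rfl⟩ := h.dec w
  rw [cl_add, Matrix.mul_add, h.mem a ha, h.perp u hu, Matrix.add_mul, smul_add] at hw
  have h1 : (-e) • (K.cl u * R) = e • (K.cl u * R) := add_left_cancel hw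
  have he0 : e ≠ 0 := by
    intro h0
    have := h.he
    rw [h0, mul_zero] at this
    exact zero_ne_one this
  have h2 : (2 * e) • (K.cl u * R) = 0 := by
    have : (2 * e) • (K.cl u * R) = e • (K.cl u * R) - (-e) • (K.cl u * R) := by
      rw [← sub_smul]
      congr 1
      ring
    rw [this, h1, sub_self]
  have h3 : K.cl u * R = 0 := (smul_eq_zero.1 h2).resolve_left (mul_ne_zero two_ne_zero he0)
  have h4 : ρ • K.cl u = 0 := by
    have : K.cl u * R * R = ρ • K.cl u := by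
      rw [Matrix.mul_assoc, h.sq, Matrix.mul_smul, Matrix.mul_one]
    rw [← this, h3, Matrix.zero_mul]
  have h5 : K.cl u = 0 := (smul_eq_zero.1 h4).resolve_left h.hρ
  rw [cl_eq_zero K u h5, add_zero]
  exact ha

/-- A matrix commuting with the volume element preserves `W` (bracket). -/
theorem Vol.ad_mem {W : Submodule ℂ (Fin n → ℂ)} {R : Matrix (Idx g) (Idx g) ℂ} {e ρ : ℂ}
    (h : Vol K W R e ρ) (Y : Matrix (Idx g) (Idx g) ℂ) (hY : Y * R = R * Y) (w w' : Fin n → ℂ)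
    (hw : w ∈ W) (hw' : Y * K.cl w - K.cl w * Y = K.cl w') : w' ∈ W := by
  apply h.mem_of
  rw [← hw']
  have e1 : R * (Y * K.cl w - K.cl w * Y) = (R * Y) * K.cl w - (R * K.cl w) * Y := by noncomm_ring
  rw [e1, ← hY, h.mem w hw, Matrix.mul_assoc Y, h.mem w hw, Matrix.mul_smul, Matrix.smul_mul,
    ← smul_sub]
  congr 1
  have e2 : K.cl w * R * Y = K.cl w * (Y * R) := by rw [Matrix.mul_assoc, ← hY]
  rw [e2]
  noncomm_ring

/-- A matrix commuting with the volume element preserves `W` (conjugation). -/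
theorem Vol.conj_mem {W : Submodule ℂ (Fin n → ℂ)} {R : Matrix (Idx g) (Idx g) ℂ} {e ρ : ℂ}
    (h : Vol K W R e ρ) (x : GL (Idx g) ℂ) (hx : x.val * R = R * x.val) (w w' : Fin n → ℂ)
    (hw : w ∈ W) (hw' : x.val * K.cl w * (x⁻¹).val = K.cl w') : w' ∈ W := by
  apply h.mem_of
  rw [← hw']
  have hx' : R * (x⁻¹).val = (x⁻¹).val * R := by
    have e1 : (x⁻¹).val * (x.val * R) * (x⁻¹).val = (x⁻¹).val * (R * x.val) * (x⁻¹).val := by rw [hx]
    have e2 : (x⁻¹).val * (x.val * R) * (x⁻¹).val = ((x⁻¹).val * x.val) * R * (x⁻¹).val := by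
      noncomm_ring
    have e3 : (x⁻¹).val * (R * x.val) * (x⁻¹).val = (x⁻¹).val * R * (x.val * (x⁻¹).val) := by
      noncomm_ring
    rw [e2, e3, inv_mul_self, mul_inv_self, Matrix.one_mul, Matrix.mul_one] at e1
    exact e1
  have e1 : R * (x.val * K.cl w * (x⁻¹).val) = (R * x.val) * K.cl w * (x⁻¹).val := by noncomm_ring
  have e2 : x.val * K.cl w * (x⁻¹).val * R = x.val * K.cl w * ((x⁻¹).val * R) := by noncomm_ring
  rw [e1, ← hx, e2, ← hx', Matrix.mul_assoc x.val R, h.mem w hw, Matrix.mul_smul, Matrix.smul_mul]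
  congr 1
  noncomm_ring

/-- A skew endomorphism preserving `W` gives an element commuting with the volume element. -/
theorem Vol.Z_comm {W : Submodule ℂ (Fin n → ℂ)} {l : List (Fin n → ℂ)} {e ρ : ℂ}
    (h : Vol K W (pr K l) e ρ) (a : Matrix (Fin n) (Fin n) ℂ)
    (ha : ∀ v w, K.bil (a *ᵥ v) w + K.bil v (a *ᵥ w) = 0) (haW : ∀ w ∈ W, a *ᵥ w ∈ W) :
    K.Z a * pr K l = pr K l * K.Z a := by
  set R := pr K l with hR
  have hperp : ∀ u, (∀ w ∈ W, K.bil u w = 0) → ∀ w ∈ W, K.bil (a *ᵥ u) w = 0 := by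
    intro u hu w hw
    have := ha u w
    rw [hu _ (haW w hw), add_zero] at this
    exact this
  have hlift := lift K a ha
  have hc : ∀ (f : ℂ), f * f = 1 → ∀ w, R * K.cl w = f • (K.cl w * R) →
      R * K.cl (a *ᵥ w) = f • (K.cl (a *ᵥ w) * R) →
      (R * K.Z a * R - ρ • K.Z a) * K.cl w = K.cl w * (R * K.Z a * R - ρ • K.Z a) := by
    intro f hf w h1 h2
    have e1 : K.Z a * K.cl w = K.cl w * K.Z a + K.cl (a *ᵥ w) := by rw [← hlift w]; abel
    have e2 : R * K.Z a * R * K.cl w = K.cl w * (R * K.Z a * R) + ρ • K.cl (a *ᵥ w) := by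
      have e3 : R * K.Z a * R * K.cl w = R * K.Z a * (R * K.cl w) := by noncomm_ring
      rw [e3, h1, Matrix.mul_smul]
      have e4 : R * K.Z a * (K.cl w * R) = R * (K.Z a * K.cl w) * R := by noncomm_ring
      rw [e4, e1]
      have e5 : R * (K.cl w * K.Z a + K.cl (a *ᵥ w)) * R =
          (R * K.cl w) * K.Z a * R + (R * K.cl (a *ᵥ w)) * R := by noncomm_ring
      rw [e5, h1, h2, Matrix.smul_mul, Matrix.smul_mul, Matrix.smul_mul, smul_add, smul_smul,
        smul_smul, hf, one_smul, one_smul, Matrix.mul_assoc (K.cl (a *ᵥ w)), h.sq, Matrix.mul_smul,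
        Matrix.mul_one]
      congr 1
      noncomm_ring
    rw [Matrix.sub_mul, Matrix.mul_sub, e2, Matrix.smul_mul, e1, Matrix.mul_smul, smul_add]
    abel
  have hall : ∀ v, (R * K.Z a * R - ρ • K.Z a) * K.cl v = K.cl v * (R * K.Z a * R - ρ • K.Z a) := by
    intro v
    obtain ⟨b, hb, u, hu, rfl⟩ := h.dec v
    have h1 := hc e h.he b (h.mem b hb) (h.mem _ (haW b hb))
    have h2 := hc (-e) (by rw [neg_mul_neg, h.he]) u (h.perp u hu) (h.perp _ (hperp u hu))
    rw [cl_add, Matrix.mul_add, h1, h2, Matrix.add_mul]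
  obtain ⟨c, hc2⟩ := even_scalar K (R * K.Z a * R - ρ • K.Z a)
    (Submodule.sub_mem _ (RZR_even K a l) (Submodule.smul_mem _ _ (Z_even K a))) hall
  have htr : Matrix.trace (R * K.Z a * R - ρ • K.Z a) = 0 := by
    rw [Matrix.trace_sub, Matrix.trace_mul_comm, ← Matrix.mul_assoc, h.sq, Matrix.smul_mul,
      Matrix.one_mul, sub_self]
  rw [hc2, Matrix.trace_smul, Matrix.trace_one, smul_eq_mul] at htr
  have hcard : ((Fintype.card (Idx g) : ℕ) : ℂ) ≠ 0 := by
    have : Nonempty (Idx g) := ⟨Sum.inl ⟨0, K.pos⟩⟩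
    exact_mod_cast Fintype.card_ne_zero
  rw [(mul_eq_zero.1 htr).resolve_right hcard, zero_smul] at hc2
  have h3 : R * K.Z a * R = ρ • K.Z a := sub_eq_zero.1 hc2
  have h4 : ρ • (K.Z a * R) = ρ • (R * K.Z a) := by
    have e1 : R * (R * K.Z a * R) = (R * R) * K.Z a * R := by noncomm_ring
    rw [h3, h.sq, Matrix.mul_smul, Matrix.smul_mul, Matrix.smul_mul, Matrix.one_mul] at e1
    exact e1.symm
  exact smul_right_injective _ h.hρ h4

/-- Equality of matrices from the action on the eigenspaces of `E`. -/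
theorem comm_thC (h5l : Stmt_E5l) (hm : 3 ≤ m) (a : Matrix (Fin n) (Fin n) ℂ)
    (h : ∀ z : ℂ, Polynomial.aeval z K.P = 0 → ∀ w ∈ K.Tl z, a *ᵥ w ∈ K.Tl z) :
    a * K.thC = K.thC * a := by
  obtain ⟨-, htop, -⟩ := h5l g A n m K hm
  let D : Submodule ℂ (Fin n → ℂ) :=
    LinearMap.ker ((a * K.thC).mulVecLin - (K.thC * a).mulVecLin)
  have hD : ∀ v, v ∈ D ↔ (a * K.thC) *ᵥ v = (K.thC * a) *ᵥ v := by
    intro v
    rw [LinearMap.mem_ker, LinearMap.sub_apply, Matrix.mulVecLin_apply, Matrix.mulVecLin_apply,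
      sub_eq_zero]
  have hle : (⨆ z ∈ {z : ℂ | Polynomial.aeval z K.P = 0}, K.Tl z) ≤ D := by
    refine iSup₂_le fun z hz w hw => ?_
    rw [hD, ← Matrix.mulVec_mulVec, ← Matrix.mulVec_mulVec]
    have h1 : K.thC *ᵥ w = z • w := hw
    have h2 : K.thC *ᵥ (a *ᵥ w) = z • (a *ᵥ w) := h z hz w hw
    rw [h1, h2, Matrix.mulVec_smul]
  ext i j
  have h1 := (hD (Pi.single j 1)).1 (hle (htop _))
  rw [Matrix.mulVec_single_one, Matrix.mulVec_single_one] at h1
  exact congrFun h1 i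

end

end E5X

theorem E5v_proof (hq : DRB.Stmt_DescQ) (h5l : Stmt_E5l) : Stmt_E5v := by
  intro g A n m K hm
  obtain ⟨-, -, -, hnd, -, hS, -⟩ := h5l g A n m K hm
  refine ⟨?_, ?_⟩
  · intro Y a hY ha
    apply E5X.comm_thC h5l hm
    intro z _ w hw
    obtain ⟨l, e, ρ, hV⟩ := E5X.exists_Vol K (K.Tl z) (hnd z)
    have h1 : Y * E5X.pr K l = E5X.pr K l * Y := E5X.comm_of K hq _ Y
      (fun b hb => hV.Z_comm b (E5X.S_skew K b hb) fun w hw => hS b hb z w hw) hY
    exact hV.ad_mem Y h1 w _ hw (ha w)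
  · intro x b hx hb
    apply E5X.comm_thC h5l hm
    intro z _ w hw
    obtain ⟨l, e, ρ, hV⟩ := E5X.exists_Vol K (K.Tl z) (hnd z)
    have h1 : x.val * E5X.pr K l = E5X.pr K l * x.val := E5X.comm_of K hq _ x.val
      (fun b hb => hV.Z_comm b (E5X.S_skew K b hb) fun w hw => hS b hb z w hw) hx
    exact hV.conj_mem x h1 w _ hw (hb w)

end Pool.Agent.K3E
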