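import Pool.Agent.K3E.E10b
import Pool.Agent.K3E.E5v

/-!
# E10C: the group `GSpin_E(T)` is contained in the group of the tensors
-/

open scoped BigOperators
open Matrix

namespace Pool.Agent.K3E

open Pool.Agent.DRB Pool.Agent.K3D

namespace E10C

section

variable {g n m : ℕ} {A : AbVar g}

/-- The volume element of a subspace with a given orthogonal basis. -/
theorem vol_of_basis (K : KSE A n m) (W : Submodule ℂ (Fin n → ℂ)) {k : ℕ} (b : Fin k → (Fin n → ℂ))
    (hbW : ∀ i, b i ∈ W) (hinj : Function.Injective b) (horth : ∀ i j, i ≠ j → K.bil (b i) (b j) = 0)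
    (hne : ∀ i, K.bil (b i) (b i) ≠ 0) (hspan : ∀ w ∈ W, w ∈ Submodule.span ℂ (Set.range b))
    (hdec : ∀ v, ∃ a ∈ W, ∃ u, (∀ w ∈ W, K.bil u w = 0) ∧ v = a + u) :
    ∃ e ρ : ℂ, E5X.Vol K W (E5X.pr K (List.ofFn b)) e ρ := by
  classical
  have hr := E5X.rel K
  have he : ((-1 : ℂ) ^ (k + 1)) * (-1 : ℂ) ^ (k + 1) = 1 := by
    rw [← mul_pow]; simp
  have hunit : IsUnit (E5X.pr K (List.ofFn b)) := by
    refine E5X.pr_isUnit hr _ fun v hv => ?_
    obtain ⟨i, rfl⟩ := (List.mem_ofFn' _ _).1 hv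
    exact hne i
  have hW1 : ∀ w ∈ W, E5X.pr K (List.ofFn b) * K.cl w =
      ((-1 : ℂ) ^ (k + 1)) • (K.cl w * E5X.pr K (List.ofFn b)) := by
    intro w hw
    have := hspan w hw
    clear hw
    induction this using Submodule.span_induction with
    | mem x hx =>
      obtain ⟨j, rfl⟩ := hx
      have hmem : b j ∈ List.ofFn b := (List.mem_ofFn' _ _).2 ⟨j, rfl⟩
      obtain ⟨s, t, hst⟩ := List.append_of_mem hmem
      have hnod : (List.ofFn b).Nodup := List.nodup_ofFn.2 hinj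
      rw [hst] at hnod
      have hlen : s.length + t.length + 1 = k := by
        have := congrArg List.length hst
        simp at this
        omega
      have hor : ∀ v ∈ List.ofFn b, v ≠ b j → K.bil v (b j) = 0 := by
        intro v hv hvj
        obtain ⟨i, rfl⟩ := (List.mem_ofFn' _ _).1 hv
        exact horth i j fun h => hvj (by rw [h])
      have h1 : ∀ v ∈ s, K.bil v (b j) = 0 := by
        intro v hv
        refine hor v (by rw [hst]; exact List.mem_append_left _ hv) ?_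
        rintro rfl
        rw [List.nodup_append] at hnod
        exact hnod.2.2 _ hv _ List.mem_cons_self rfl
      have h2 : ∀ v ∈ t, K.bil v (b j) = 0 := by
        intro v hv
        refine hor v (by rw [hst]; exact List.mem_append_right _ (List.mem_cons_of_mem _ hv)) ?_
        rintro rfl
        rw [List.nodup_append, List.nodup_cons] at hnod
        exact hnod.2.1.1 hv
      have h3 := E5X.pr_mem hr s t (b j) h1 h2
      rw [hst, h3]
      congr 1
      rw [← hlen, pow_succ, pow_succ]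
      ring
    | zero => simp [E5X.cl_zero]
    | add x y _ _ hx hy =>
      rw [E5X.cl_add, Matrix.mul_add, hx, hy, Matrix.add_mul, smul_add]
    | smul c x _ hx =>
      rw [E5X.cl_smul, Matrix.mul_smul, hx, Matrix.smul_mul, smul_comm]
  have hW2 : ∀ w, (∀ v ∈ W, K.bil w v = 0) → E5X.pr K (List.ofFn b) * K.cl w =
      (-((-1 : ℂ) ^ (k + 1))) • (K.cl w * E5X.pr K (List.ofFn b)) := by
    intro w hw
    rw [E5X.pr_orth hr _ w fun v hv => ?_]
    · congr 1
      simp [pow_succ]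
    · obtain ⟨i, rfl⟩ := (List.mem_ofFn' _ _).1 hv
      rw [E5X.bil_comm]
      exact hw _ (hbW i)
  obtain ⟨ρ, hρ⟩ : ∃ ρ : ℂ, E5X.pr K (List.ofFn b) * E5X.pr K (List.ofFn b) = ρ • 1 := by
    apply E5X.even_scalar K
    · rw [← E5X.pr_append]
      exact E5X.pr_mem_Pw K (List.ofFn b ++ List.ofFn b) 0
        (by rw [List.length_append]; exact ⟨(List.ofFn b).length, by ring⟩)
    · intro v
      obtain ⟨a, ha, u, hu, rfl⟩ := hdec v
      generalize ((-1 : ℂ) ^ (k + 1)) = e at he hW1 hW2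
      have h1 : E5X.pr K (List.ofFn b) * E5X.pr K (List.ofFn b) * K.cl a =
          K.cl a * (E5X.pr K (List.ofFn b) * E5X.pr K (List.ofFn b)) := by
        rw [Matrix.mul_assoc, hW1 a ha, Matrix.mul_smul, ← Matrix.mul_assoc, hW1 a ha,
          Matrix.smul_mul, smul_smul, he, one_smul, Matrix.mul_assoc]
      have h2 : E5X.pr K (List.ofFn b) * E5X.pr K (List.ofFn b) * K.cl u =
          K.cl u * (E5X.pr K (List.ofFn b) * E5X.pr K (List.ofFn b)) := by
        rw [Matrix.mul_assoc, hW2 u hu, Matrix.mul_smul, ← Matrix.mul_assoc, hW2 u hu,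
          Matrix.smul_mul, smul_smul, neg_mul_neg, he, one_smul, Matrix.mul_assoc]
      rw [E5X.cl_add, Matrix.mul_add, h1, h2, Matrix.add_mul]
  refine ⟨(-1 : ℂ) ^ (k + 1), ρ, he, ?_, hρ, hW1, hW2, hdec⟩
  rintro rfl
  rw [zero_smul] at hρ
  have := hunit.mul hunit
  rw [hρ] at this
  obtain ⟨u, hu⟩ := this
  have h1 := u.mul_inv
  rw [hu, Matrix.zero_mul] at h1
  exact E5X.one_ne K.pos h1.symm

variable (K : KSE A n m)

/-- `x` commutes with the Clifford image of `v`. -/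
def Fx (x : GL (Idx g) ℂ) (v : Fin n → ℂ) : Prop := x.val * K.cl v = K.cl v * x.val

theorem Fx.mul {K : KSE A n m} {x y : GL (Idx g) ℂ} {v : Fin n → ℂ} (hx : Fx K x v) (hy : Fx K y v) :
    Fx K (x * y) v := by
  unfold Fx at *
  rw [Units.val_mul, Matrix.mul_assoc, hy, ← Matrix.mul_assoc, hx, Matrix.mul_assoc]

theorem Fx.one {v : Fin n → ℂ} : Fx K 1 v := by
  unfold Fx
  rw [Units.val_one, Matrix.one_mul, Matrix.mul_one]

/-- Good elements. -/
structure Good (y : GL (Idx g) ℂ) : Prop where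
  com : ∀ α, A.IsEnd α → y.val * AbVar.toC α = AbVar.toC α * y.val
  clp : ∀ v, ∃ v', y.val * K.cl v = K.cl v' * y.val

/-- Good elements whose inverse is in the group. -/
structure Good2 (y : GL (Idx g) ℂ) : Prop extends Good K y where
  ex : ∃ μ : ℂ, (y⁻¹).valᵀ * A.riem * (y⁻¹).val = μ • A.riem ∧
    ∀ (t : TData) (D : Submodule ℂ (TIdx t (Idx g) → ℂ)), StabG (Gam A) t D →
      D.map (TAct t (y⁻¹).val μ) ≤ D

variable {K}

theorem Good.mul {x y : GL (Idx g) ℂ} (hx : Good K x) (hy : Good K y) : Good K (x * y) := by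
  refine ⟨?_, ?_⟩
  · intro α hα
    rw [Units.val_mul, Matrix.mul_assoc, hy.com α hα, ← Matrix.mul_assoc, hx.com α hα,
      Matrix.mul_assoc]
  · intro v
    obtain ⟨v1, h1⟩ := hy.clp v
    obtain ⟨v2, h2⟩ := hx.clp v1
    refine ⟨v2, ?_⟩
    rw [Units.val_mul, Matrix.mul_assoc, h1, ← Matrix.mul_assoc, h2, Matrix.mul_assoc]

theorem Good2.mul {x y : GL (Idx g) ℂ} (hx : Good2 K x) (hy : Good2 K y) : Good2 K (x * y) := by
  refine ⟨hx.toGood.mul hy.toGood, ?_⟩
  obtain ⟨μ1, h1, h2⟩ := hx.ex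
  obtain ⟨μ2, h3, h4⟩ := hy.ex
  refine ⟨μ2 * μ1, ?_, ?_⟩
  · rw [_root_.mul_inv_rev, Units.val_mul, Matrix.transpose_mul]
    have e : (x⁻¹).valᵀ * (y⁻¹).valᵀ * A.riem * ((y⁻¹).val * (x⁻¹).val) =
        (x⁻¹).valᵀ * ((y⁻¹).valᵀ * A.riem * (y⁻¹).val) * (x⁻¹).val := by noncomm_ring
    rw [e, h3, Matrix.mul_smul, Matrix.smul_mul, h1, smul_smul]
  · intro t D hD
    rw [_root_.mul_inv_rev, Units.val_mul, TAct_comp, Submodule.map_comp]
    exact (Submodule.map_mono (h2 t D hD)).trans (h4 t D hD)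

theorem Good2.one : Good2 K 1 := by
  refine ⟨⟨fun α _ => ?_, fun v => ⟨v, ?_⟩⟩, 1, ?_, fun t D _ => ?_⟩
  · rw [Units.val_one, Matrix.one_mul, Matrix.mul_one]
  · rw [Units.val_one, Matrix.one_mul, Matrix.mul_one]
  · rw [inv_one, Units.val_one, Matrix.transpose_one, Matrix.one_mul, Matrix.mul_one, one_smul]
  · rw [inv_one, Units.val_one, TAct_one, Submodule.map_id]

/-- Scalars. -/
theorem scalar_mem (hK2a : Stmt_K2a)
    (hs : InLie (Gam A) ((1 / 2 : ℂ) • (1 : Matrix (Idx g) (Idx g) ℂ)) 1) (c : ℂ) (hc : c ≠ 0)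
    (t : TData) (D : Submodule ℂ (TIdx t (Idx g) → ℂ)) (hD : StabG (Gam A) t D) :
    D.map (TAct t (c • (1 : Matrix (Idx g) (Idx g) ℂ)) (c ^ 2)) ≤ D := by
  have h3 := (hK2a (Idx g) (Gam A)).1 _ _ _ _ (2 * Complex.log c) (hK2a (Idx g) (Gam A)).2.1 hs
  rw [zero_add, zero_add, mul_one, smul_smul,
    show 2 * Complex.log c * (1 / 2) = Complex.log c by ring] at h3
  have h4 := k3_proof (Idx g) t _ _ D (h3 t D hD)
  rw [E10B.exp_scalar, two_mul, Complex.exp_add, Complex.exp_log hc, ← pow_two] at h4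
  exact h4

/-- The pair of two anisotropic vectors. -/
noncomputable def Yp (K : KSE A n m) (v w : Fin n → ℂ) (hv : K.bil v v ≠ 0) (hw : K.bil w w ≠ 0) :
    GL (Idx g) ℂ where
  val := (K.bil v v * K.bil w w)⁻¹ • (K.cl v * K.cl w)
  inv := K.cl w * K.cl v
  val_inv := by
    have hr := E5X.rel K
    have e : K.cl v * K.cl w * (K.cl w * K.cl v) = K.cl v * (K.cl w * K.cl w) * K.cl v := by
      noncomm_ring
    rw [Matrix.smul_mul, e, E5X.sq hr, Matrix.mul_smul, Matrix.smul_mul, Matrix.mul_one, E5X.sq hr,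
      smul_smul, smul_smul, mul_comm (K.bil v v) (K.bil w w), mul_comm (K.bil w w) (K.bil v v),
      inv_mul_eq_div]
    have : K.bil w w / (K.bil v v * K.bil w w) * K.bil v v = 1 := by
      field_simp
    rw [this, one_smul]
  inv_val := by
    have hr := E5X.rel K
    have e : K.cl w * K.cl v * (K.cl v * K.cl w) = K.cl w * (K.cl v * K.cl v) * K.cl w := by
      noncomm_ring
    rw [Matrix.mul_smul, e, E5X.sq hr, Matrix.mul_smul, Matrix.smul_mul, Matrix.mul_one, E5X.sq hr,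
      smul_smul, smul_smul]
    have : (K.bil v v * K.bil w w)⁻¹ * K.bil v v * K.bil w w = 1 := by
      field_simp
    rw [this, one_smul]

theorem refl_rel (K : KSE A n m) (w u : Fin n → ℂ) (hw : K.bil w w ≠ 0) :
    ∃ u', K.cl w * K.cl u = K.cl u' * K.cl w := by
  have hr := E5X.rel K
  refine ⟨(2 * K.bil w u / K.bil w w) • w + (-1 : ℂ) • u, ?_⟩
  rw [E5X.cl_add, E5X.cl_smul, E5X.cl_smul, Matrix.add_mul, Matrix.smul_mul, Matrix.smul_mul,
    E5X.sq hr, smul_smul, div_mul_cancel₀ _ hw, ← hr w u]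
  module

/-- Pairs are good. -/
theorem Yp_good (K : KSE A n m) (hK5a : Stmt_E5a) (hK2c : Stmt_K2c) (h10b : Stmt_E10b) (hm : 3 ≤ m)
    (hZ : ∀ a ∈ K.S, InLie (Gam A) (K.Z a) 0)
    (hs : InLie (Gam A) ((1 / 2 : ℂ) • (1 : Matrix (Idx g) (Idx g) ℂ)) 1) (z : ℂ) (v w : Fin n → ℂ)
    (hvz : v ∈ K.Tl z) (hwz : w ∈ K.Tl z) (hv : K.bil v v ≠ 0) (hw : K.bil w w ≠ 0) :
    Good2 K (Yp K v w hv hw) := by
  have hr := E5X.rel K
  have hvw : ∀ v w : Fin n → ℂ, K.cl v * K.cl w =
      K.bil v w • 1 + (2 : ℂ) • K.Z (E5L.wm K v w) := by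
    intro v w
    rw [E10B.Z_wm, smul_smul, show (2 : ℂ) * (1 / 2) = 1 by norm_num, one_smul]
    abel
  refine ⟨⟨?_, ?_⟩, K.bil w w * K.bil v v, ?_, ?_⟩
  · intro α hα
    have h6 := (hK5a g A n m K).2.2.2.2.2 α hα _ (E5L.wm_mem K hvz hwz)
    change ((K.bil v v * K.bil w w)⁻¹ • (K.cl v * K.cl w)) * _ =
      _ * ((K.bil v v * K.bil w w)⁻¹ • (K.cl v * K.cl w))
    rw [hvw, Matrix.smul_mul, Matrix.mul_smul, Matrix.add_mul, Matrix.mul_add, Matrix.smul_mul,
      Matrix.mul_smul, Matrix.smul_mul, Matrix.mul_smul, h6, Matrix.one_mul, Matrix.mul_one]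
  · intro u
    obtain ⟨u1, h1⟩ := refl_rel K w u hw
    obtain ⟨u2, h2⟩ := refl_rel K v u1 hv
    refine ⟨u2, ?_⟩
    change ((K.bil v v * K.bil w w)⁻¹ • (K.cl v * K.cl w)) * _ =
      _ * ((K.bil v v * K.bil w w)⁻¹ • (K.cl v * K.cl w))
    rw [Matrix.smul_mul, Matrix.mul_smul, Matrix.mul_assoc, h1, ← Matrix.mul_assoc, h2,
      Matrix.mul_assoc]
  · change (K.cl w * K.cl v)ᵀ * A.riem * (K.cl w * K.cl v) = _
    have h1 := (hK2c g A _ _ (hZ _ (E5L.wm_mem K hwz hvz))).2
    rw [zero_smul] at h1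
    have h2 : (K.Z (E5L.wm K w v))ᵀ * A.riem = -(A.riem * K.Z (E5L.wm K w v)) :=
      eq_neg_of_add_eq_zero_left h1
    have h3 : (K.cl w * K.cl v)ᵀ * A.riem = A.riem * (K.cl v * K.cl w) := by
      have h4 : K.cl v * K.cl w = K.bil w v • 1 - (2 : ℂ) • K.Z (E5L.wm K w v) := by
        have h5 := hr v w
        have h6 := hvw w v
        have h7 : K.cl v * K.cl w = (2 * K.bil v w) • (1 : Matrix (Idx g) (Idx g) ℂ) -
            K.cl w * K.cl v := by rw [← h5]; abel
        rw [h7, h6, E5X.bil_comm K v w]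
        module
      rw [h4, hvw w v, Matrix.transpose_add, Matrix.transpose_smul, Matrix.transpose_smul,
        Matrix.transpose_one, Matrix.add_mul, Matrix.smul_mul, Matrix.smul_mul, h2, Matrix.one_mul,
        Matrix.mul_sub, Matrix.mul_smul, Matrix.mul_smul, Matrix.mul_one]
      module
    rw [h3]
    have e : A.riem * (K.cl v * K.cl w) * (K.cl w * K.cl v) =
        A.riem * (K.cl v * (K.cl w * K.cl w) * K.cl v) := by noncomm_ring
    rw [e, E5X.sq hr, Matrix.mul_smul, Matrix.smul_mul, Matrix.mul_one, E5X.sq hr, smul_smul,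
      Matrix.mul_smul, Matrix.mul_one]
  · intro t D hD
    exact h10b g A n m K hm hZ hs z w hwz v hvz hw hv t D hD

/-- Pairs commute with the vectors orthogonal to both. -/
theorem Yp_Fx (K : KSE A n m) (v w u : Fin n → ℂ) (hv : K.bil v v ≠ 0) (hw : K.bil w w ≠ 0)
    (h1 : K.bil v u = 0) (h2 : K.bil w u = 0) : Fx K (Yp K v w hv hw) u := by
  have hr := E5X.rel K
  change ((K.bil v v * K.bil w w)⁻¹ • (K.cl v * K.cl w)) * _ =
      _ * ((K.bil v v * K.bil w w)⁻¹ • (K.cl v * K.cl w))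
  rw [Matrix.smul_mul, Matrix.mul_smul, Matrix.mul_assoc, E5X.anti hr w u h2, Matrix.mul_neg,
    ← Matrix.mul_assoc, E5X.anti hr v u h1, Matrix.neg_mul, neg_neg, Matrix.mul_assoc]

theorem smul_comm_iff (r : ℂ) (X Y Z : Matrix (Idx g) (Idx g) ℂ) (h : X * Y = Z * X) :
    (r • X) * Y = Z * (r • X) := by
  rw [Matrix.smul_mul, Matrix.mul_smul, h]

/-- The conjugate of a vector of an eigenspace of `E`. -/
theorem img (K : KSE A n m) (hq : DRB.Stmt_DescQ) (h5l : Stmt_E5l) (hm : 3 ≤ m) (z : ℂ) {k : ℕ}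
    (b : Fin k → (Fin n → ℂ)) {e ρ : ℂ} (hV : E5X.Vol K (K.Tl z) (E5X.pr K (List.ofFn b)) e ρ)
    (x : GL (Idx g) ℂ) (hx : Good K x) (w : Fin n → ℂ) (hw : w ∈ K.Tl z) :
    ∃ w' ∈ K.Tl z, x.val * K.cl w * (x⁻¹).val = K.cl w' := by
  obtain ⟨-, -, -, -, -, hS, -⟩ := h5l g A n m K hm
  obtain ⟨w', h1⟩ := hx.clp w
  have h2 : x.val * K.cl w * (x⁻¹).val = K.cl w' := by
    rw [h1, Matrix.mul_assoc, E5X.mul_inv_self, Matrix.mul_one]
  have h3 : x.val * E5X.pr K (List.ofFn b) = E5X.pr K (List.ofFn b) * x.val := E5X.comm_of K hq _ x.val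
      (fun b hb => hV.Z_comm b (E5X.S_skew K b hb) fun w hw => hS b hb z w hw) hx.com
  exact ⟨w', hV.conj_mem x h3 w w' hw h2, h2⟩

theorem conj_iff (x : GL (Idx g) ℂ) (v v' : Fin n → ℂ) :
    x.val * K.cl v * (x⁻¹).val = K.cl v' ↔ x.val * K.cl v = K.cl v' * x.val := by
  constructor
  · intro h
    rw [← h, Matrix.mul_assoc _ _ x.val, E5X.inv_mul_self, Matrix.mul_one]
  · intro h
    rw [h, Matrix.mul_assoc, E5X.mul_inv_self, Matrix.mul_one]

theorem Fx_iff (x : GL (Idx g) ℂ) (v : Fin n → ℂ) :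
    x.val * K.cl v * (x⁻¹).val = K.cl v ↔ Fx K x v := conj_iff x v v

/-- One step: moving the vector `f` to `e`. -/
theorem step (K : KSE A n m) (hK5a : Stmt_E5a) (hK2c : Stmt_K2c) (h10b : Stmt_E10b) (hm : 3 ≤ m)
    (hZ : ∀ a ∈ K.S, InLie (Gam A) (K.Z a) 0)
    (hs : InLie (Gam A) ((1 / 2 : ℂ) • (1 : Matrix (Idx g) (Idx g) ℂ)) 1) (z : ℂ)
    (e f c : Fin n → ℂ) (he : e ∈ K.Tl z) (hf : f ∈ K.Tl z) (hc : c ∈ K.Tl z)
    (he0 : K.bil e e ≠ 0) (hc0 : K.bil c c ≠ 0) (hce : K.bil c e = 0) (hfe : K.bil f f = K.bil e e) :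
    ∃ y : GL (Idx g) ℂ, Good2 K y ∧ y.val * K.cl f = K.cl e * y.val ∧
      ∀ u, K.bil e u = 0 → K.bil f u = 0 → K.bil c u = 0 → Fx K y u := by
  have hr := E5X.rel K
  by_cases h : K.bil (f + (-1 : ℂ) • e) (f + (-1 : ℂ) • e) = 0
  · -- use `f + e`
    have h1 : K.bil (f + e) (f + e) ≠ 0 := by
      have h2 : K.bil (f + e) (f + e) + K.bil (f + (-1 : ℂ) • e) (f + (-1 : ℂ) • e) =
          4 * K.bil e e := by
        simp only [E5X.bil_add_left, E5X.bil_add_right, E5X.bil_smul_left, E5X.bil_smul_right]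
        rw [hfe]
        ring
      rw [h, add_zero] at h2
      rw [h2]
      exact mul_ne_zero (by norm_num) he0
    refine ⟨Yp K e (f + e) he0 h1, Yp_good K hK5a hK2c h10b hm hZ hs z e (f + e) he
      (Submodule.add_mem _ hf he) he0 h1, ?_, ?_⟩
    · apply smul_comm_iff
      rw [E5X.cl_add, Matrix.mul_add, Matrix.add_mul, Matrix.mul_assoc, E5X.sq hr, hfe, ← E5X.sq hr e,
        Matrix.mul_add, Matrix.mul_assoc]
      rw [add_comm]
    · intro u h3 h4 _
      exact Yp_Fx K e (f + e) u he0 h1 h3 (by rw [E5X.bil_add_left, h3, h4, add_zero])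
  · refine ⟨Yp K c (f + (-1 : ℂ) • e) hc0 h, Yp_good K hK5a hK2c h10b hm hZ hs z c
      (f + (-1 : ℂ) • e) hc (Submodule.add_mem _ hf (Submodule.smul_mem _ _ he)) hc0 h, ?_, ?_⟩
    · apply smul_comm_iff
      have h1 : K.cl (f + (-1 : ℂ) • e) * K.cl f = -(K.cl e * K.cl (f + (-1 : ℂ) • e)) := by
        rw [E5X.cl_add, E5X.cl_smul, Matrix.add_mul, Matrix.mul_add, E5X.sq hr, Matrix.smul_mul,
          Matrix.mul_smul, E5X.sq hr, hfe]
        module
      rw [Matrix.mul_assoc, h1, Matrix.mul_neg, ← Matrix.mul_assoc, E5X.anti hr c e hce,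
        Matrix.neg_mul, neg_neg, Matrix.mul_assoc]
    · intro u h3 h4 h5
      exact Yp_Fx K c (f + (-1 : ℂ) • e) u hc0 h h5
        (by rw [E5X.bil_add_left, E5X.bil_smul_left, h3, h4, mul_zero, add_zero])

/-- One eigenspace. -/
theorem eigen (K : KSE A n m) (hq : DRB.Stmt_DescQ) (h5l : Stmt_E5l) (hK5a : Stmt_E5a)
    (hK2c : Stmt_K2c) (h10b : Stmt_E10b) (hm : 3 ≤ m)
    (hZ : ∀ a ∈ K.S, InLie (Gam A) (K.Z a) 0)
    (hs : InLie (Gam A) ((1 / 2 : ℂ) • (1 : Matrix (Idx g) (Idx g) ℂ)) 1) (z : ℂ)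
    (x : GL (Idx g) ℂ) (hx : Good K x) :
    ∃ y : GL (Idx g) ℂ, Good2 K y ∧ (∀ v ∈ K.Tl z, Fx K (y * x) v) ∧
      ∀ z', z ≠ z' → ∀ v ∈ K.Tl z', Fx K y v := by
  classical
  have hr := E5X.rel K
  obtain ⟨-, -, hzz, hnd, -, hS, -⟩ := h5l g A n m K hm
  obtain ⟨k, b, hbW, hinj, horth, hne, hspan, hdec⟩ := E5X.orth_basis K (K.Tl z) (hnd z)
  obtain ⟨ε, ρ, hV⟩ := vol_of_basis K (K.Tl z) b hbW hinj horth hne hspan hdec
  have hfin : ∀ x' : GL (Idx g) ℂ, (∀ j, Fx K x' (b j)) → ∀ v ∈ K.Tl z, Fx K x' v := by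
    intro x' h v hv
    have := hspan v hv
    unfold Fx
    induction this using Submodule.span_induction with
    | mem w hw =>
      obtain ⟨j, rfl⟩ := hw
      exact h j
    | zero => rw [E5X.cl_zero, Matrix.zero_mul, Matrix.mul_zero]
    | add w1 w2 hw1' hw2' hw1 hw2 =>
      rw [E5X.cl_add, Matrix.mul_add, Matrix.add_mul, hw1, hw2]
      all_goals
        first
          | exact (Submodule.span_le.2 (by rintro _ ⟨j, rfl⟩; exact hbW j)) hw1'
          | exact (Submodule.span_le.2 (by rintro _ ⟨j, rfl⟩; exact hbW j)) hw2'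
    | smul c w hw' hw =>
      rw [E5X.cl_smul, Matrix.mul_smul, Matrix.smul_mul, hw]
      exact (Submodule.span_le.2 (by rintro _ ⟨j, rfl⟩; exact hbW j)) hw'
  have hind : ∀ i : ℕ, i + 1 ≤ k → ∃ y : GL (Idx g) ℂ, Good2 K y ∧
      (∀ j : Fin k, j.val < i → Fx K (y * x) (b j)) ∧ ∀ z', z ≠ z' → ∀ v ∈ K.Tl z', Fx K y v := by
    intro i
    induction i with
    | zero =>
      intro _
      exact ⟨1, Good2.one, fun j hj => absurd hj (Nat.not_lt_zero _), fun _ _ v _ => Fx.one K⟩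
    | succ i ih =>
      intro hi
      obtain ⟨y, hy, hyb, hyz⟩ := ih (by omega)
      have hyx : Good K (y * x) := hy.toGood.mul hx
      obtain ⟨f, hf, hfe⟩ := img K hq h5l hm z b hV (y * x) hyx (b ⟨i, by omega⟩) (hbW _)
      have hff : K.bil f f = K.bil (b ⟨i, by omega⟩) (b ⟨i, by omega⟩) :=
        E5X.bil_conj K.pos hr (y * x) hfe hfe
      have hne' : (⟨i + 1, by omega⟩ : Fin k) ≠ ⟨i, by omega⟩ := by
        intro h
        have := congrArg Fin.val h
        simp at this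
      obtain ⟨y1, hy1, hy1f, hy1u⟩ := step K hK5a hK2c h10b hm hZ hs z (b ⟨i, by omega⟩) f
        (b ⟨i + 1, by omega⟩) (hbW _) hf (hbW _) (hne _) (hne _) (horth _ _ hne') hff
      refine ⟨y1 * y, hy1.mul hy, ?_, ?_⟩
      · intro j hj
        rw [mul_assoc]
        by_cases hji : j.val = i
        · have hji' : j = ⟨i, by omega⟩ := Fin.ext hji
          rw [hji']
          unfold Fx
          rw [conj_iff] at hfe
          rw [Units.val_mul y1, Matrix.mul_assoc, hfe, ← Matrix.mul_assoc, hy1f, Matrix.mul_assoc]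
        · have hj' : j.val < i := by omega
          have hfj := hyb j hj'
          refine Fx.mul (hy1u _ ?_ ?_ ?_) hfj
          · exact horth _ _ (fun h => hji (by rw [← h]))
          · have := E5X.bil_conj K.pos hr (y * x) hfe ((Fx_iff _ _).2 hfj)
            rw [this]
            exact horth _ _ (fun h => hji (by rw [← h]))
          · refine horth _ _ (fun h => ?_)
            have := congrArg Fin.val h
            simp at this
            omega
      · intro z' hz' v hv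
        refine Fx.mul (hy1u _ ?_ ?_ ?_) (hyz z' hz' v hv)
        · exact hzz z z' hz' _ (hbW _) _ hv
        · exact hzz z z' hz' _ hf _ hv
        · exact hzz z z' hz' _ (hbW _) _ hv
  rcases k with _ | N
  · exact ⟨1, Good2.one, fun v hv => hfin _ (fun j => j.elim0) v hv, fun _ _ v _ => Fx.one K⟩
  · obtain ⟨y, hy, hyb, hyz⟩ := hind N le_rfl
    refine ⟨y, hy, ?_, hyz⟩
    apply hfin
    have hyx : Good K (y * x) := hy.toGood.mul hx
    obtain ⟨f, hf, hfe⟩ := img K hq h5l hm z b hV (y * x) hyx (b (Fin.last N)) (hbW _)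
    have hff : K.bil f f = K.bil (b (Fin.last N)) (b (Fin.last N)) :=
      E5X.bil_conj K.pos hr (y * x) hfe hfe
    have hfb : ∀ j : Fin (N + 1), j ≠ Fin.last N → K.bil f (b j) = 0 := by
      intro j hj
      have hj' : j.val < N := by
        have := j.isLt
        have h2 : j.val ≠ N := fun h => hj (Fin.ext h)
        omega
      have := E5X.bil_conj K.pos hr (y * x) hfe ((Fx_iff _ _).2 (hyb j hj'))
      rw [this]
      exact horth _ _ (fun h => hj h.symm)
    -- `f` is a multiple of the last vector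
    set e := b (Fin.last N) with he
    set c := K.bil f e / K.bil e e with hc
    have hfc : f = c • e := by
      have h1 : f + (-c) • e = 0 := by
        apply hnd z _ (Submodule.add_mem _ hf (Submodule.smul_mem _ _ (hbW _)))
        intro w hw
        have := hspan w hw
        clear hw
        induction this using Submodule.span_induction with
        | mem w hw =>
          obtain ⟨j, rfl⟩ := hw
          by_cases hj : j = Fin.last N
          · subst hj
            rw [E5X.bil_add_left, E5X.bil_smul_left, ← he, hc, neg_mul, div_mul_cancel₀ _ (hne _)]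
            ring
          · rw [E5X.bil_add_left, E5X.bil_smul_left, hfb j hj, horth _ _ (fun h => hj h.symm)]
            ring
        | zero => simpa using E5X.bil_smul_right K 0 (f + (-c) • e) 0
        | add w1 w2 _ _ h1 h2 => rw [E5X.bil_add_right, h1, h2, add_zero]
        | smul r w _ h1 => rw [E5X.bil_smul_right, h1, mul_zero]
      have h2 : f = f + (-c) • e + c • e := by module
      rw [h2, h1, zero_add]
    have hcc : c * c = 1 := by
      have h1 := hff
      rw [hfc, E5X.bil_smul_left, E5X.bil_smul_right, ← mul_assoc] at h1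
      have h2 : (c * c - 1) * K.bil e e = 0 := by rw [sub_mul, one_mul, h1, sub_self]
      exact sub_eq_zero.1 ((mul_eq_zero.1 h2).resolve_right (hne _))
    rw [conj_iff, hfc, E5X.cl_smul, Matrix.smul_mul] at hfe
    -- the product of all vectors
    have hR : ∀ l : List (Fin n → ℂ), (∀ v ∈ l, Fx K (y * x) v) →
        (y * x).val * E5X.pr K l = E5X.pr K l * (y * x).val := by
      intro l
      induction l with
      | nil => intro _; rw [E5X.pr_nil, Matrix.one_mul, Matrix.mul_one]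
      | cons a l ih =>
        intro h
        have h1 : (y * x).val * K.cl a = K.cl a * (y * x).val := h a List.mem_cons_self
        rw [E5X.pr_cons, ← Matrix.mul_assoc, h1, Matrix.mul_assoc,
          ih (fun v hv => h v (List.mem_cons_of_mem _ hv)), Matrix.mul_assoc]
    have hof : List.ofFn b = List.ofFn (fun i : Fin N => b i.castSucc) ++ [e] := by
      rw [List.ofFn_succ', List.concat_eq_append]
    have h1 : (y * x).val * E5X.pr K (List.ofFn b) = E5X.pr K (List.ofFn b) * (y * x).val :=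
      E5X.comm_of K hq _ (y * x).val
        (fun b hb => hV.Z_comm b (E5X.S_skew K b hb) fun w hw => hS b hb z w hw) hyx.com
    have h2 : (y * x).val * E5X.pr K (List.ofFn b) = c • (E5X.pr K (List.ofFn b) * (y * x).val) := by
      rw [hof, E5X.pr_append, E5X.pr_cons, E5X.pr_nil, Matrix.mul_one, ← Matrix.mul_assoc, hR,
        Matrix.mul_assoc, hfe, Matrix.mul_smul, Matrix.mul_assoc]
      intro v hv
      obtain ⟨i, rfl⟩ := (List.mem_ofFn' _ _).1 hv
      exact hyb _ i.isLt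
    have hunit : IsUnit (E5X.pr K (List.ofFn b) * (y * x).val) := by
      refine IsUnit.mul ?_ (Units.isUnit _)
      refine E5X.pr_isUnit hr _ fun v hv => ?_
      obtain ⟨i, rfl⟩ := (List.mem_ofFn' _ _).1 hv
      exact hne i
    have hc1 : c = 1 := by
      rw [h1] at h2
      have h3 : (1 - c) • (E5X.pr K (List.ofFn b) * (y * x).val) = 0 := by
        rw [sub_smul, one_smul, ← h2, sub_self]
      rcases smul_eq_zero.1 h3 with h4 | h4
      · exact (sub_eq_zero.1 h4).symm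
      · rw [h4] at hunit
        obtain ⟨u, hu⟩ := hunit
        have h5 := u.mul_inv
        rw [hu, Matrix.zero_mul] at h5
        exact absurd h5.symm (E5X.one_ne K.pos)
    intro j
    by_cases hj : j = Fin.last N
    · subst hj
      rw [hc1, one_smul] at hfe
      exact hfe
    · refine hyb j ?_
      have := j.isLt
      have h2 : j.val ≠ N := fun h => hj (Fin.ext h)
      omega

/-- All eigenspaces. -/
theorem all_eigen (K : KSE A n m) (hq : DRB.Stmt_DescQ) (h5l : Stmt_E5l) (hK5a : Stmt_E5a)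
    (hK2c : Stmt_K2c) (h10b : Stmt_E10b) (hm : 3 ≤ m)
    (hZ : ∀ a ∈ K.S, InLie (Gam A) (K.Z a) 0)
    (hs : InLie (Gam A) ((1 / 2 : ℂ) • (1 : Matrix (Idx g) (Idx g) ℂ)) 1)
    (x : GL (Idx g) ℂ) (hx : Good K x) :
    ∃ y : GL (Idx g) ℂ, Good2 K y ∧ ∀ v, Fx K (y * x) v := by
  classical
  obtain ⟨-, htop, -⟩ := h5l g A n m K hm
  have key : ∀ s : Finset ℂ, ∃ y : GL (Idx g) ℂ, Good2 K y ∧ ∀ z ∈ s, ∀ v ∈ K.Tl z, Fx K (y * x) v := by
    intro s
    induction s using Finset.induction_on with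
    | empty => exact ⟨1, Good2.one, fun z hz => absurd hz (Finset.notMem_empty z)⟩
    | insert z s hz ih =>
      obtain ⟨y, hy, hyv⟩ := ih
      obtain ⟨y1, hy1, h1, h2⟩ := eigen K hq h5l hK5a hK2c h10b hm hZ hs z (y * x) (hy.toGood.mul hx)
      refine ⟨y1 * y, hy1.mul hy, fun z' hz' v hv => ?_⟩
      rw [mul_assoc]
      rcases Finset.mem_insert.1 hz' with rfl | hz''
      · exact h1 v hv
      · exact Fx.mul (h2 z' (fun h => hz (h ▸ hz'')) v hv) (hyv z' hz'' v hv)
  obtain ⟨y, hy, hyv⟩ := key ((K.P.map (algebraMap ℚ ℂ)).roots.toFinset)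
  refine ⟨y, hy, fun v => ?_⟩
  let D : Submodule ℂ (Fin n → ℂ) :=
    { carrier := {v | Fx K (y * x) v}
      add_mem' := by
        intro a b ha hb
        have ha' : (y * x).val * K.cl a = K.cl a * (y * x).val := ha
        have hb' : (y * x).val * K.cl b = K.cl b * (y * x).val := hb
        change (y * x).val * K.cl (a + b) = K.cl (a + b) * (y * x).val
        rw [E5X.cl_add, Matrix.mul_add, Matrix.add_mul, ha', hb']
      zero_mem' := by
        change (y * x).val * K.cl 0 = K.cl 0 * (y * x).val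
        rw [E5X.cl_zero, Matrix.mul_zero, Matrix.zero_mul]
      smul_mem' := by
        intro c a ha
        have ha' : (y * x).val * K.cl a = K.cl a * (y * x).val := ha
        change (y * x).val * K.cl (c • a) = K.cl (c • a) * (y * x).val
        rw [E5X.cl_smul, Matrix.mul_smul, Matrix.smul_mul, ha'] }
  have hle : (⨆ z ∈ {z : ℂ | Polynomial.aeval z K.P = 0}, K.Tl z) ≤ D := by
    refine iSup₂_le fun z hz w hw => ?_
    refine hyv z ?_ w hw
    rw [Multiset.mem_toFinset, Polynomial.mem_roots']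
    refine ⟨?_, ?_⟩
    · rw [Ne, Polynomial.map_eq_zero]
      exact K.irr.ne_zero
    · have hz' : Polynomial.aeval z K.P = 0 := hz
      rw [Polynomial.IsRoot.def, Polynomial.eval_map]
      exact hz'
  exact hle (htop v)

end

end E10C

open E10C in
theorem E10c_proof (hL : DRB.Stmt_Leg) (hq : DRB.Stmt_DescQ) (h5l : Stmt_E5l) (hK5a : Stmt_E5a)
    (hK2a : Stmt_K2a) (hK2c : Stmt_K2c) (h10b : Stmt_E10b) : Stmt_E10c := by
  intro g A n m K hm hZ hs x ν hx1 hx2 hx3 t D hD
  have hgood : Good K x := by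
    refine ⟨fun α hα => hx1 α hα, fun v => ?_⟩
    obtain ⟨v', hv'⟩ := (E5X.mem_TC K).1 (hx2 (K.cl v) ((E5X.mem_TC K).2 ⟨v, rfl⟩))
    exact ⟨v', (conj_iff x v v').1 hv'⟩
  obtain ⟨y, hy, hyv⟩ := all_eigen K hq h5l hK5a hK2c h10b hm hZ hs x hgood
  obtain ⟨c, hc⟩ := (hK5a g A n m K).2.2.2.1 (y * x).val (hy.toGood.mul hgood).com hyv
  have hc0 : c ≠ 0 := by
    rintro rfl
    have h1 := E5X.mul_inv_self (y * x)
    rw [hc, zero_smul, Matrix.zero_mul] at h1
    exact E5X.one_ne K.pos h1.symm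
  have hxy : x.val = c • (y⁻¹).val := by
    have h1 : x.val = (y⁻¹).val * (y * x).val := by
      rw [Units.val_mul, ← Matrix.mul_assoc, E5X.inv_mul_self, Matrix.one_mul]
    rw [h1, hc, Matrix.mul_smul, Matrix.mul_one]
  obtain ⟨μ, hμ1, hμ2⟩ := hy.ex
  have hν : ν.val = c ^ 2 * μ := by
    have h1 : ν.val • A.riem = (c ^ 2 * μ) • A.riem := by
      rw [← hx3, hxy, Matrix.transpose_smul, Matrix.smul_mul, Matrix.smul_mul, Matrix.mul_smul, hμ1,
        smul_smul, smul_smul]
      congr 1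
      ring
    have h2 : (ν.val - c ^ 2 * μ) • A.riem = 0 := by rw [sub_smul, h1, sub_self]
    exact sub_eq_zero.1 ((smul_eq_zero.1 h2).resolve_right (K9X.riem_ne hL K.pos))
  have h1 : x.val = (c • (1 : Matrix (Idx g) (Idx g) ℂ)) * (y⁻¹).val := by
    rw [hxy, Matrix.smul_mul, Matrix.one_mul]
  rw [h1, hν, TAct_comp, Submodule.map_comp]
  exact (Submodule.map_mono (hμ2 t D hD)).trans (scalar_mem hK2a hs c hc0 t D hD)

end Pool.Agent.K3E
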