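import Pool.Agent.K3D.K9
import Pool.Agent.K3E.E5x
import Pool.Agent.K3E.E5l
import Pool.Agent.K3E.Stmts3

/-!
# E10B: products of two vectors of an eigenspace belong to the group
-/

set_option autoImplicit false

open scoped BigOperators
open Matrix

namespace Pool.Agent.K3E

open Pool.Agent.DRB Pool.Agent.K3D

namespace E10B

/-- the exponential of a square-zero matrix -/
theorem exp_nil2 {ι : Type} [Fintype ι] [DecidableEq ι] (X : Matrix ι ι ℂ) (hX : X * X = 0) :
    NormedSpace.exp X = 1 + X := by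
  let _ := Matrix.linftyOpNormedRing (n := ι) (α := ℂ)
  let _ := Matrix.linftyOpNormedAlgebra (n := ι) (R := ℂ) (α := ℂ)
  have h1 : HasSum (fun k : ℕ => ((Nat.factorial k : ℂ)⁻¹) • X ^ k) (NormedSpace.exp X) :=
    NormedSpace.exp_series_hasSum_exp' (𝕂 := ℂ) X
  have h2 : HasSum (fun k : ℕ => ((Nat.factorial k : ℂ)⁻¹) • X ^ k)
      (∑ k ∈ Finset.range 2, ((Nat.factorial k : ℂ)⁻¹) • X ^ k) := by
    refine hasSum_sum_of_ne_finset_zero fun k hk => ?_
    rw [Finset.mem_range, not_lt] at hk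
    obtain ⟨j, rfl⟩ := Nat.exists_eq_add_of_le hk
    rw [pow_add, pow_two, hX, zero_mul, smul_zero]
  rw [h1.unique h2]
  simp [Finset.sum_range_succ]

theorem exp_scalar {ι : Type} [Fintype ι] [DecidableEq ι] (s : ℂ) :
    NormedSpace.exp (s • (1 : Matrix ι ι ℂ)) = Complex.exp s • 1 := by
  rw [K9X.exp_idem 1 (one_mul 1) s]
  rw [sub_smul, one_smul]
  abel

/-- If `Z ^ 2 = d` and `β ^ 2 - d ≠ 0`, then `β + Z` is an exponential. -/
theorem exp_quad {ι : Type} [Fintype ι] [DecidableEq ι] (Z : Matrix ι ι ℂ) (d β : ℂ)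
    (hZ : Z * Z = d • 1) (hne : β ^ 2 - d ≠ 0) :
    ∃ s θ : ℂ, NormedSpace.exp ((s / 2) • (1 : Matrix ι ι ℂ) + θ • Z) = β • 1 + Z ∧
      Complex.exp s = β ^ 2 - d := by
  by_cases hd : d = 0
  · subst hd
    rw [zero_smul] at hZ
    rw [sub_zero] at hne ⊢
    have hβ : β ≠ 0 := by
      rintro rfl; simp at hne
    refine ⟨2 * Complex.log β, β⁻¹, ?_, ?_⟩
    · rw [Matrix.exp_add_of_commute _ _ ((Commute.one_left _).smul_left _), exp_scalar, exp_nil2]
      · rw [show 2 * Complex.log β / 2 = Complex.log β by ring, Complex.exp_log hβ, smul_mul_assoc,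
          one_mul, smul_add, smul_smul, mul_inv_cancel₀ hβ, one_smul]
      · rw [smul_mul_smul_comm, hZ, smul_zero]
    · rw [two_mul, Complex.exp_add, Complex.exp_log hβ, pow_two]
  · obtain ⟨δ, hδ⟩ := IsAlgClosed.exists_pow_nat_eq d (n := 2) (by norm_num)
    have hδ0 : δ ≠ 0 := by
      rintro rfl
      apply hd
      rw [← hδ]; ring
    obtain ⟨ρ, hρ⟩ := IsAlgClosed.exists_pow_nat_eq (β ^ 2 - d) (n := 2) (by norm_num)
    have hρ0 : ρ ≠ 0 := by
      rintro rfl
      apply hne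
      rw [← hρ]; ring
    have hprod : (β + δ) * (β - δ) = ρ ^ 2 := by rw [hρ, ← hδ]; ring
    have hβδ : β + δ ≠ 0 := by
      intro h
      rw [h, zero_mul] at hprod
      exact hρ0 (by simpa using hprod.symm)
    set c := Complex.log ((β + δ) / ρ) with hc
    have hec : Complex.exp c = (β + δ) / ρ := Complex.exp_log (div_ne_zero hβδ hρ0)
    have hec' : Complex.exp (-c) = (β - δ) / ρ := by
      rw [Complex.exp_neg, hec, inv_div, div_eq_div_iff hβδ hρ0]
      linear_combination -hprod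
    obtain ⟨π, hπ⟩ : ∃ π : Matrix ι ι ℂ, π = (1 / 2 : ℂ) • (1 + δ⁻¹ • Z) := ⟨_, rfl⟩
    have hidem : π * π = π := by
      have h0 : (1 + δ⁻¹ • Z) * (1 + δ⁻¹ • Z) = (2 : ℂ) • (1 + δ⁻¹ • Z) := by
        have h1 : δ⁻¹ * δ⁻¹ * d = 1 := by
          rw [← hδ]; field_simp
        rw [mul_add, mul_one, add_mul, one_mul, smul_mul_smul_comm, hZ, smul_smul]
        rw [h1]
        module
      rw [hπ, smul_mul_smul_comm, h0]
      module
    have hZπ : Z = (2 * δ) • π - δ • 1 := by
      rw [hπ, smul_smul, smul_add, smul_smul]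
      have h1 : 2 * δ * (1 / 2) = δ := by ring
      rw [h1, mul_inv_cancel₀ hδ0]
      module
    refine ⟨2 * Complex.log ρ, c / δ, ?_, ?_⟩
    · have h1 : (2 * Complex.log ρ / 2) • (1 : Matrix ι ι ℂ) + (c / δ) • Z =
          (Complex.log ρ - c) • (1 : Matrix ι ι ℂ) + (2 * c) • π := by
        conv_lhs => rw [hZπ]
        rw [smul_sub, smul_smul, smul_smul]
        have h2 : c / δ * (2 * δ) = 2 * c := by field_simp
        have h3 : c / δ * δ = c := by field_simp
        rw [h2, h3]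
        module
      rw [h1, Matrix.exp_add_of_commute _ _ ((Commute.one_left _).smul_left _), exp_scalar,
        K9X.exp_idem π hidem, smul_mul_assoc, one_mul, smul_add, smul_smul]
      have h4 : Complex.exp (Complex.log ρ - c) = β - δ := by
        rw [sub_eq_add_neg, Complex.exp_add, Complex.exp_log hρ0, hec']
        field_simp
      have h5 : (β - δ) * (Complex.exp (2 * c) - 1) = 2 * δ := by
        rw [two_mul, Complex.exp_add, hec]
        have h6 : (β - δ) * ((β + δ) / ρ * ((β + δ) / ρ)) = β + δ := by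
          have : (β - δ) * ((β + δ) / ρ * ((β + δ) / ρ)) = ((β + δ) * (β - δ)) * (β + δ) / ρ ^ 2 := by
            field_simp
          rw [this, hprod]
          field_simp
        rw [mul_sub, h6]
        ring
      rw [h4, h5]
      conv_rhs => rw [hZπ]
      module
    · rw [two_mul, Complex.exp_add, Complex.exp_log hρ0, ← pow_two, hρ]

variable {g n m : ℕ} {A : AbVar g} (K : KSE A n m)

/-- `Z (v ∧ w) = (cl v * cl w - B(v, w)) / 2` -/
theorem Z_wm (v w : Fin n → ℂ) :
    K.Z (E5L.wm K v w) = (1 / 2 : ℂ) • (K.cl v * K.cl w - K.bil v w • 1) := by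
  have hr := E5X.rel K
  have h1 : K.Z (E5L.wm K v w) = (1 / 4 : ℂ) • (K.cl v * K.cl w - K.cl w * K.cl v) := by
    have h2 : ∀ u : Fin n → ℂ, K.cl u = ∑ i, u i • K.cl (Pi.single i 1) := by
      intro u
      rw [E5X.cl_eq]
      exact Finset.sum_congr rfl fun i _ => by rw [E5X.cl_single]
    unfold KSE.Z
    have h3 : ∀ i, ((4 * (K.q i : ℂ))⁻¹) • (K.cl (E5L.wm K v w *ᵥ Pi.single i 1) *
        K.cl (Pi.single i 1)) = (1 / 4 : ℂ) • (K.cl v * (w i • K.cl (Pi.single i 1)) -
          K.cl w * (v i • K.cl (Pi.single i 1))) := by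
      intro i
      have hq := E5L.qC_ne K i
      rw [E5L.wm_mulVec, E5L.bil_comm K w, E5L.bil_comm K v, E5L.bil_single, E5L.bil_single,
        sub_eq_add_neg, ← neg_smul, E5X.cl_add, E5X.cl_smul, E5X.cl_smul, add_mul, smul_mul_assoc,
        smul_mul_assoc, mul_smul_comm, mul_smul_comm, smul_add, smul_smul, smul_smul, smul_sub,
        smul_smul, smul_smul, sub_eq_add_neg, ← neg_smul]
      congr 2
      · field_simp
      · field_simp
    rw [Finset.sum_congr rfl fun i _ => h3 i, ← Finset.smul_sum, Finset.sum_sub_distrib,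
      ← Finset.mul_sum, ← Finset.mul_sum, ← h2, ← h2]
  rw [h1]
  have h4 := hr v w
  have h5 : K.cl w * K.cl v = (2 * K.bil v w) • (1 : Matrix (Idx g) (Idx g) ℂ) - K.cl v * K.cl w := by
    rw [← h4]; abel
  rw [h5]
  module

end E10B

open E10B in
theorem E10b_proof (hK2a : Stmt_K2a) : Stmt_E10b := by
  intro g A n m K hm hZ hs z v hv w hw hvv hww t D hD
  have hr := E5X.rel K
  have h1 := Z_wm K v w
  set Y : Matrix (Idx g) (Idx g) ℂ := K.cl v * K.cl w - K.bil v w • 1 with hY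
  -- Y ^ 2
  have hYY : Y * Y = (K.bil v w ^ 2 - K.bil v v * K.bil w w) • 1 := by
    have h5 : K.cl w * K.cl v = (2 * K.bil v w) • (1 : Matrix (Idx g) (Idx g) ℂ) -
        K.cl v * K.cl w := by
      rw [← hr v w]; abel
    have h6 : K.cl v * K.cl w * (K.cl v * K.cl w) =
        (2 * K.bil v w) • (K.cl v * K.cl w) - (K.bil v v * K.bil w w) • 1 := by
      have : K.cl v * K.cl w * (K.cl v * K.cl w) = K.cl v * (K.cl w * K.cl v) * K.cl w := by
        simp only [mul_assoc]
      rw [this, h5, mul_sub, sub_mul, mul_smul_comm, mul_one, smul_mul_assoc, ← mul_assoc,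
        E5X.sq hr v, smul_mul_assoc, one_mul, smul_mul_assoc, E5X.sq hr w, smul_smul]
    rw [hY, mul_sub, sub_mul, sub_mul, h6]
    simp only [smul_mul_assoc, mul_smul_comm, one_mul, mul_one, smul_smul]
    module
  have hne : K.bil v w ^ 2 - (K.bil v w ^ 2 - K.bil v v * K.bil w w) ≠ 0 := by
    rw [sub_sub_cancel]
    exact mul_ne_zero hvv hww
  obtain ⟨s, θ, he, hes⟩ := exp_quad Y _ (K.bil v w) hYY hne
  rw [sub_sub_cancel] at hes
  have hmem : (2 * θ) • E5L.wm K v w ∈ K.S := K.S.smul_mem _ (E5L.wm_mem K hv hw)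
  have h2 := hZ _ hmem
  rw [E5X.Z_smul, h1, smul_smul, show 2 * θ * (1 / 2) = θ by ring] at h2
  have h3 := (hK2a (Idx g) (Gam A)).1 _ _ _ _ s h2 hs
  rw [zero_add, mul_one, smul_smul, show s * (1 / 2) = s / 2 by ring, add_comm] at h3
  have h4 := k3_proof (Idx g) t _ _ D (h3 t D hD)
  rw [he, hes] at h4
  have h5 : K.bil v w • (1 : Matrix (Idx g) (Idx g) ℂ) + Y = K.cl v * K.cl w := by
    rw [hY]; abel
  rwa [h5] at h4

end Pool.Agent.K3E
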