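import Pool.Agent.K3E.Stmts
import Pool.Agent.K3D.K2c

/-!
# E2d: the group and its Lie algebra preserve `T`
-/

open scoped BigOperators
open Matrix

namespace Pool.Agent.K3E

open Pool.Agent.DRB Pool.Agent.K3D Pool.Agent.K3D.K2Y

noncomputable section

/-- an element preserving all stable subspaces preserves `T` -/
theorem T_of_stab {g n m : ℕ} {A : AbVar g} (K : KSE A n m) (hG1 : Stmt_Gb1) (hL : Stmt_Leg)
    (hT : ∀ p ∈ Gam A, ∀ Y ∈ K.TC, p.1.val * Y * (p.1⁻¹).val ∈ K.TC) (x : GL (Idx g) ℂ) (ν : ℂ)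
    (hν : ν ≠ 0) (hs : x.valᵀ * A.riem * x.val = ν • A.riem)
    (hx : ∀ (t : TData) (D : Submodule ℂ (TIdx t (Idx g) → ℂ)), StabG (Gam A) t D →
      D.map (TAct t x.val ν) ≤ D) (Y : Matrix (Idx g) (Idx g) ℂ) (hY : Y ∈ K.TC) :
    x.val * Y * (x⁻¹).val ∈ K.TC := by
  have hdet := (hL g A).2.2.1
  have hD : StabG (Gam A) tT (DT A.riem K.TC) := by
    rintro p hp _ ⟨u, hu, rfl⟩
    rw [mem_DT, act_T A.riem p.1 p.2.val (Units.ne_zero _) (hG1 g A p hp).2]
    exact hT p hp _ hu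
  have hu : VV (Y * A.riem⁻¹) ∈ DT A.riem K.TC := by
    rw [mem_DT, UU_VV, Matrix.mul_assoc, Matrix.nonsing_inv_mul _ hdet, Matrix.mul_one]
    exact hY
  have h1 := hx tT _ hD ⟨_, hu, rfl⟩
  have h2 : Y * A.riem⁻¹ * A.riem = Y := by
    rw [Matrix.mul_assoc, Matrix.nonsing_inv_mul _ hdet, Matrix.mul_one]
  rw [mem_DT, act_T A.riem x ν hν hs, UU_VV, h2] at h1
  exact h1

theorem map_TC {g n m : ℕ} {A : AbVar g} (K : KSE A n m) (σ : ℂ ≃ₐ[ℚ] ℂ) (Y : Matrix (Idx g) (Idx g) ℂ)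
    (hY : Y ∈ K.TC) : Y.map σ ∈ K.TC := by
  unfold KSE.TC at hY ⊢
  refine Submodule.span_induction (p := fun Y _ => Y.map σ ∈ Submodule.span ℂ
    (Set.range fun j => AbVar.toC (K.t j))) ?_ ?_ ?_ ?_ hY
  · rintro _ ⟨j, rfl⟩
    have : (AbVar.toC (K.t j)).map σ = AbVar.toC (K.t j) := by
      ext a b
      simp [AbVar.toC]
    show (AbVar.toC (K.t j)).map σ ∈ _
    rw [this]
    exact Submodule.subset_span ⟨j, rfl⟩
  · have : (0 : Matrix (Idx g) (Idx g) ℂ).map σ = 0 := by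
      ext a b; simp
    rw [this]
    exact Submodule.zero_mem _
  · intro Y Z _ _ h1 h2
    have : (Y + Z).map σ = Y.map σ + Z.map σ := by
      ext a b; simp
    rw [this]
    exact Submodule.add_mem _ h1 h2
  · intro c Y _ h1
    have : (c • Y).map σ = σ c • Y.map σ := by
      ext a b; simp
    rw [this]
    exact Submodule.smul_mem _ _ h1

theorem coc_TC {g n m : ℕ} {A : AbVar g} (K : KSE A n m) {τ : ℂ ≃ₐ[ℚ] ℂ} (hτ : τ ∈ GalA)
    (p : GL (Idx g) ℂ) (hp : p.val = A.per⁻¹ * A.per.map τ) (Y : Matrix (Idx g) (Idx g) ℂ)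
    (hY : Y ∈ K.TC) : p.val * Y * (p⁻¹).val ∈ K.TC := by
  have hPP : A.per⁻¹ * A.per = 1 := Matrix.nonsing_inv_mul _ A.nondeg
  have hPP' : A.per * A.per⁻¹ = 1 := Matrix.mul_nonsing_inv _ A.nondeg
  have e3 : A.per.map τ * (A.per⁻¹).map τ = 1 := by
    rw [← FinX.map_mul', hPP']
    ext i j
    by_cases hij : i = j
    · subst hij; simp
    · simp [Matrix.one_apply_ne hij]
  have e4 : (p⁻¹).val = (A.per⁻¹).map τ * A.per := by
    have h3 : p.val * ((A.per⁻¹).map τ * A.per) = 1 := by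
      rw [hp]
      calc _ = A.per⁻¹ * (A.per.map τ * (A.per⁻¹).map τ) * A.per := by simp only [mul_assoc]
        _ = 1 := by rw [e3, mul_one, hPP]
    have hppi' : (p⁻¹).val * p.val = 1 := by rw [← Units.val_mul]; simp
    calc (p⁻¹).val = (p⁻¹).val * (p.val * ((A.per⁻¹).map τ * A.per)) := by rw [h3, mul_one]
      _ = _ := by rw [← mul_assoc, hppi', one_mul]
  -- it suffices to consider a rational Y
  have key : ∀ j, p.val * AbVar.toC (K.t j) * (p⁻¹).val ∈ K.TC := by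
    intro j
    have h1 : p.val * AbVar.toC (K.t j) * (p⁻¹).val =
        A.per⁻¹ * ((A.per * AbVar.toC (K.t j) * A.per⁻¹).map τ) * A.per := by
      have e2 : (AbVar.toC (K.t j)).map τ = AbVar.toC (K.t j) := by
        ext a b
        simp [AbVar.toC]
      rw [FinX.map_mul', FinX.map_mul', e2, e4, hp]
      simp only [mul_assoc]
    rw [h1]
    refine Submodule.span_induction (p := fun Z _ => A.per⁻¹ * Z.map τ * A.per ∈ K.TC) ?_ ?_ ?_ ?_
      (K.drb j)
    · rintro Z ⟨hZ, hZ2⟩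
      have : Z.map τ = Z := by
        ext a b
        exact hτ _ (hZ a b)
      rw [this]
      exact hZ2
    · have : (0 : Matrix (Idx g) (Idx g) ℂ).map τ = 0 := by
        ext a b; simp
      rw [this, mul_zero, zero_mul]
      exact Submodule.zero_mem _
    · intro Y Z _ _ h1 h2
      have : (Y + Z).map τ = Y.map τ + Z.map τ := by
        ext a b; simp
      rw [this, mul_add, add_mul]
      exact Submodule.add_mem _ h1 h2
    · intro c Y _ h1
      have : (c • Y).map τ = τ c • Y.map τ := by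
        ext a b; simp
      rw [this, Matrix.mul_smul, Matrix.smul_mul]
      exact Submodule.smul_mem _ _ h1
  unfold KSE.TC at hY
  refine Submodule.span_induction (p := fun Y _ => p.val * Y * (p⁻¹).val ∈ K.TC) ?_ ?_ ?_ ?_ hY
  · rintro _ ⟨j, rfl⟩
    exact key j
  · rw [mul_zero, zero_mul]
    exact Submodule.zero_mem _
  · intro Y Z _ _ h1 h2
    rw [mul_add, add_mul]
    exact Submodule.add_mem _ h1 h2
  · intro c Y _ h1
    rw [Matrix.mul_smul, Matrix.smul_mul]
    exact Submodule.smul_mem _ _ h1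

theorem gam_TC {g n m : ℕ} {A : AbVar g} (K : KSE A n m) : ∀ p ∈ Gam A, ∀ Y ∈ K.TC,
    p.1.val * Y * (p.1⁻¹).val ∈ K.TC := by
  intro p hp
  unfold Gam at hp
  refine Subgroup.closure_induction (p := fun (x : GL (Idx g) ℂ × ℂˣ) _ =>
    ∀ Y ∈ K.TC, x.1.val * Y * (x.1⁻¹).val ∈ K.TC) ?_ ?_ ?_ ?_ hp
  · rintro x ⟨σ, τ, hτ, hx1, -⟩ Y hY
    obtain ⟨p, hp, hpe⟩ := FinX.exists_elt A τ hτ
    have h1 := coc_TC K hτ p.1 hpe (Y.map σ.symm) (map_TC K σ.symm Y hY)
    have h2 := map_TC K σ _ h1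
    have h3 : x.1.val = p.1.val.map σ := by rw [hx1, hpe]
    have h4 : (x.1⁻¹).val = ((p.1⁻¹).val).map σ := by
      have e1 : p.1.val.map σ * ((p.1⁻¹).val).map σ = 1 := by
        rw [← FinX.map_mul', ← Units.val_mul, mul_inv_cancel]
        ext i j
        by_cases hij : i = j
        · subst hij; simp
        · simp [Matrix.one_apply_ne hij]
      have e2 : (x.1⁻¹).val * x.1.val = 1 := by rw [← Units.val_mul]; simp
      calc (x.1⁻¹).val = (x.1⁻¹).val * (x.1.val * ((p.1⁻¹).val).map σ) := by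
            rw [h3, e1, mul_one]
        _ = _ := by rw [← mul_assoc, e2, one_mul]
    rw [FinX.map_mul', FinX.map_mul', FinX.map_map_symm, ← h3, ← h4] at h2
    exact h2
  · intro Y hY
    simpa using hY
  · intro x y _ _ hx hy Y hY
    have h1 := hx _ (hy Y hY)
    have e1 : ((x * y).1⁻¹).val = (y.1⁻¹).val * (x.1⁻¹).val := by
      show ((x.1 * y.1)⁻¹).val = _
      rw [_root_.mul_inv_rev, Units.val_mul]
    have e2 : (x * y).1.val = x.1.val * y.1.val := rfl
    rw [e1, e2]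
    have e3 : x.1.val * y.1.val * Y * ((y.1⁻¹).val * (x.1⁻¹).val) =
        x.1.val * (y.1.val * Y * (y.1⁻¹).val) * (x.1⁻¹).val := by simp only [mul_assoc]
    rw [e3]
    exact h1
  · intro x _ hx Y hY
    -- conjugation by x is injective on the finite dimensional space TC, hence surjective
    let f : K.TC →ₗ[ℂ] K.TC :=
      { toFun := fun Z => ⟨x.1.val * Z.1 * (x.1⁻¹).val, hx Z.1 Z.2⟩
        map_add' := by
          intro Z W
          apply Subtype.ext
          simp only [Submodule.coe_add, mul_add, add_mul]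
        map_smul' := by
          intro c Z
          apply Subtype.ext
          simp only [Submodule.coe_smul, Matrix.mul_smul, Matrix.smul_mul, RingHom.id_apply] }
    have e1 : x.1.val * (x.1⁻¹).val = 1 := by rw [← Units.val_mul]; simp
    have e2 : (x.1⁻¹).val * x.1.val = 1 := by rw [← Units.val_mul]; simp
    have hinj : Function.Injective f := by
      intro Z W hZW
      have h1 : x.1.val * Z.1 * (x.1⁻¹).val = x.1.val * W.1 * (x.1⁻¹).val :=
        congrArg Subtype.val hZW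
      apply Subtype.ext
      calc Z.1 = ((x.1⁻¹).val * x.1.val) * Z.1 * ((x.1⁻¹).val * x.1.val) := by
            rw [e2, one_mul, mul_one]
        _ = (x.1⁻¹).val * (x.1.val * Z.1 * (x.1⁻¹).val) * x.1.val := by simp only [mul_assoc]
        _ = (x.1⁻¹).val * (x.1.val * W.1 * (x.1⁻¹).val) * x.1.val := by rw [h1]
        _ = ((x.1⁻¹).val * x.1.val) * W.1 * ((x.1⁻¹).val * x.1.val) := by simp only [mul_assoc]
        _ = W.1 := by rw [e2, one_mul, mul_one]
    obtain ⟨Z, hZ⟩ := (LinearMap.injective_iff_surjective.1 hinj) ⟨Y, hY⟩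
    have h1 : x.1.val * Z.1 * (x.1⁻¹).val = Y := congrArg Subtype.val hZ
    have e3 : ((x⁻¹).1⁻¹).val = x.1.val := by
      show ((x.1⁻¹)⁻¹).val = _
      rw [inv_inv]
    have e4 : (x⁻¹).1.val = (x.1⁻¹).val := rfl
    rw [e3, e4, ← h1]
    have e5 : (x.1⁻¹).val * (x.1.val * Z.1 * (x.1⁻¹).val) * x.1.val = Z.1 := by
      calc _ = ((x.1⁻¹).val * x.1.val) * Z.1 * ((x.1⁻¹).val * x.1.val) := by simp only [mul_assoc]
        _ = Z.1 := by rw [e2, one_mul, mul_one]
    rw [e5]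
    exact Z.2

theorem E2d_proof (hK2a : Stmt_K2a) (hG1 : Stmt_Gb1) (hG2 : Stmt_Gb2) (hRev : Stmt_Rev)
    (hL : Stmt_Leg) : Stmt_E2d := by
  intro g A n m K
  refine ⟨gam_TC K, ?_⟩
  intro X ξ h Y hY
  have h1 : ∀ s : ℝ, InLie (Gam A) (s • X) (s * ξ) := by
    intro s
    have := inLie_smul hK2a h (s : ℂ)
    have e : (s : ℂ) • X = s • X := by
      ext i j; simp
    rwa [e] at this
  refine ad_of_exp X Y K.TC fun s => ?_
  exact T_of_stab K hG1 hL (gam_TC K) (eX (s • X)) _ (Complex.exp_ne_zero _)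
    (hRev g A _ _ (exp_inGdRB hK2a hG2 (h1 s))).2 (fun t D hD => exp_stab (h1 s) t D hD) Y hY

end

end Pool.Agent.K3E
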