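import Pool.Agent.K3E.Stmts

/-!
# E5a: the Clifford relations, the lift of skew maps, and scalars
-/

open scoped BigOperators
open Matrix

namespace Pool.Agent.K3E

open Pool.Agent.DRB Pool.Agent.K3D

noncomputable section

namespace E5A

variable {g n m : ℕ} {A : AbVar g} (K : KSE A n m)

theorem one_ne {g : ℕ} (hg : 0 < g) : (1 : Matrix (Idx g) (Idx g) ℂ) ≠ 0 := by
  intro h
  have := congrFun (congrFun h (Sum.inl ⟨0, hg⟩)) (Sum.inl ⟨0, hg⟩)
  simp at this

theorem cl_add (v w : Fin n → ℂ) : K.cl (v + w) = K.cl v + K.cl w := by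
  simp [KSE.cl, add_smul, Finset.sum_add_distrib]

theorem cl_smul (c : ℂ) (v : Fin n → ℂ) : K.cl (c • v) = c • K.cl v := by
  simp [KSE.cl, Finset.smul_sum, smul_smul]

theorem cl_zero : K.cl 0 = 0 := by simp [KSE.cl]

/-- The Clifford map as a linear map. -/
def clL : (Fin n → ℂ) →ₗ[ℂ] Matrix (Idx g) (Idx g) ℂ where
  toFun := K.cl
  map_add' := cl_add K
  map_smul' := cl_smul K

theorem bil_comm (v w : Fin n → ℂ) : K.bil v w = K.bil w v := by
  simp only [KSE.bil]
  exact Finset.sum_congr rfl fun j _ => by ring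

theorem bil_single (v : Fin n → ℂ) (i : Fin n) (c : ℂ) :
    K.bil v (Pi.single i c) = (K.q i : ℂ) * v i * c := by
  unfold KSE.bil
  rw [Finset.sum_eq_single i]
  · simp
  · intro j _ hj
    simp [Pi.single_eq_of_ne hj]
  · simp

theorem bil_nondeg (v : Fin n → ℂ) (h : ∀ w, K.bil v w = 0) : v = 0 := by
  funext i
  have := h (Pi.single i 1)
  rw [bil_single] at this
  have hq : (K.q i : ℂ) ≠ 0 := by exact_mod_cast K.q_ne i
  simpa [hq] using this

/-- The relations of the Clifford algebra. -/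
def Rel : Prop := ∀ v w, K.cl v * K.cl w + K.cl w * K.cl v =
  (2 * K.bil v w) • (1 : Matrix (Idx g) (Idx g) ℂ)

/-- The generators. -/
def T (i : Fin n) : Matrix (Idx g) (Idx g) ℂ := AbVar.toC (K.t i)

theorem toC_smul {ι : Type} (c : ℚ) (α : Matrix ι ι ℚ) :
    AbVar.toC (c • α) = (c : ℂ) • AbVar.toC α := by
  ext i j
  simp [AbVar.toC]

theorem toC_one {ι : Type} [DecidableEq ι] : AbVar.toC (1 : Matrix ι ι ℚ) = 1 := by
  unfold AbVar.toC
  exact Matrix.map_one _ (map_zero _) (map_one _)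

theorem toC_neg {ι : Type} (α : Matrix ι ι ℚ) : AbVar.toC (-α) = -AbVar.toC α := by
  ext i j
  simp [AbVar.toC]

theorem T_sq (i : Fin n) : T K i * T K i = (K.q i : ℂ) • 1 := by
  unfold T
  rw [← AbVar.toC_mul, K.sq, toC_smul, toC_one]

theorem T_anti (i j : Fin n) (h : i ≠ j) : T K i * T K j = -(T K j * T K i) := by
  unfold T
  rw [← AbVar.toC_mul, K.anti i j h, toC_neg, AbVar.toC_mul]

theorem cl_eq (v : Fin n → ℂ) : K.cl v = ∑ j, v j • T K j := rfl

theorem cl_single (i : Fin n) : K.cl (Pi.single i 1) = T K i := by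
  rw [cl_eq, Finset.sum_eq_single i]
  · simp
  · intro j _ hj
    simp [Pi.single_eq_of_ne hj]
  · simp

theorem T_pair (i j : Fin n) : T K i * T K j + T K j * T K i =
    (if i = j then 2 * (K.q i : ℂ) else 0) • (1 : Matrix (Idx g) (Idx g) ℂ) := by
  by_cases h : i = j
  · subst h
    rw [if_pos rfl, T_sq, ← add_smul, ← two_mul]
  · rw [if_neg h, T_anti K i j h, zero_smul, neg_add_cancel]

theorem rel : Rel K := by
  intro v w
  have h1 : K.cl v * K.cl w = ∑ i, ∑ j, (v i * w j) • (T K i * T K j) := by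
    rw [cl_eq, cl_eq, Finset.sum_mul]
    refine Finset.sum_congr rfl fun i _ => ?_
    rw [Finset.mul_sum]
    refine Finset.sum_congr rfl fun j _ => ?_
    rw [smul_mul_smul_comm]
  have h2 : K.cl w * K.cl v = ∑ i, ∑ j, (v i * w j) • (T K j * T K i) := by
    rw [cl_eq, cl_eq, Finset.sum_mul, Finset.sum_comm' (s := Finset.univ) (t := fun _ => Finset.univ)
      (t' := Finset.univ) (s' := fun _ => Finset.univ) (by simp)]
    refine Finset.sum_congr rfl fun i _ => ?_
    rw [Finset.mul_sum]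
    refine Finset.sum_congr rfl fun j _ => ?_
    rw [smul_mul_smul_comm, mul_comm]
  rw [h1, h2, ← Finset.sum_add_distrib]
  have h3 : ∀ i, (∑ j, (v i * w j) • (T K i * T K j)) + (∑ j, (v i * w j) • (T K j * T K i)) =
      (2 * ((K.q i : ℂ) * v i * w i)) • (1 : Matrix (Idx g) (Idx g) ℂ) := by
    intro i
    rw [← Finset.sum_add_distrib, Finset.sum_eq_single i]
    · rw [← smul_add, T_pair, if_pos rfl, smul_smul]
      congr 1
      ring
    · intro j _ hj
      rw [← smul_add, T_pair, if_neg (fun h => hj h.symm), zero_smul, smul_zero]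
    · simp
  rw [Finset.sum_congr rfl fun i _ => h3 i, ← Finset.sum_smul]
  congr 1
  unfold KSE.bil
  rw [Finset.mul_sum]

theorem cl_inj (v : Fin n → ℂ) (h : K.cl v = 0) : v = 0 := by
  refine bil_nondeg K v fun w => ?_
  have h1 := rel K v w
  rw [h, zero_mul, mul_zero, add_zero] at h1
  have h2 := (smul_eq_zero.1 h1.symm).resolve_right (one_ne K.pos)
  exact (mul_eq_zero.1 h2).resolve_left two_ne_zero

theorem three (x y v : Fin n → ℂ) :
    K.cl x * K.cl y * K.cl v - K.cl v * (K.cl x * K.cl y) =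
      (2 * K.bil y v) • K.cl x - (2 * K.bil v x) • K.cl y := by
  have r1 : K.cl y * K.cl v = (2 * K.bil y v) • 1 - K.cl v * K.cl y := eq_sub_of_add_eq (rel K y v)
  have r2 : K.cl v * K.cl x = (2 * K.bil v x) • 1 - K.cl x * K.cl v := eq_sub_of_add_eq (rel K v x)
  rw [Matrix.mul_assoc, r1, ← Matrix.mul_assoc (K.cl v), r2, Matrix.mul_sub, Matrix.sub_mul,
    Matrix.mul_smul, Matrix.mul_one, Matrix.smul_mul, Matrix.one_mul, ← Matrix.mul_assoc]
  abel

theorem cl_sum_single (v : Fin n → ℂ) : K.cl v = ∑ i, v i • K.cl (Pi.single i 1) := by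
  rw [cl_eq]
  exact Finset.sum_congr rfl fun i _ => by rw [cl_single]

theorem mulVec_sum_single (a : Matrix (Fin n) (Fin n) ℂ) (v : Fin n → ℂ) :
    K.cl (a *ᵥ v) = ∑ i, v i • K.cl (a *ᵥ Pi.single i 1) := by
  have h1 : a *ᵥ v = ∑ i, v i • (a *ᵥ Pi.single i 1) := by
    funext r
    rw [Finset.sum_apply]
    simp only [Pi.smul_apply, Matrix.mulVec_single_one, Matrix.col_apply, smul_eq_mul]
    unfold Matrix.mulVec dotProduct
    exact Finset.sum_congr rfl fun i _ => mul_comm _ _
  have h2 : ∀ w, K.cl w = clL K w := fun _ => rfl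
  rw [h2, h1, map_sum]
  exact Finset.sum_congr rfl fun i _ => by rw [map_smul]; rfl

theorem lift (a : Matrix (Fin n) (Fin n) ℂ) (ha : ∀ v w, K.bil (a *ᵥ v) w + K.bil v (a *ᵥ w) = 0)
    (v : Fin n → ℂ) :
    (∑ i, ((4 * (K.q i : ℂ))⁻¹) • (K.cl (a *ᵥ Pi.single i 1) * K.cl (Pi.single i 1))) * K.cl v -
      K.cl v * (∑ i, ((4 * (K.q i : ℂ))⁻¹) • (K.cl (a *ᵥ Pi.single i 1) * K.cl (Pi.single i 1))) =
        K.cl (a *ᵥ v) := by
  rw [Finset.sum_mul, Finset.mul_sum, ← Finset.sum_sub_distrib]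
  have h1 : ∀ i, ((4 * (K.q i : ℂ))⁻¹) • (K.cl (a *ᵥ Pi.single i 1) * K.cl (Pi.single i 1)) * K.cl v -
      K.cl v * (((4 * (K.q i : ℂ))⁻¹) • (K.cl (a *ᵥ Pi.single i 1) * K.cl (Pi.single i 1))) =
      (2 : ℂ)⁻¹ • (v i • K.cl (a *ᵥ Pi.single i 1)) + (2 : ℂ)⁻¹ • ((a *ᵥ v) i • K.cl (Pi.single i 1)) := by
    intro i
    have hq : (K.q i : ℂ) ≠ 0 := by exact_mod_cast K.q_ne i
    have hs : K.bil v (a *ᵥ Pi.single i 1) = -((K.q i : ℂ) * (a *ᵥ v) i) := by
      have := ha v (Pi.single i 1)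
      rw [bil_single, mul_one] at this
      linear_combination this
    rw [Matrix.smul_mul, Matrix.mul_smul, ← smul_sub, three, bil_comm K (Pi.single i 1) v,
      bil_single, hs, smul_sub, smul_smul, smul_smul, smul_smul, smul_smul, sub_eq_add_neg,
      ← neg_smul]
    congr 1
    · congr 1
      field_simp
      norm_num
    · congr 1
      field_simp
      norm_num
  rw [Finset.sum_congr rfl fun i _ => h1 i, Finset.sum_add_distrib, ← Finset.smul_sum,
    ← Finset.smul_sum, ← mulVec_sum_single, ← cl_sum_single, ← add_smul]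
  norm_num

/-! ### Words -/

/-- The product of the generators along a word. -/
def M (w : List (Fin n)) : Matrix (Idx g) (Idx g) ℂ := (w.map (T K)).prod

theorem M_nil : M K [] = 1 := rfl

theorem M_cons (i : Fin n) (w : List (Fin n)) : M K (i :: w) = T K i * M K w := by
  simp [M]

theorem M_append (u w : List (Fin n)) : M K (u ++ w) = M K u * M K w := by
  simp [M]

theorem T_M (i : Fin n) (w : List (Fin n)) :
    T K i * M K w = (-1 : ℂ) ^ (w.length + w.count i) • (M K w * T K i) := by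
  induction w with
  | nil => simp [M_nil]
  | cons j w ih =>
    rw [M_cons, ← Matrix.mul_assoc]
    by_cases h : i = j
    · subst h
      rw [List.length_cons, List.count_cons_self]
      conv_lhs => rw [Matrix.mul_assoc, ih, Matrix.mul_smul, ← Matrix.mul_assoc]
      rw [show w.length + 1 + (w.count i + 1) = (w.length + w.count i) + 2 by ring,
        pow_add _ (w.length + w.count i) 2]
      norm_num
    · rw [List.length_cons, List.count_cons_of_ne (fun h' => h h'.symm)]
      conv_lhs => rw [T_anti K i j h, Matrix.neg_mul, Matrix.mul_assoc, ih, Matrix.mul_smul,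
        ← Matrix.mul_assoc, ← neg_one_smul ℂ, smul_smul]
      congr 1
      rw [show w.length + 1 + w.count i = (w.length + w.count i) + 1 by ring, pow_succ]
      ring

theorem M_scalar : ∀ (k : ℕ) (w : List (Fin n)), w.length = k → (∀ i, Even (w.count i)) →
    ∃ c : ℂ, M K w = c • 1 := by
  intro k
  induction k using Nat.strong_induction_on with
  | _ k ih =>
    intro w hw hc
    cases w with
    | nil => exact ⟨1, by rw [M_nil, one_smul]⟩
    | cons i w =>
      have h1 := hc i
      rw [List.count_cons_self] at h1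
      have h2 : i ∈ w := by
        by_contra hn
        rw [List.count_eq_zero_of_not_mem hn] at h1
        exact absurd h1 (by decide)
      obtain ⟨u, v, rfl⟩ := List.append_of_mem h2
      have h3 : ∀ j, Even ((u ++ v).count j) := by
        intro j
        have h4 := hc j
        by_cases hj : j = i
        · subst hj
          rw [List.count_cons_self, List.count_append, List.count_cons_self] at h4
          rw [List.count_append]
          have : List.count j u + (List.count j v + 1) + 1 = (List.count j u + List.count j v) + 2 := by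
            ring
          rw [this, Nat.even_add] at h4
          exact h4.2 even_two
        · rw [List.count_cons_of_ne (fun h' => hj h'.symm), List.count_append,
            List.count_cons_of_ne (fun h' => hj h'.symm)] at h4
          rw [List.count_append]
          exact h4
      obtain ⟨c, hcc⟩ := ih (u ++ v).length (by
        rw [← hw]
        simp only [List.length_append, List.length_cons]
        omega) (u ++ v) rfl h3
      rw [M_cons, M_append, M_cons, ← Matrix.mul_assoc, T_M, Matrix.smul_mul, Matrix.mul_assoc,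
        ← Matrix.mul_assoc (T K i), T_sq, Matrix.smul_mul, Matrix.mul_smul, Matrix.one_mul,
        ← M_append, hcc]
      exact ⟨_, by rw [smul_smul, smul_smul]⟩

/-- The averaging operator. -/
def P (i : Fin n) : Matrix (Idx g) (Idx g) ℂ →ₗ[ℂ] Matrix (Idx g) (Idx g) ℂ where
  toFun Y := (2 : ℂ)⁻¹ • (Y + (K.q i : ℂ)⁻¹ • (T K i * Y * T K i))
  map_add' Y Z := by
    rw [Matrix.mul_add, Matrix.add_mul, smul_add (K.q i : ℂ)⁻¹, ← smul_add (2 : ℂ)⁻¹]
    congr 1
    abel
  map_smul' c Y := by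
    simp only [RingHom.id_apply]
    rw [Matrix.mul_smul, Matrix.smul_mul, smul_comm (K.q i : ℂ)⁻¹ c, ← smul_add, smul_comm]

theorem P_apply (i : Fin n) (Y : Matrix (Idx g) (Idx g) ℂ) :
    P K i Y = (2 : ℂ)⁻¹ • (Y + (K.q i : ℂ)⁻¹ • (T K i * Y * T K i)) := rfl

theorem P_comm (i : Fin n) (Y : Matrix (Idx g) (Idx g) ℂ) (h : Y * T K i = T K i * Y) :
    P K i Y = Y := by
  have hq : (K.q i : ℂ) ≠ 0 := by exact_mod_cast K.q_ne i
  rw [P_apply, ← h, Matrix.mul_assoc, T_sq, Matrix.mul_smul, Matrix.mul_one, smul_smul,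
    inv_mul_cancel₀ hq, one_smul, ← two_smul ℂ Y, smul_smul]
  norm_num

theorem P_word (i : Fin n) (w : List (Fin n)) (hw : Even w.length) :
    P K i (M K w) = if Even (w.count i) then M K w else 0 := by
  have hq : (K.q i : ℂ) ≠ 0 := by exact_mod_cast K.q_ne i
  have h1 : T K i * M K w * T K i = ((-1 : ℂ) ^ (w.length + w.count i) * (K.q i : ℂ)) • M K w := by
    rw [T_M, Matrix.smul_mul, Matrix.mul_assoc, T_sq, Matrix.mul_smul, Matrix.mul_one, smul_smul]
  rw [P_apply, h1, smul_smul]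
  split_ifs with h
  · rw [(hw.add h).neg_one_pow, one_mul, inv_mul_cancel₀ hq, one_smul, ← two_smul ℂ (M K w),
      smul_smul]
    norm_num
  · rw [Nat.not_even_iff_odd] at h
    rw [(hw.add_odd h).neg_one_pow, mul_comm (-1 : ℂ), ← mul_assoc, inv_mul_cancel₀ hq, one_mul,
      neg_one_smul, add_neg_cancel, smul_zero]

/-- The composition of the averaging operators. -/
def PP (l : List (Fin n)) (Y : Matrix (Idx g) (Idx g) ℂ) : Matrix (Idx g) (Idx g) ℂ :=
  l.foldr (fun i Z => P K i Z) Y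

theorem PP_cons (i : Fin n) (l : List (Fin n)) (Y : Matrix (Idx g) (Idx g) ℂ) :
    PP K (i :: l) Y = P K i (PP K l Y) := rfl

theorem PP_zero (l : List (Fin n)) : PP K l 0 = 0 := by
  induction l with
  | nil => rfl
  | cons i l ih => rw [PP_cons, ih, map_zero]

theorem PP_add (l : List (Fin n)) (Y Z : Matrix (Idx g) (Idx g) ℂ) :
    PP K l (Y + Z) = PP K l Y + PP K l Z := by
  induction l with
  | nil => rfl
  | cons i l ih => rw [PP_cons, ih, map_add]; rfl

theorem PP_smul (l : List (Fin n)) (c : ℂ) (Y : Matrix (Idx g) (Idx g) ℂ) :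
    PP K l (c • Y) = c • PP K l Y := by
  induction l with
  | nil => rfl
  | cons i l ih => rw [PP_cons, ih, map_smul]; rfl

theorem PP_comm (l : List (Fin n)) (Y : Matrix (Idx g) (Idx g) ℂ)
    (h : ∀ i, Y * T K i = T K i * Y) : PP K l Y = Y := by
  induction l with
  | nil => rfl
  | cons i l ih => rw [PP_cons, ih, P_comm K i Y (h i)]

theorem PP_word (l : List (Fin n)) (w : List (Fin n)) (hw : Even w.length) :
    PP K l (M K w) = if (∀ i ∈ l, Even (w.count i)) then M K w else 0 := by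
  induction l with
  | nil => simp [PP]
  | cons i l ih =>
    rw [PP_cons, ih]
    by_cases h1 : ∀ i ∈ l, Even (w.count i)
    · rw [if_pos h1, P_word K i w hw]
      by_cases h2 : Even (w.count i)
      · rw [if_pos h2, if_pos]
        intro j hj
        rcases List.mem_cons.1 hj with rfl | hj
        · exact h2
        · exact h1 j hj
      · rw [if_neg h2, if_neg]
        intro h3
        exact h2 (h3 i List.mem_cons_self)
    · rw [if_neg h1, map_zero, if_neg]
      intro h3
      exact h1 fun j hj => h3 j (List.mem_cons_of_mem _ hj)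

/-- Even words. -/
def EW : Submodule ℂ (Matrix (Idx g) (Idx g) ℂ) :=
  Submodule.span ℂ {Y | ∃ w : List (Fin n), Even w.length ∧ Y = M K w}

theorem scalar_of_EW (Y : Matrix (Idx g) (Idx g) ℂ) (hY : Y ∈ EW K)
    (h : ∀ i, Y * T K i = T K i * Y) : ∃ c : ℂ, Y = c • 1 := by
  have h1 : ∀ Z ∈ EW K, ∃ c : ℂ, PP K (List.finRange n) Z = c • 1 := by
    intro Z hZ
    unfold EW at hZ
    induction hZ using Submodule.span_induction with
    | mem x hx =>
      obtain ⟨w, hw, rfl⟩ := hx
      rw [PP_word K _ w hw]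
      split_ifs with h2
      · exact M_scalar K _ w rfl fun i => h2 i (List.mem_finRange i)
      · exact ⟨0, by rw [zero_smul]⟩
    | zero => exact ⟨0, by rw [PP_zero, zero_smul]⟩
    | add x y _ _ hx hy =>
      obtain ⟨c, hc⟩ := hx
      obtain ⟨d, hd⟩ := hy
      exact ⟨c + d, by rw [PP_add, hc, hd, add_smul]⟩
    | smul a x _ hx =>
      obtain ⟨c, hc⟩ := hx
      exact ⟨a * c, by rw [PP_smul, hc, smul_smul]⟩
  obtain ⟨c, hc⟩ := h1 Y hY
  exact ⟨c, by rw [← hc, PP_comm K _ Y h]⟩

theorem EW_mul {Y Z : Matrix (Idx g) (Idx g) ℂ} (hY : Y ∈ EW K) (hZ : Z ∈ EW K) :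
    Y * Z ∈ EW K := by
  unfold EW at hY
  induction hY using Submodule.span_induction with
  | mem x hx =>
    obtain ⟨w, hw, rfl⟩ := hx
    unfold EW at hZ
    induction hZ using Submodule.span_induction with
    | mem y hy =>
      obtain ⟨u, hu, rfl⟩ := hy
      rw [← M_append]
      exact Submodule.subset_span ⟨_, by rw [List.length_append]; exact hw.add hu, rfl⟩
    | zero => rw [Matrix.mul_zero]; exact Submodule.zero_mem _
    | add x y _ _ hx hy => rw [Matrix.mul_add]; exact Submodule.add_mem _ hx hy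
    | smul a x _ hx => rw [Matrix.mul_smul]; exact Submodule.smul_mem _ _ hx
  | zero => rw [Matrix.zero_mul]; exact Submodule.zero_mem _
  | add x y _ _ hx hy => rw [Matrix.add_mul]; exact Submodule.add_mem _ hx hy
  | smul a x _ hx => rw [Matrix.smul_mul]; exact Submodule.smul_mem _ _ hx

theorem zop_toC (a : Matrix (Fin n) (Fin n) ℚ) :
    AbVar.toC (zop K.t K.q a) = K.Z (a.map (fun x => (x : ℂ))) := by
  have h1 : ∀ i, K.cl (a.map (fun x => (x : ℂ)) *ᵥ Pi.single i 1) = ∑ j, (a j i : ℂ) • T K j := by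
    intro i
    rw [cl_eq]
    refine Finset.sum_congr rfl fun j _ => ?_
    rw [Matrix.mulVec_single_one]
    rfl
  unfold zop KSE.Z
  ext r s
  simp only [AbVar.toC, Matrix.map_apply, Matrix.sum_apply, Matrix.smul_apply, h1, cl_single]
  rw [map_sum]
  refine Finset.sum_congr rfl fun i _ => ?_
  rw [Matrix.mul_apply, Matrix.mul_apply, Finset.smul_sum, Finset.smul_sum, map_sum]
  refine Finset.sum_congr rfl fun j _ => ?_
  simp only [smul_eq_mul, map_mul, Matrix.sum_apply, Matrix.smul_apply, map_sum, map_inv₀, T,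
    AbVar.toC, Matrix.map_apply, eq_ratCast, Rat.cast_ofNat]

theorem Z_add (a b : Matrix (Fin n) (Fin n) ℂ) : K.Z (a + b) = K.Z a + K.Z b := by
  unfold KSE.Z
  rw [← Finset.sum_add_distrib]
  refine Finset.sum_congr rfl fun i _ => ?_
  rw [Matrix.add_mulVec, cl_add, Matrix.add_mul, smul_add]

theorem Z_smul (c : ℂ) (a : Matrix (Fin n) (Fin n) ℂ) : K.Z (c • a) = c • K.Z a := by
  unfold KSE.Z
  rw [Finset.smul_sum]
  refine Finset.sum_congr rfl fun i _ => ?_
  rw [Matrix.smul_mulVec, cl_smul, Matrix.smul_mul, smul_comm]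

theorem Z_zero : K.Z 0 = 0 := by
  have := Z_smul K 0 0
  simpa using this

theorem Z_sum {κ : Type} (s : Finset κ) (f : κ → Matrix (Fin n) (Fin n) ℂ) :
    K.Z (∑ k ∈ s, f k) = ∑ k ∈ s, K.Z (f k) := by
  classical
  induction s using Finset.induction_on with
  | empty => simp [Z_zero]
  | insert a s ha ih => rw [Finset.sum_insert ha, Finset.sum_insert ha, Z_add, ih]

theorem zop_mem_EW (a : Matrix (Fin n) (Fin n) ℚ) : AbVar.toC (zop K.t K.q a) ∈ EW K := by
  rw [zop_toC]
  unfold KSE.Z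
  refine Submodule.sum_mem _ fun i _ => Submodule.smul_mem _ _ ?_
  rw [cl_eq, cl_single, Finset.sum_mul]
  refine Submodule.sum_mem _ fun j _ => ?_
  rw [Matrix.smul_mul]
  refine Submodule.smul_mem _ _ (Submodule.subset_span ⟨[j, i], by simp, ?_⟩)
  rw [M_cons, M_cons, M_nil, Matrix.mul_one]

theorem toC_mem_EW (X : Matrix (Idx g) (Idx g) ℚ)
    (hX : X ∈ Algebra.adjoin ℚ {Y | ∃ a : Matrix (Fin n) (Fin n) ℚ,
      aᵀ * Matrix.diagonal K.q + Matrix.diagonal K.q * a = 0 ∧ a * K.th = K.th * a ∧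
        Y = zop K.t K.q a}) :
    AbVar.toC X ∈ EW K := by
  have h1 : (1 : Matrix (Idx g) (Idx g) ℂ) ∈ EW K :=
    Submodule.subset_span ⟨[], by simp, (M_nil K).symm⟩
  induction hX using Algebra.adjoin_induction with
  | mem x hx =>
    obtain ⟨a, -, -, rfl⟩ := hx
    exact zop_mem_EW K a
  | algebraMap r =>
    have : AbVar.toC ((algebraMap ℚ (Matrix (Idx g) (Idx g) ℚ)) r) = (r : ℂ) • 1 := by
      rw [Algebra.algebraMap_eq_smul_one, toC_smul, toC_one]
    rw [this]
    exact Submodule.smul_mem _ _ h1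
  | add x y _ _ hx hy => rw [AbVar.toC_add]; exact Submodule.add_mem _ hx hy
  | mul x y _ _ hx hy => rw [AbVar.toC_mul]; exact EW_mul K hx hy

/-- The rational components of a complex matrix. -/
theorem descend {κ : Type} [Fintype κ] (Y : Matrix κ κ ℂ) :
    ∃ (ix : Type) (s : Finset ix) (b : ix → ℂ) (c : ix → ℂ →ₗ[ℚ] ℚ),
      Y = ∑ k ∈ s, (b k) • AbVar.toC (Y.map (c k)) := by
  classical
  let b := Module.Basis.ofVectorSpace ℚ ℂ
  let s : Finset (Module.Basis.ofVectorSpaceIndex ℚ ℂ) :=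
    Finset.univ.biUnion fun p : κ × κ => (b.repr (Y p.1 p.2)).support
  refine ⟨Module.Basis.ofVectorSpaceIndex ℚ ℂ, s, fun k => b k, fun k => b.coord k, ?_⟩
  ext i j
  have h1 : Y i j = ∑ k ∈ s, (b.repr (Y i j)) k • b k := by
    conv_lhs => rw [← b.linearCombination_repr (Y i j)]
    rw [Finsupp.linearCombination_apply]
    refine Finsupp.sum_of_support_subset _ ?_ _ (by simp)
    intro k hk
    exact Finset.mem_biUnion.2 ⟨(i, j), Finset.mem_univ _, hk⟩
  rw [Matrix.sum_apply]
  conv_lhs => rw [h1]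
  refine Finset.sum_congr rfl fun k _ => ?_
  simp only [Matrix.smul_apply, AbVar.toC, Matrix.map_apply, smul_eq_mul]
  rw [Algebra.smul_def, mul_comm]
  rfl

theorem map_mul_right {κ : Type} [Fintype κ] (c : ℂ →ₗ[ℚ] ℚ) (Y : Matrix κ κ ℂ) (α : Matrix κ κ ℚ) :
    (Y * AbVar.toC α).map c = Y.map c * α := by
  ext i j
  rw [Matrix.map_apply, Matrix.mul_apply, Matrix.mul_apply, map_sum]
  refine Finset.sum_congr rfl fun r _ => ?_
  have : Y i r * AbVar.toC α r j = (α r j) • Y i r := by
    rw [Algebra.smul_def, mul_comm]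
    rfl
  rw [this, map_smul, smul_eq_mul, mul_comm]
  rfl

theorem map_mul_left {κ : Type} [Fintype κ] (c : ℂ →ₗ[ℚ] ℚ) (Y : Matrix κ κ ℂ) (α : Matrix κ κ ℚ) :
    (AbVar.toC α * Y).map c = α * Y.map c := by
  ext i j
  rw [Matrix.map_apply, Matrix.mul_apply, Matrix.mul_apply, map_sum]
  refine Finset.sum_congr rfl fun r _ => ?_
  have : AbVar.toC α i r * Y r j = (α i r) • Y r j := by
    rw [Algebra.smul_def]
    rfl
  rw [this, map_smul, smul_eq_mul]
  rfl

/-- A complex matrix commuting with the endomorphisms is a combination of even words. -/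
theorem mem_EW (Y : Matrix (Idx g) (Idx g) ℂ)
    (hY : ∀ α, A.IsEnd α → Y * AbVar.toC α = AbVar.toC α * Y) : Y ∈ EW K := by
  obtain ⟨ix, s, b, c, hsum⟩ := descend Y
  rw [hsum]
  refine Submodule.sum_mem _ fun k _ => Submodule.smul_mem _ _ ?_
  refine toC_mem_EW K _ ((K.comm (Y.map (c k))).1 fun α hα => ?_)
  rw [← map_mul_right, ← map_mul_left, hY α hα]

theorem toC_eq {κ : Type} (a : Matrix κ κ ℚ) : a.map (fun x => (x : ℂ)) = AbVar.toC a := by
  ext i j
  simp [AbVar.toC]

theorem toC_inj {κ : Type} {a b : Matrix κ κ ℚ} (h : AbVar.toC a = AbVar.toC b) : a = b := by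
  ext i j
  have := congrFun (congrFun h i) j
  simpa [AbVar.toC] using this

theorem toC_transpose {κ : Type} (a : Matrix κ κ ℚ) : (AbVar.toC a)ᵀ = AbVar.toC aᵀ := rfl

theorem diag_eq : Matrix.diagonal (fun i => (K.q i : ℂ)) = AbVar.toC (Matrix.diagonal K.q) := by
  ext i j
  simp only [AbVar.toC, Matrix.map_apply, Matrix.diagonal_apply]
  split_ifs <;> simp

/-- Elements of `K.S` are combinations of rational ones. -/
theorem S_descend (a : Matrix (Fin n) (Fin n) ℂ) (ha : a ∈ K.S) :
    ∃ (ix : Type) (s : Finset ix) (b : ix → ℂ) (r : ix → Matrix (Fin n) (Fin n) ℚ),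
      (∀ k, (r k)ᵀ * Matrix.diagonal K.q + Matrix.diagonal K.q * (r k) = 0 ∧
        (r k) * K.th = K.th * (r k)) ∧
      a = ∑ k ∈ s, (b k) • AbVar.toC (r k) := by
  obtain ⟨ix, s, b, c, hsum⟩ := descend a
  have h1 : aᵀ * Matrix.diagonal (fun i => (K.q i : ℂ)) +
      Matrix.diagonal (fun i => (K.q i : ℂ)) * a = 0 := ha.1
  have h2 : a * K.thC = K.thC * a := ha.2
  refine ⟨ix, s, b, fun k => a.map (c k), fun k => ⟨?_, ?_⟩, hsum⟩
  · rw [diag_eq] at h1
    have h3 : (aᵀ * AbVar.toC (Matrix.diagonal K.q) + AbVar.toC (Matrix.diagonal K.q) * a).map (c k) =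
        (0 : Matrix (Fin n) (Fin n) ℂ).map (c k) := by rw [h1]
    have h4 : (aᵀ * AbVar.toC (Matrix.diagonal K.q) + AbVar.toC (Matrix.diagonal K.q) * a).map (c k) =
        (aᵀ * AbVar.toC (Matrix.diagonal K.q)).map (c k) +
          (AbVar.toC (Matrix.diagonal K.q) * a).map (c k) := by
      ext i j
      simp
    rw [h4, map_mul_right, map_mul_left] at h3
    rw [Matrix.transpose_map] at h3
    rw [h3]
    ext i j
    simp
  · unfold KSE.thC at h2
    rw [toC_eq] at h2
    rw [← map_mul_right, ← map_mul_left, h2]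

theorem end_comm (α : Matrix (Idx g) (Idx g) ℚ) (hα : A.IsEnd α) (a : Matrix (Fin n) (Fin n) ℂ)
    (ha : a ∈ K.S) : K.Z a * AbVar.toC α = AbVar.toC α * K.Z a := by
  obtain ⟨ix, s, b, r, hr, rfl⟩ := S_descend K a ha
  rw [Z_sum, Finset.sum_mul, Finset.mul_sum]
  refine Finset.sum_congr rfl fun k _ => ?_
  rw [Z_smul, ← toC_eq, ← zop_toC, Matrix.smul_mul, Matrix.mul_smul, ← AbVar.toC_mul,
    ← AbVar.toC_mul]
  have h1 := (K.comm (zop K.t K.q (r k))).2
    (Algebra.subset_adjoin ⟨r k, (hr k).1, (hr k).2, rfl⟩) α hα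
  rw [h1]

end E5A

theorem E5a_proof : Stmt_E5a := by
  intro g A n m K
  refine ⟨E5A.rel K, E5A.cl_inj K, fun a ha v => E5A.lift K a ha v, ?_, ?_,
    fun α hα a ha => E5A.end_comm K α hα a ha⟩
  · intro Y hY hcl
    refine E5A.scalar_of_EW K Y (E5A.mem_EW K Y hY) fun i => ?_
    rw [← E5A.cl_single]
    exact hcl _
  · intro Y hY a ha
    induction hY using Submodule.span_induction with
    | mem x hx =>
      obtain ⟨α, hα, rfl⟩ := hx
      exact (E5A.end_comm K α hα a ha).symm
    | zero => rw [Matrix.zero_mul, Matrix.mul_zero]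
    | add x y _ _ hx hy => rw [Matrix.add_mul, Matrix.mul_add, hx, hy]
    | smul c x _ hx => rw [Matrix.smul_mul, Matrix.mul_smul, hx]

end

end Pool.Agent.K3E
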