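import Pool.Agent.K3E.E5c

/-!
# E5B: a rational subspace of `T` stable under the group is trivial
-/

open scoped BigOperators
open Matrix

namespace Pool.Agent.K3E

open Pool.Agent.DRB Pool.Agent.K3D

namespace E5X

section

variable {g n m : ℕ} {A : AbVar g} {K : KSE A n m}

/-- A vector of an eigenspace orthogonal to `w` with nonzero square. -/
theorem exists_orth (W : Submodule ℂ (Fin n → ℂ)) (hW : 3 ≤ Module.finrank ℂ W)
    (hnd : ∀ v ∈ W, (∀ w ∈ W, K.bil v w = 0) → v = 0) (w y : Fin n → ℂ) (hy : y ∈ W)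
    (hyw : K.bil y w ≠ 0) : ∃ x ∈ W, K.bil x w = 0 ∧ K.bil x x ≠ 0 := by
  obtain ⟨k, b, hbW, hinj, horth, hne, hspan, -⟩ := orth_basis K W hnd
  by_contra hcon
  push Not at hcon
  have hk : 3 ≤ k := by
    have h1 : W ≤ Submodule.span ℂ (Set.range b) := fun v hv => hspan v hv
    have h2 : Module.finrank ℂ W ≤ Module.finrank ℂ (Submodule.span ℂ (Set.range b)) :=
      Submodule.finrank_mono h1
    have h3 : Module.finrank ℂ (Submodule.span ℂ (Set.range b)) ≤ k := by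
      have := finrank_range_le_card (R := ℂ) b
      rw [Fintype.card_fin] at this
      exact this
    omega
  have key : ∀ i j : Fin k, i ≠ j →
      K.bil (b j) w ^ 2 * K.bil (b i) (b i) + K.bil (b i) w ^ 2 * K.bil (b j) (b j) = 0 := by
    intro i j hij
    have h1 := hcon (K.bil (b j) w • b i + (-(K.bil (b i) w)) • b j)
      (W.add_mem (W.smul_mem _ (hbW i)) (W.smul_mem _ (hbW j))) (by
        rw [bil_add_left, bil_smul_left, bil_smul_left]
        ring)
    rw [bil_add_left, bil_smul_left, bil_smul_left, bil_add_right, bil_smul_right, bil_smul_right,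
      bil_add_right, bil_smul_right, bil_smul_right, horth i j hij, horth j i hij.symm] at h1
    linear_combination h1
  have hz : ∀ i, K.bil (b i) w = 0 := by
    intro i
    obtain ⟨j, hj⟩ : ∃ j : Fin k, j ≠ i := by
      by_cases h : i = ⟨0, by omega⟩
      · exact ⟨⟨1, by omega⟩, by rw [h]; simp⟩
      · exact ⟨⟨0, by omega⟩, fun h' => h h'.symm⟩
    obtain ⟨r, hr1, hr2⟩ : ∃ r : Fin k, r ≠ i ∧ r ≠ j := by
      by_contra h
      push Not at h
      have h0 := h ⟨0, by omega⟩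
      have h1 := h ⟨1, by omega⟩
      have h2 := h ⟨2, by omega⟩
      simp only [Fin.ext_iff, ne_eq] at h0 h1 h2 hj
      omega
    have e1 := key i j hj.symm
    have e2 := key i r hr1.symm
    have e3 := key j r hr2.symm
    have hqi := hne i
    have hqj := hne j
    have hqr := hne r
    -- c_i = bil(b_i,w)^2 / q_i
    have e4 : K.bil (b i) w ^ 2 * K.bil (b j) (b j) * K.bil (b r) (b r) * 2 = 0 := by
      have f1 : K.bil (b j) w ^ 2 * K.bil (b i) (b i) * K.bil (b r) (b r) +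
          K.bil (b i) w ^ 2 * K.bil (b j) (b j) * K.bil (b r) (b r) = 0 := by
        linear_combination K.bil (b r) (b r) * e1
      have f2 : K.bil (b r) w ^ 2 * K.bil (b i) (b i) * K.bil (b j) (b j) +
          K.bil (b i) w ^ 2 * K.bil (b r) (b r) * K.bil (b j) (b j) = 0 := by
        linear_combination K.bil (b j) (b j) * e2
      have f3 : K.bil (b r) w ^ 2 * K.bil (b j) (b j) * K.bil (b i) (b i) +
          K.bil (b j) w ^ 2 * K.bil (b r) (b r) * K.bil (b i) (b i) = 0 := by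
        linear_combination K.bil (b i) (b i) * e3
      linear_combination f1 + f2 - f3
    have e5 : K.bil (b i) w ^ 2 = 0 := by
      rcases mul_eq_zero.1 e4 with h | h
      · rcases mul_eq_zero.1 h with h | h
        · rcases mul_eq_zero.1 h with h | h
          · exact h
          · exact absurd h hqj
        · exact absurd h hqr
      · exact absurd h two_ne_zero
    exact pow_eq_zero_iff (two_ne_zero) |>.1 e5
  apply hyw
  have h1 := hspan y hy
  clear hyw hy
  induction h1 using Submodule.span_induction with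
  | mem x hx =>
    obtain ⟨i, rfl⟩ := hx
    exact hz i
  | zero => simpa using bil_smul_left K 0 0 w
  | add x y _ _ hx hy => rw [bil_add_left, hx, hy, add_zero]
  | smul c x _ hx => rw [bil_smul_left, hx, mul_zero]

theorem isotropic (hq : DRB.Stmt_DescQ) (h3 : DRB.Stmt_Gb3) (h1e : DRB.Stmt_T1e) (h5l : Stmt_E5l)
    (hm : 3 ≤ m) (K : KSE A n m) (W : Submodule ℂ (Fin n → ℂ))
    (haut : ∀ (σ : ℂ ≃ₐ[ℚ] ℂ), ∀ v ∈ W, (fun i => σ (v i)) ∈ W)
    (hgam : ∀ p ∈ Gam A, ∀ v ∈ W, ∃ w ∈ W, p.1.val * K.cl v * (p.1⁻¹).val = K.cl w)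
    (hiso : ∀ v ∈ W, ∀ w ∈ W, K.bil v w = 0) : W = ⊥ := by
  classical
  have hr' : Rel K := rel K
  have hg := K.pos
  -- the common kernel
  let Kf : Submodule ℂ (Idx g → ℂ) :=
    { carrier := {h | ∀ w ∈ W, K.cl w *ᵥ h = 0}
      add_mem' := fun {a b} ha hb w hw => by
        rw [Matrix.mulVec_add, ha w hw, hb w hw, add_zero]
      zero_mem' := fun w _ => Matrix.mulVec_zero _
      smul_mem' := fun c a ha w hw => by
        rw [Matrix.mulVec_smul, ha w hw, smul_zero] }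
  have hKf : ∀ h, h ∈ Kf ↔ ∀ w ∈ W, K.cl w *ᵥ h = 0 := fun h => Iff.rfl
  have hrat : RatSpan Kf := by
    refine hq (Idx g) Kf fun σ h hh => ?_
    rw [hKf] at hh ⊢
    intro w hw
    have h1 := hh _ (haut σ.symm w hw)
    have h2 : K.cl w = (K.cl (fun i => σ.symm (w i))).map σ := by
      rw [← cl_map]
      congr 1
      funext i
      simp
    rw [h2]
    funext r
    have h3 := congrFun h1 r
    simp only [Matrix.mulVec, dotProduct, Matrix.map_apply, Pi.zero_apply] at h3 ⊢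
    have h4 := congrArg σ h3
    rw [map_sum, map_zero] at h4
    rw [← h4]
    exact Finset.sum_congr rfl fun j _ => by rw [map_mul]
  have hst : ∀ p ∈ Gam A, Kf.map p.1.val.mulVecLin ≤ Kf := by
    intro p hp
    rw [Submodule.map_le_iff_le_comap]
    intro h hh
    rw [Submodule.mem_comap, hKf]
    intro w hw
    obtain ⟨w', hw', hw2⟩ := hgam p⁻¹ (inv_mem hp) w hw
    have h3 : K.cl w * p.1.val = p.1.val * K.cl w' := by
      rw [← hw2]
      have e1 : (p⁻¹).1 = p.1⁻¹ := rfl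
      rw [e1, inv_inv]
      have : p.1.val * ((p.1⁻¹).val * K.cl w * p.1.val) = (p.1.val * (p.1⁻¹).val) * K.cl w * p.1.val := by
        noncomm_ring
      rw [this, mul_inv_self, Matrix.one_mul]
    rw [Matrix.mulVecLin_apply, Matrix.mulVec_mulVec, h3, ← Matrix.mulVec_mulVec,
      (hKf h).1 hh w' hw', Matrix.mulVec_zero]
  obtain ⟨α, hα, -, -, hα2⟩ := h1e g A Kf hrat (h3 g A Kf hrat hst)
  have hst2 : ∀ a ∈ K.S, ∀ h ∈ Kf, K.Z a *ᵥ h ∈ Kf := by
    intro a ha h hh
    rw [hα2] at hh ⊢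
    have h5 := Z_end K hq α hα a ha
    rw [Matrix.mulVec_mulVec, ← h5, ← Matrix.mulVec_mulVec, hh]
  -- suppose `W` is not zero
  by_contra hW
  obtain ⟨w, hw, hw0⟩ := Submodule.exists_mem_ne_zero_of_ne_bot hW
  obtain ⟨hdim, htop, -, hnd, hxy, -⟩ := h5l g A n m K hm
  -- an eigenspace not orthogonal to `w`
  obtain ⟨z, hz, y, hy, hyw⟩ : ∃ z : ℂ, Polynomial.aeval z K.P = 0 ∧ ∃ y ∈ K.Tl z, K.bil y w ≠ 0 := by
    by_contra h
    push Not at h
    apply hw0
    refine bil_nondeg K w fun v => ?_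
    let D : Submodule ℂ (Fin n → ℂ) :=
      { carrier := {v | K.bil v w = 0}
        add_mem' := fun {a b} ha hb => by
          show K.bil (a + b) w = 0
          have ha' : K.bil a w = 0 := ha
          have hb' : K.bil b w = 0 := hb
          rw [bil_add_left, ha', hb', add_zero]
        zero_mem' := by
          show K.bil 0 w = 0
          simpa using bil_smul_left K 0 0 w
        smul_mem' := fun c a ha => by
          show K.bil (c • a) w = 0
          have ha' : K.bil a w = 0 := ha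
          rw [bil_smul_left, ha', mul_zero] }
    have hle : (⨆ z ∈ {z : ℂ | Polynomial.aeval z K.P = 0}, K.Tl z) ≤ D :=
      iSup₂_le fun z hz v hv => h z hz v hv
    have hv : K.bil v w = 0 := hle (htop v)
    rw [bil_comm]
    exact hv
  obtain ⟨x, hx, hxw, hxx⟩ := exists_orth (K := K) (K.Tl z) (by rw [hdim z hz]; exact hm) (hnd z) w y hy hyw
  obtain ⟨a, haS, ha⟩ := hxy z x hx y hy
  have hbot : ∀ h ∈ Kf, h = 0 := by
    intro h hh
    have e1 := (hKf _).1 (hst2 a haS h hh) w hw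
    have e2 := (hKf _).1 hh w hw
    have e3 := lift K a (S_skew K a haS) w
    rw [ha w, hxw, zero_smul, sub_zero, cl_smul] at e3
    have e4 : K.cl w * K.Z a = K.Z a * K.cl w - K.bil y w • K.cl x := by
      rw [← e3]
      abel
    rw [Matrix.mulVec_mulVec, e4, Matrix.sub_mulVec, ← Matrix.mulVec_mulVec, e2, Matrix.mulVec_zero,
      zero_sub, Matrix.smul_mulVec, neg_eq_zero] at e1
    have e5 : K.cl x *ᵥ h = 0 := (smul_eq_zero.1 e1).resolve_left hyw
    have e6 : (K.cl x * K.cl x) *ᵥ h = 0 := by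
      rw [← Matrix.mulVec_mulVec, e5, Matrix.mulVec_zero]
    rw [sq hr', Matrix.smul_mulVec, Matrix.one_mulVec] at e6
    exact (smul_eq_zero.1 e6).resolve_left hxx
  obtain ⟨s, hs⟩ := (IsNoetherian.noetherian W : W.FG)
  have hsW : ∀ v ∈ s, v ∈ W := fun v hv => by
    rw [← hs]; exact Submodule.subset_span hv
  obtain ⟨h, h0, h1⟩ := exists_ker hg hr' s fun v hv w hw => hiso v (hsW v hv) w (hsW w hw)
  apply h0
  apply hbot
  rw [hKf]
  intro w hw
  rw [← hs] at hw
  induction hw using Submodule.span_induction with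
  | mem x hx => exact h1 x hx
  | zero => rw [cl_zero, Matrix.zero_mulVec]
  | add x y _ _ hx hy => rw [cl_add, Matrix.add_mulVec, hx, hy, add_zero]
  | smul c x _ hx => rw [cl_smul, Matrix.smul_mulVec, hx, smul_zero]

/-- A nondegenerate rational `Gam`-stable subspace is trivial. -/
theorem nondeg (hq : DRB.Stmt_DescQ) (h2d : Stmt_E2d) (hfin : DRB.Stmt_Fin) (h5l : Stmt_E5l)
    (hm : 3 ≤ m) (K : KSE A n m) (W : Submodule ℂ (Fin n → ℂ))
    (haut : ∀ (σ : ℂ ≃ₐ[ℚ] ℂ), ∀ v ∈ W, (fun i => σ (v i)) ∈ W)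
    (hgam : ∀ p ∈ Gam A, ∀ v ∈ W, ∃ w ∈ W, p.1.val * K.cl v * (p.1⁻¹).val = K.cl w)
    (hnd : ∀ v ∈ W, (∀ w ∈ W, K.bil v w = 0) → v = 0) : W = ⊥ ∨ W = ⊤ := by
  classical
  have hr' : Rel K := rel K
  have hg := K.pos
  obtain ⟨l, e, ρ, hV⟩ := exists_Vol K W hnd
  have he := hV.he
  have hW1 := hV.mem
  have hW2 := hV.perp
  have hdec := hV.dec
  have hρ' := hV.sq
  have hρ0 := hV.hρ
  -- conjugation on `T`
  have hT : ∀ p ∈ Gam A, ∀ v, ∃ v', p.1.val * K.cl v * (p.1⁻¹).val = K.cl v' := fun p hp v =>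
    (mem_TC K).1 ((h2d g A n m K).1 p hp _ ((mem_TC K).2 ⟨v, rfl⟩))
  have hperp : ∀ p ∈ Gam A, ∀ v, (∀ w ∈ W, K.bil v w = 0) →
      ∃ v', (∀ w ∈ W, K.bil v' w = 0) ∧ p.1.val * K.cl v * (p.1⁻¹).val = K.cl v' := by
    intro p hp v hv
    obtain ⟨v', hv'⟩ := hT p hp v
    refine ⟨v', fun w hw => ?_, hv'⟩
    obtain ⟨w₁, hw₁, hw₂⟩ := hgam p⁻¹ (inv_mem hp) w hw
    have h1 : p.1.val * K.cl w₁ * (p.1⁻¹).val = K.cl w := by
      rw [← hw₂]
      have e1 : (p⁻¹).1 = p.1⁻¹ := rfl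
      rw [e1, inv_inv]
      have : p.1.val * ((p.1⁻¹).val * K.cl w * p.1.val) * (p.1⁻¹).val =
        (p.1.val * (p.1⁻¹).val) * K.cl w * (p.1.val * (p.1⁻¹).val) := by noncomm_ring
      rw [this, mul_inv_self, Matrix.one_mul, Matrix.mul_one]
    rw [bil_conj hg hr' p.1 hv' h1]
    exact hv w₁ hw₁
  set R := pr K l with hR
  -- the conjugates of `R`
  have hconjW : ∀ p ∈ Gam A, ∀ w ∈ W, (p.1.val * R * (p.1⁻¹).val) * K.cl w =
      e • (K.cl w * (p.1.val * R * (p.1⁻¹).val)) := by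
    intro p hp w hw
    obtain ⟨w₁, hw₁, hw₂⟩ := hgam p⁻¹ (inv_mem hp) w hw
    have h1 : p.1.val * K.cl w₁ * (p.1⁻¹).val = K.cl w := by
      rw [← hw₂]
      have e1 : (p⁻¹).1 = p.1⁻¹ := rfl
      rw [e1, inv_inv]
      have : p.1.val * ((p.1⁻¹).val * K.cl w * p.1.val) * (p.1⁻¹).val =
        (p.1.val * (p.1⁻¹).val) * K.cl w * (p.1.val * (p.1⁻¹).val) := by noncomm_ring
      rw [this, mul_inv_self, Matrix.one_mul, Matrix.mul_one]
    rw [← h1, ← conj_mul, ← conj_mul, hW1 w₁ hw₁, Matrix.mul_smul, Matrix.smul_mul]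
  have hconjP : ∀ p ∈ Gam A, ∀ w, (∀ v ∈ W, K.bil w v = 0) →
      (p.1.val * R * (p.1⁻¹).val) * K.cl w =
      (-e) • (K.cl w * (p.1.val * R * (p.1⁻¹).val)) := by
    intro p hp w hw
    obtain ⟨w₁, hw₁, hw₂⟩ := hperp p⁻¹ (inv_mem hp) w hw
    have h1 : p.1.val * K.cl w₁ * (p.1⁻¹).val = K.cl w := by
      rw [← hw₂]
      have e1 : (p⁻¹).1 = p.1⁻¹ := rfl
      rw [e1, inv_inv]
      have : p.1.val * ((p.1⁻¹).val * K.cl w * p.1.val) * (p.1⁻¹).val =
        (p.1.val * (p.1⁻¹).val) * K.cl w * (p.1.val * (p.1⁻¹).val) := by noncomm_ring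
      rw [this, mul_inv_self, Matrix.one_mul, Matrix.mul_one]
    rw [← h1, ← conj_mul, ← conj_mul, hW2 w₁ hw₁, Matrix.mul_smul, Matrix.smul_mul]
  -- products `R * R'`
  have hscal : ∀ p ∈ Gam A, ∃ c : ℂ, R * (p.1.val * R * (p.1⁻¹).val) = c • 1 := by
    intro p hp
    apply even_scalar K
    · obtain ⟨l', hl', hl2⟩ := pr_conj p.1 (hT p hp) l
      rw [hR, hl2, ← pr_append]
      exact pr_mem_Pw K (l ++ l') 0 (by rw [List.length_append, hl']; exact ⟨l.length, by ring⟩)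
    · intro v
      obtain ⟨a, ha, u, hu, rfl⟩ := hdec v
      have h1 : R * (p.1.val * R * (p.1⁻¹).val) * K.cl a =
          K.cl a * (R * (p.1.val * R * (p.1⁻¹).val)) := by
        rw [Matrix.mul_assoc, hconjW p hp a ha, Matrix.mul_smul, ← Matrix.mul_assoc, hW1 a ha,
          Matrix.smul_mul, smul_smul, he, one_smul, Matrix.mul_assoc]
      have h2 : R * (p.1.val * R * (p.1⁻¹).val) * K.cl u =
          K.cl u * (R * (p.1.val * R * (p.1⁻¹).val)) := by
        rw [Matrix.mul_assoc, hconjP p hp u hu, Matrix.mul_smul, ← Matrix.mul_assoc, hW2 u hu,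
          Matrix.smul_mul, smul_smul, neg_mul_neg, he, one_smul, Matrix.mul_assoc]
      rw [cl_add, Matrix.mul_add, h1, h2, Matrix.add_mul]
  have horb : ∀ p ∈ Gam A, p.1.val * R * (p.1⁻¹).val = R ∨ p.1.val * R * (p.1⁻¹).val = -R := by
    intro p hp
    obtain ⟨c, hc⟩ := hscal p hp
    have h1 : ρ • (p.1.val * R * (p.1⁻¹).val) = c • R := by
      have : R * (R * (p.1.val * R * (p.1⁻¹).val)) = c • R := by
        rw [hc, Matrix.mul_smul, Matrix.mul_one]
      rw [← Matrix.mul_assoc, hρ', Matrix.smul_mul, Matrix.one_mul] at this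
      exact this
    have h2 : p.1.val * R * (p.1⁻¹).val = (ρ⁻¹ * c) • R := by
      rw [← smul_smul, ← h1, smul_smul, inv_mul_cancel₀ hρ0, one_smul]
    have h3 : (p.1.val * R * (p.1⁻¹).val) * (p.1.val * R * (p.1⁻¹).val) = ρ • 1 := by
      rw [← conj_mul, hρ', Matrix.mul_smul, Matrix.smul_mul, Matrix.mul_one, mul_inv_self]
    rw [h2, Matrix.smul_mul, Matrix.mul_smul, smul_smul, hρ', smul_smul] at h3
    have h4 : ((ρ⁻¹ * c) * (ρ⁻¹ * c) * ρ - ρ) • (1 : Matrix (Idx g) (Idx g) ℂ) = 0 := by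
      rw [sub_smul, h3, sub_self]
    have h5 : (ρ⁻¹ * c) * (ρ⁻¹ * c) * ρ - ρ = 0 := (smul_eq_zero.1 h4).resolve_right (one_ne hg)
    have h6 : ρ * ((ρ⁻¹ * c - 1) * (ρ⁻¹ * c + 1)) = 0 := by linear_combination h5
    rcases mul_eq_zero.1 ((mul_eq_zero.1 h6).resolve_left hρ0) with h7 | h7
    · left; rw [h2, sub_eq_zero.1 h7, one_smul]
    · right; rw [h2, eq_neg_of_add_eq_zero_left h7, neg_smul, one_smul]
  have hRend := hfin g A R (by
    refine Set.Finite.subset (Set.toFinite {R, -R}) ?_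
    rintro Y ⟨p, hp, rfl⟩
    rcases horb p hp with h | h
    · rw [h]; exact Set.mem_insert _ _
    · rw [h]; exact Set.mem_insert_of_mem _ rfl)
  obtain ⟨-, -, -, -, -, -, -, hlast⟩ := h5l g A n m K hm
  exact hlast W haut fun a ha v hv => hV.S_stab hq hRend a ha v hv

end

end E5X

theorem E5b_proof (hq : DRB.Stmt_DescQ) (h3 : DRB.Stmt_Gb3) (h1e : DRB.Stmt_T1e)
    (hfin : DRB.Stmt_Fin) (h2d : Stmt_E2d) (h5l : Stmt_E5l) : Stmt_E5b := by
  intro g A n m K hm W haut hgam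
  -- the radical
  let W₀ : Submodule ℂ (Fin n → ℂ) :=
    { carrier := {v | v ∈ W ∧ ∀ w ∈ W, K.bil v w = 0}
      add_mem' := fun {a b} ha hb => ⟨W.add_mem ha.1 hb.1, fun w hw => by
        rw [E5X.bil_add_left, ha.2 w hw, hb.2 w hw, add_zero]⟩
      zero_mem' := ⟨W.zero_mem, fun w _ => by
        simpa using E5X.bil_smul_left K 0 0 w⟩
      smul_mem' := fun c a ha => ⟨W.smul_mem c ha.1, fun w hw => by
        rw [E5X.bil_smul_left, ha.2 w hw, mul_zero]⟩ }
  have hW₀ : ∀ v, v ∈ W₀ ↔ v ∈ W ∧ ∀ w ∈ W, K.bil v w = 0 := fun v => Iff.rfl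
  have h0 : W₀ = ⊥ := by
    refine E5X.isotropic hq h3 h1e h5l hm K W₀ ?_ ?_ ?_
    · intro σ v hv
      rw [hW₀] at hv ⊢
      refine ⟨haut σ v hv.1, fun w hw => ?_⟩
      have h1 := hv.2 _ (haut σ.symm w hw)
      have h2 := E5X.bil_map K σ v (fun i => σ.symm (w i))
      rw [h1, map_zero] at h2
      simpa using h2
    · intro p hp v hv
      obtain ⟨v', hv', hv2⟩ := hgam p hp v hv.1
      refine ⟨v', ⟨hv', fun w hw => ?_⟩, hv2⟩
      obtain ⟨w₁, hw₁, hw₂⟩ := hgam p⁻¹ (inv_mem hp) w hw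
      have h1 : p.1.val * K.cl w₁ * (p.1⁻¹).val = K.cl w := by
        rw [← hw₂]
        have e1 : (p⁻¹).1 = p.1⁻¹ := rfl
        rw [e1, inv_inv]
        have : p.1.val * ((p.1⁻¹).val * K.cl w * p.1.val) * (p.1⁻¹).val =
          (p.1.val * (p.1⁻¹).val) * K.cl w * (p.1.val * (p.1⁻¹).val) := by noncomm_ring
        rw [this, E5X.mul_inv_self, Matrix.one_mul, Matrix.mul_one]
      rw [E5X.bil_conj K.pos (E5X.rel K) p.1 hv2 h1]
      exact hv.2 w₁ hw₁
    · intro v hv w hw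
      exact hv.2 w hw.1
  refine E5X.nondeg hq h2d hfin h5l hm K W haut hgam fun v hv hv2 => ?_
  have : v ∈ W₀ := ⟨hv, hv2⟩
  rw [h0] at this
  exact (Submodule.mem_bot ℂ).1 this

end Pool.Agent.K3E
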