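import Pool.Agent.K3D.K5d
import Pool.Agent.K3E.E5a

/-!
# E5d: a subspace stable under the Lie algebra is stable under `so_E(T)`
-/

open scoped BigOperators
open Matrix

namespace Pool.Agent.K3E

open Pool.Agent.DRB Pool.Agent.K3D E5A

noncomputable section

namespace E5dX

variable {g n m : ℕ} {A : AbVar g} (K : KSE A n m)

theorem mem_TC (Y : Matrix (Idx g) (Idx g) ℂ) : Y ∈ K.TC ↔ ∃ w, Y = K.cl w := by
  constructor
  · intro hY
    unfold KSE.TC at hY
    refine Submodule.span_induction (p := fun Y _ => ∃ w, Y = K.cl w) ?_ ?_ ?_ ?_ hY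
    · rintro _ ⟨j, rfl⟩
      exact ⟨Pi.single j 1, (cl_single K j).symm⟩
    · exact ⟨0, (cl_zero K).symm⟩
    · rintro _ _ _ _ ⟨v, rfl⟩ ⟨w, rfl⟩
      exact ⟨v + w, (cl_add K v w).symm⟩
    · rintro c _ _ ⟨v, rfl⟩
      exact ⟨c • v, (cl_smul K c v).symm⟩
  · rintro ⟨w, rfl⟩
    unfold KSE.cl KSE.TC
    exact Submodule.sum_mem _ fun j _ => Submodule.smul_mem _ _ (Submodule.subset_span ⟨j, rfl⟩)

/-- stable subspaces -/
def St (W : Submodule ℂ (Fin n → ℂ)) : Prop :=
  ∀ X ξ, InLie (Gam A) X ξ → ∀ v ∈ W, ∃ w ∈ W, X * K.cl v - K.cl v * X = K.cl w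

theorem cl_sub (v w : Fin n → ℂ) : K.cl (v - w) = K.cl v - K.cl w := by
  rw [sub_eq_add_neg, cl_add, ← neg_one_smul ℂ w, cl_smul, neg_one_smul, ← sub_eq_add_neg]

theorem cl_inj (hK5a : Stmt_E5a) {v w : Fin n → ℂ} (h : K.cl v = K.cl w) : v = w := by
  have h1 := (hK5a g A n m K).2.1 (v - w) (by rw [cl_sub, h, sub_self])
  exact sub_eq_zero.1 h1

theorem st_sup {W W' : Submodule ℂ (Fin n → ℂ)} (h : St K W) (h' : St K W') : St K (W ⊔ W') := by
  intro X ξ hX v hv
  obtain ⟨a, ha, b, hb, rfl⟩ := Submodule.mem_sup.1 hv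
  obtain ⟨w, hw, h1⟩ := h X ξ hX a ha
  obtain ⟨w', hw', h2⟩ := h' X ξ hX b hb
  refine ⟨w + w', Submodule.add_mem_sup hw hw', ?_⟩
  rw [cl_add, cl_add, mul_add, add_mul, ← h1, ← h2]
  abel

theorem st_inf (hK5a : Stmt_E5a) {W W' : Submodule ℂ (Fin n → ℂ)} (h : St K W) (h' : St K W') :
    St K (W ⊓ W') := by
  intro X ξ hX v hv
  obtain ⟨w, hw, h1⟩ := h X ξ hX v hv.1
  obtain ⟨w', hw', h2⟩ := h' X ξ hX v hv.2
  have h3 : w = w' := cl_inj K hK5a (by rw [← h1, ← h2])
  exact ⟨w, ⟨hw, h3 ▸ hw'⟩, h1⟩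

theorem st_bot : St K ⊥ := by
  intro X ξ _ v hv
  rw [Submodule.mem_bot] at hv
  refine ⟨0, Submodule.zero_mem _, ?_⟩
  rw [hv, cl_zero, mul_zero, zero_mul, sub_zero]

theorem st_top (hK2d : Stmt_E2d) : St K ⊤ := by
  intro X ξ hX v _
  obtain ⟨w, hw⟩ := (mem_TC K _).1 ((hK2d g A n m K).2 X ξ hX (K.cl v) ((mem_TC K _).2 ⟨v, rfl⟩))
  exact ⟨w, Submodule.mem_top, hw⟩

/-- automorphisms of `ℂ` -/
theorem cl_map (σ : ℂ ≃ₐ[ℚ] ℂ) (v : Fin n → ℂ) : (K.cl v).map σ = K.cl (K2X.sv σ v) := by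
  ext a b
  unfold KSE.cl
  rw [Matrix.map_apply, Matrix.sum_apply, Matrix.sum_apply, map_sum]
  refine Finset.sum_congr rfl fun i _ => ?_
  simp [Matrix.smul_apply, K2X.sv, AbVar.toC]

theorem st_sv (hG4 : Stmt_Gb4) (hK2b : Stmt_K2b) (σ : ℂ ≃ₐ[ℚ] ℂ) {W : Submodule ℂ (Fin n → ℂ)}
    (h : St K W) : St K (K2X.Dsv σ W) := by
  intro X ξ hX v hv
  have h1 : InLie (Gam A) (X.map σ) (σ ξ) :=
    hK2b (Idx g) (Gam A) (fun σ p hp q h1 h2 => hG4 g A σ p hp q h1 h2) σ X ξ hX
  obtain ⟨w, hw, h2⟩ := h _ _ h1 _ hv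
  refine ⟨K2X.sv σ.symm w, ?_, ?_⟩
  · rw [K2X.mem_Dsv]
    have : K2X.sv σ (K2X.sv σ.symm w) = w := by
      funext k; simp [K2X.sv]
    rw [this]
    exact hw
  · have h3 := congrArg (fun M : Matrix (Idx g) (Idx g) ℂ => M.map σ.symm) h2
    rw [← cl_map] at h3
    have e : ∀ M : Matrix (Idx g) (Idx g) ℂ, (M.map σ).map σ.symm = M := by
      intro M
      ext a b
      simp
    have h4 : (X.map σ * (K.cl v).map σ - (K.cl v).map σ * X.map σ).map σ.symm =
        X * K.cl v - K.cl v * X := by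
      rw [← FinX.map_mul', ← FinX.map_mul']
      have : ((X * K.cl v).map σ - (K.cl v * X).map σ) = (X * K.cl v - K.cl v * X).map σ := by
        ext a b
        show σ _ - σ _ = σ (_ - _)
        rw [map_sub]
      rw [this, e]
    rw [← cl_map]
    rw [← h4]
    exact h3

/-- conjugation by the group -/
theorem exists_conj (hK5a : Stmt_E5a) (hK2d : Stmt_E2d) (p : GL (Idx g) ℂ × ℂˣ) (hp : p ∈ Gam A) :
    ∃ b : (Fin n → ℂ) →ₗ[ℂ] (Fin n → ℂ), ∀ v, p.1.val * K.cl v * (p.1⁻¹).val = K.cl (b v) := by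
  have h1 : ∀ v, ∃ w, p.1.val * K.cl v * (p.1⁻¹).val = K.cl w := fun v =>
    (mem_TC K _).1 ((hK2d g A n m K).1 p hp (K.cl v) ((mem_TC K _).2 ⟨v, rfl⟩))
  choose b hb using h1
  refine ⟨{ toFun := b, map_add' := ?_, map_smul' := ?_ }, hb⟩
  · intro v w
    apply cl_inj K hK5a
    rw [← hb, cl_add, cl_add, ← hb, ← hb, mul_add, add_mul]
  · intro c v
    apply cl_inj K hK5a
    rw [← hb, RingHom.id_apply, cl_smul, cl_smul, ← hb, Matrix.mul_smul, Matrix.smul_mul]

theorem st_comap (hK2a : Stmt_K2a) (p : GL (Idx g) ℂ × ℂˣ) (hp : p ∈ Gam A)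
    (b b' : (Fin n → ℂ) →ₗ[ℂ] (Fin n → ℂ))
    (hb : ∀ v, p.1.val * K.cl v * (p.1⁻¹).val = K.cl (b v))
    (hb' : ∀ v, (p.1⁻¹).val * K.cl v * p.1.val = K.cl (b' v))
    (hbb : ∀ v, b (b' v) = v)
    {W : Submodule ℂ (Fin n → ℂ)} (h : St K W) : St K (W.comap b) := by
  intro X ξ hX v hv
  have h1 := (hK2a (Idx g) (Gam A)).2.2.2 X ξ hX p hp
  obtain ⟨w, hw, h2⟩ := h _ _ h1 (b v) hv
  refine ⟨b' w, ?_, ?_⟩
  · rw [Submodule.mem_comap, hbb]
    exact hw
  · have e1 : p.1.val * (p.1⁻¹).val = 1 := by rw [← Units.val_mul]; simp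
    have e2 : (p.1⁻¹).val * p.1.val = 1 := by rw [← Units.val_mul]; simp
    rw [← hb', ← h2, ← hb]
    have h3 : (p.1⁻¹).val * (p.1.val * X * (p.1⁻¹).val * (p.1.val * K.cl v * (p.1⁻¹).val) -
        p.1.val * K.cl v * (p.1⁻¹).val * (p.1.val * X * (p.1⁻¹).val)) * p.1.val =
        ((p.1⁻¹).val * p.1.val) * X * ((p.1⁻¹).val * p.1.val) * K.cl v * ((p.1⁻¹).val * p.1.val) -
        ((p.1⁻¹).val * p.1.val) * K.cl v * ((p.1⁻¹).val * p.1.val) * X * ((p.1⁻¹).val * p.1.val) := by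
      simp only [mul_sub, sub_mul, mul_assoc]
    rw [h3, e2]
    simp only [one_mul, mul_one]

include K in
theorem n_pos (hn : 3 ≤ m) : 0 < n := by
  rw [K.dim]
  exact Nat.mul_pos (by omega) K.irr.natDegree_pos

/-- the socle is everything -/
theorem soc_top (hn : 3 ≤ m) (hG4 : Stmt_Gb4) (hK2a : Stmt_K2a) (hK2b : Stmt_K2b) (hK2d : Stmt_E2d)
    (hK5a : Stmt_E5a) (hK5b : Stmt_E5b) : K5dX.soc (St K) = ⊤ := by
  have hnp : 0 < n := n_pos K hn
  have hne : K5dX.soc (St K) ≠ ⊥ := by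
    have h0 : (⊤ : Submodule ℂ (Fin n → ℂ)) ≠ ⊥ := by
      intro h
      have h1 : (Pi.single ⟨0, by omega⟩ 1 : Fin n → ℂ) ∈ (⊥ : Submodule ℂ (Fin n → ℂ)) := by
        rw [← h]; exact Submodule.mem_top
      rw [Submodule.mem_bot] at h1
      have := congrFun h1 ⟨0, by omega⟩
      simp at this
    obtain ⟨M, hM, -⟩ := K5dX.exists_min (St K) ⊤ (st_top K hK2d) h0
    intro h
    apply hM.2.1
    apply le_bot_iff.1
    rw [← h]
    exact le_sSup hM
  refine (hK5b g A n m K hn (K5dX.soc (St K)) ?_ ?_).resolve_left hne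
  · intro σ v hv
    have hmono : ∀ σ : ℂ ≃ₐ[ℚ] ℂ, Monotone (K2X.Dsv (κ := Fin n) σ) := by
      intro σ W W' hWW u hu
      exact hWW hu
    have e1 : ∀ (σ : ℂ ≃ₐ[ℚ] ℂ) (W : Submodule ℂ (Fin n → ℂ)),
        K2X.Dsv σ (K2X.Dsv σ.symm W) = W := by
      intro σ W
      ext u
      rw [K2X.mem_Dsv, K2X.mem_Dsv]
      have : K2X.sv σ.symm (K2X.sv σ u) = u := by
        funext k; simp [K2X.sv]
      rw [this]
    have e2 : ∀ (σ : ℂ ≃ₐ[ℚ] ℂ) (W : Submodule ℂ (Fin n → ℂ)),
        K2X.Dsv σ.symm (K2X.Dsv σ W) = W := by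
      intro σ W
      ext u
      rw [K2X.mem_Dsv, K2X.mem_Dsv]
      have : K2X.sv σ (K2X.sv σ.symm u) = u := by
        funext k; simp [K2X.sv]
      rw [this]
    have h1 := K5dX.soc_le (St K) (K2X.Dsv σ) (K2X.Dsv σ.symm) (hmono σ) (hmono σ.symm) (e1 σ) (e2 σ)
      (fun W hW => st_sv K hG4 hK2b σ hW) (fun W hW => st_sv K hG4 hK2b σ.symm hW)
    exact h1 hv
  · intro p hp v hv
    obtain ⟨b, hb⟩ := exists_conj K hK5a hK2d p hp
    obtain ⟨b', hb'0⟩ := exists_conj K hK5a hK2d p⁻¹ (inv_mem hp)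
    have hb' : ∀ v, (p.1⁻¹).val * K.cl v * p.1.val = K.cl (b' v) := by
      intro v
      have h1 := hb'0 v
      have e3 : ((p⁻¹).1⁻¹).val = p.1.val := by
        show ((p.1⁻¹)⁻¹).val = _
        rw [inv_inv]
      have e4 : (p⁻¹).1.val = (p.1⁻¹).val := rfl
      rwa [e3, e4] at h1
    have e1 : p.1.val * (p.1⁻¹).val = 1 := by rw [← Units.val_mul]; simp
    have e2 : (p.1⁻¹).val * p.1.val = 1 := by rw [← Units.val_mul]; simp
    have hbb : ∀ v, b (b' v) = v := by
      intro v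
      apply cl_inj K hK5a
      rw [← hb, ← hb']
      calc _ = (p.1.val * (p.1⁻¹).val) * K.cl v * (p.1.val * (p.1⁻¹).val) := by simp only [mul_assoc]
        _ = _ := by rw [e1, one_mul, mul_one]
    have hbb' : ∀ v, b' (b v) = v := by
      intro v
      apply cl_inj K hK5a
      rw [← hb', ← hb]
      calc _ = ((p.1⁻¹).val * p.1.val) * K.cl v * ((p.1⁻¹).val * p.1.val) := by simp only [mul_assoc]
        _ = _ := by rw [e2, one_mul, mul_one]
    have h1 := K5dX.soc_le (St K) (fun W => W.comap b) (fun W => W.comap b')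
      (fun W W' h => Submodule.comap_mono h) (fun W W' h => Submodule.comap_mono h)
      (fun W => by
        ext u
        rw [Submodule.mem_comap, Submodule.mem_comap, hbb'])
      (fun W => by
        ext u
        rw [Submodule.mem_comap, Submodule.mem_comap, hbb])
      (fun W hW => st_comap K hK2a p hp b b' hb hb' hbb hW)
      (fun W hW => st_comap K hK2a p⁻¹ (inv_mem hp) b' b (by
          intro v
          have e3 : ((p⁻¹).1⁻¹).val = p.1.val := by
            show ((p.1⁻¹)⁻¹).val = _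
            rw [inv_inv]
          have e4 : (p⁻¹).1.val = (p.1⁻¹).val := rfl
          rw [e3, e4]
          exact hb' v) (by
          intro v
          have e3 : ((p⁻¹).1⁻¹).val = p.1.val := by
            show ((p.1⁻¹)⁻¹).val = _
            rw [inv_inv]
          have e4 : (p⁻¹).1.val = (p.1⁻¹).val := rfl
          rw [e3, e4]
          exact hb v) hbb' hW)
    exact ⟨b v, h1 hv, hb v⟩

/-! ### Bilinear form -/

theorem bil_single (i : Fin n) (v : Fin n → ℂ) : K.bil (Pi.single i 1) v = (K.q i : ℂ) * v i := by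
  unfold KSE.bil
  rw [Finset.sum_eq_single i]
  · simp
  · intro j _ hj
    rw [Pi.single_eq_of_ne hj]; ring
  · intro h; exact absurd (Finset.mem_univ i) h

theorem bil_comm (v w : Fin n → ℂ) : K.bil v w = K.bil w v := by
  unfold KSE.bil
  exact Finset.sum_congr rfl fun i _ => by ring

theorem bil_add (v w u : Fin n → ℂ) : K.bil (v + w) u = K.bil v u + K.bil w u := by
  unfold KSE.bil
  rw [← Finset.sum_add_distrib]
  exact Finset.sum_congr rfl fun i _ => by rw [Pi.add_apply]; ring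

theorem bil_sub (v w u : Fin n → ℂ) : K.bil (v - w) u = K.bil v u - K.bil w u := by
  unfold KSE.bil
  rw [← Finset.sum_sub_distrib]
  exact Finset.sum_congr rfl fun i _ => by rw [Pi.sub_apply]; ring

theorem bil_sub_right (v w u : Fin n → ℂ) : K.bil u (v - w) = K.bil u v - K.bil u w := by
  rw [bil_comm, bil_sub, bil_comm K v, bil_comm K w]

theorem bil_add_right (v w u : Fin n → ℂ) : K.bil u (v + w) = K.bil u v + K.bil u w := by
  rw [bil_comm, bil_add, bil_comm K v, bil_comm K w]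

theorem q_ne (i : Fin n) : (K.q i : ℂ) ≠ 0 := by
  exact_mod_cast K.q_ne i

theorem bil_nondeg (v : Fin n → ℂ) (h : ∀ w, K.bil v w = 0) : v = 0 := by
  funext i
  have h1 := h (Pi.single i 1)
  rw [bil_comm, bil_single] at h1
  exact (mul_eq_zero.1 h1).resolve_left (q_ne K i)

/-- the adjoint of a matrix -/
def adj (P : Matrix (Fin n) (Fin n) ℂ) : Matrix (Fin n) (Fin n) ℂ :=
  Matrix.diagonal (fun i => (K.q i : ℂ)⁻¹) * Pᵀ * Matrix.diagonal (fun i => (K.q i : ℂ))

theorem bil_eq (v w : Fin n → ℂ) : K.bil v w = v ⬝ᵥ (Matrix.diagonal (fun i => (K.q i : ℂ)) *ᵥ w) := by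
  unfold KSE.bil dotProduct
  refine Finset.sum_congr rfl fun i _ => ?_
  rw [Matrix.mulVec_diagonal]
  ring

theorem bil_adj (P : Matrix (Fin n) (Fin n) ℂ) (v w : Fin n → ℂ) :
    K.bil (P *ᵥ v) w = K.bil v (adj K P *ᵥ w) := by
  rw [bil_eq, bil_eq]
  unfold adj
  have h1 : Matrix.diagonal (fun i => (K.q i : ℂ)) * Matrix.diagonal (fun i => (K.q i : ℂ)⁻¹) = 1 := by
    rw [Matrix.diagonal_mul_diagonal]
    have : (fun i => (K.q i : ℂ) * (K.q i : ℂ)⁻¹) = fun _ => 1 := by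
      funext i
      exact mul_inv_cancel₀ (q_ne K i)
    rw [this, Matrix.diagonal_one]
  rw [Matrix.mulVec_mulVec, ← mul_assoc, ← mul_assoc, h1, one_mul, ← Matrix.mulVec_mulVec,
    ← Matrix.vecMul_transpose, Matrix.dotProduct_mulVec, Matrix.dotProduct_mulVec, Matrix.dotProduct_mulVec]

/-- a skew endomorphism commuting with `so_E(T)` vanishes -/
theorem skew_zero (hn : 3 ≤ m) (h5l : Stmt_E5l) (a : Matrix (Fin n) (Fin n) ℂ)
    (hskew : ∀ v w, K.bil (a *ᵥ v) w + K.bil v (a *ᵥ w) = 0) (hcomm : ∀ s ∈ K.S, ∀ v, a *ᵥ (s *ᵥ v) = s *ᵥ (a *ᵥ v)) :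
    ∀ v, a *ᵥ v = 0 := by
  obtain ⟨hfin, hsup, -, hnd, hwd, hpres, hirr, -⟩ := h5l g A n m K hn
  -- it suffices to consider the eigenspaces
  suffices h : ∀ z : ℂ, Polynomial.aeval z K.P = 0 → ∀ v ∈ K.Tl z, a *ᵥ v = 0 by
    intro v
    have h1 : (⨆ z ∈ {z : ℂ | Polynomial.aeval z K.P = 0}, K.Tl z) ≤ LinearMap.ker (Matrix.mulVecLin a) := by
      refine iSup₂_le fun z hz => ?_
      intro u hu
      rw [LinearMap.mem_ker, Matrix.mulVecLin_apply]
      exact h z hz u hu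
    have h2 := h1 (hsup v)
    rwa [LinearMap.mem_ker, Matrix.mulVecLin_apply] at h2
  intro z hz
  have hd := hfin z hz
  -- a preserves the eigenspace
  have hpr : ∀ x ∈ K.Tl z, a *ᵥ x ∈ K.Tl z := by
    intro x hx
    -- a vector orthogonal to x
    obtain ⟨v, hv, hv0, hxv⟩ : ∃ v ∈ K.Tl z, v ≠ 0 ∧ K.bil x v = 0 := by
      by_contra hcon
      push Not at hcon
      let f : K.Tl z →ₗ[ℂ] ℂ :=
        { toFun := fun v => K.bil x v.1
          map_add' := fun v w => by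
            show K.bil x (v.1 + w.1) = _
            rw [bil_add_right]
          map_smul' := fun c v => by
            show K.bil x (c • v.1) = c • K.bil x v.1
            unfold KSE.bil
            rw [smul_eq_mul, Finset.mul_sum]
            refine Finset.sum_congr rfl fun i _ => ?_
            rw [Pi.smul_apply, smul_eq_mul]
            ring }
      have hf : Function.Injective f := by
        rw [← LinearMap.ker_eq_bot, eq_bot_iff]
        intro v hv
        rw [LinearMap.mem_ker] at hv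
        rw [Submodule.mem_bot]
        by_contra h0
        exact hcon v.1 v.2 (fun h => h0 (Subtype.ext h)) hv
      have := LinearMap.finrank_le_finrank_of_injective hf
      rw [hd, Module.finrank_self] at this
      omega
    obtain ⟨y, hy, hyv⟩ : ∃ y ∈ K.Tl z, K.bil y v = 1 := by
      by_contra hcon
      push Not at hcon
      apply hv0
      refine hnd z v hv fun w hw => ?_
      by_contra h0
      apply hcon ((K.bil v w)⁻¹ • w) (Submodule.smul_mem _ _ hw)
      have : K.bil ((K.bil v w)⁻¹ • w) v = (K.bil v w)⁻¹ * K.bil w v := by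
        unfold KSE.bil
        rw [Finset.mul_sum]
        refine Finset.sum_congr rfl fun i _ => ?_
        rw [Pi.smul_apply, smul_eq_mul]
        ring
      rw [this, bil_comm K w v, inv_mul_cancel₀ h0]
    obtain ⟨s, hs, hsv⟩ := hwd z x hx y hy
    have h1 : s *ᵥ v = x := by
      rw [hsv, hyv, hxv, one_smul, zero_smul, sub_zero]
    rw [← h1, hcomm s hs, hsv]
    exact Submodule.sub_mem _ (Submodule.smul_mem _ _ hx) (Submodule.smul_mem _ _ hy)
  -- an eigenvector
  let f : Module.End ℂ (K.Tl z) :=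
    { toFun := fun v => ⟨a *ᵥ v.1, hpr v.1 v.2⟩
      map_add' := fun v w => Subtype.ext (Matrix.mulVec_add a v.1 w.1)
      map_smul' := fun c v => Subtype.ext (Matrix.mulVec_smul a c v.1) }
  have hnt : Nontrivial (K.Tl z) := by
    apply Module.nontrivial_of_finrank_pos (R := ℂ)
    omega
  obtain ⟨c, hc⟩ := Module.End.exists_eigenvalue f
  obtain ⟨v0, hv0, hv0n⟩ := hc.exists_hasEigenvector
  rw [Module.End.mem_eigenspace_iff] at hv0
  have hv0' : a *ᵥ v0.1 = c • v0.1 := congrArg Subtype.val hv0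
  let W : Submodule ℂ (Fin n → ℂ) :=
    { carrier := {v | v ∈ K.Tl z ∧ a *ᵥ v = c • v}
      add_mem' := by
        rintro x y ⟨h1, h2⟩ ⟨h3, h4⟩
        exact ⟨Submodule.add_mem _ h1 h3, by rw [Matrix.mulVec_add, h2, h4, smul_add]⟩
      zero_mem' := ⟨Submodule.zero_mem _, by rw [Matrix.mulVec_zero, smul_zero]⟩
      smul_mem' := by
        rintro d x ⟨h1, h2⟩
        exact ⟨Submodule.smul_mem _ _ h1, by rw [Matrix.mulVec_smul, h2, smul_comm]⟩ }
  have hW := hirr z W (fun v hv => hv.1) (by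
    rintro s hs v ⟨h1, h2⟩
    exact ⟨hpres s hs z v h1, by rw [hcomm s hs, h2, Matrix.mulVec_smul]⟩)
  have hWT : W = K.Tl z := by
    refine hW.resolve_left fun h => ?_
    have h1 : v0.1 ∈ W := ⟨v0.2, hv0'⟩
    rw [h, Submodule.mem_bot] at h1
    exact hv0n (Subtype.ext h1)
  have hall : ∀ v ∈ K.Tl z, a *ᵥ v = c • v := by
    intro v hv
    rw [← hWT] at hv
    exact hv.2
  have hc0 : c = 0 := by
    by_contra hc0
    apply hv0n
    apply Subtype.ext
    refine hnd z v0.1 v0.2 fun w hw => ?_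
    have h1 := hskew v0.1 w
    rw [hall _ v0.2, hall _ hw] at h1
    have e1 : K.bil (c • v0.1) w = c * K.bil v0.1 w := by
      unfold KSE.bil
      rw [Finset.mul_sum]
      refine Finset.sum_congr rfl fun i _ => ?_
      rw [Pi.smul_apply, smul_eq_mul]
      ring
    have e2 : K.bil v0.1 (c • w) = c * K.bil v0.1 w := by
      unfold KSE.bil
      rw [Finset.mul_sum]
      refine Finset.sum_congr rfl fun i _ => ?_
      rw [Pi.smul_apply, smul_eq_mul]
      ring
    rw [e1, e2] at h1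
    have h2 : (2 * c) * K.bil v0.1 w = 0 := by linear_combination h1
    exact (mul_eq_zero.1 h2).resolve_left (mul_ne_zero two_ne_zero hc0)
  intro v hv
  rw [hall v hv, hc0, zero_smul]

end E5dX

open E5dX in
theorem E5d_proof (hG4 : Stmt_Gb4) (hK2a : Stmt_K2a) (hK2b : Stmt_K2b) (hK2c : Stmt_K2c) (hK2d : Stmt_E2d)
    (hK4 : Stmt_K4) (hK5a : Stmt_E5a) (hK5b : Stmt_E5b) (hK5c : Stmt_E5c) (h5l : Stmt_E5l) : Stmt_E5d := by
  intro g A n m K hn W hW
  obtain ⟨hcl, hinj, hlift, hscal, hend, hendS⟩ := hK5a g A n m K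
  obtain ⟨M, hM, hc⟩ := K5dX.exists_compl (St K) (fun _ _ h h' => st_sup K h h')
    (fun _ _ h h' => st_inf K hK5a h h') (st_bot K) (soc_top K hn hG4 hK2a hK2b hK2d hK5a hK5b) W hW
  refine hK5c g A n m K hn W hW ?_
  -- the projection
  let Pl : (Fin n → ℂ) →ₗ[ℂ] (Fin n → ℂ) := W.subtype ∘ₗ W.projectionOnto M hc
  have hPW : ∀ v ∈ W, Pl v = v := by
    intro v hv
    show ((W.projectionOnto M hc v : W) : Fin n → ℂ) = v
    have := Submodule.projectionOnto_apply_left hc ⟨v, hv⟩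
    rw [this]
  have hPM : ∀ v ∈ M, Pl v = 0 := by
    intro v hv
    show ((W.projectionOnto M hc v : W) : Fin n → ℂ) = 0
    rw [(Submodule.projectionOnto_apply_eq_zero_iff hc).2 hv]
    rfl
  have hdec : ∀ v : Fin n → ℂ, ∃ w ∈ W, ∃ m ∈ M, v = w + m := by
    intro v
    have h1 : v ∈ W ⊔ M := by
      rw [hc.sup_eq_top]; exact Submodule.mem_top
    obtain ⟨w, hw, m, hm, h⟩ := Submodule.mem_sup.1 h1
    exact ⟨w, hw, m, hm, h.symm⟩
  set P : Matrix (Fin n) (Fin n) ℂ := LinearMap.toMatrix' Pl with hPdef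
  have hP : ∀ v, P *ᵥ v = Pl v := by
    intro v
    rw [hPdef, LinearMap.toMatrix'_mulVec]
  set S : Matrix (Fin n) (Fin n) ℂ := P - adj K P with hSdef
  have hSkew : ∀ v w, K.bil (S *ᵥ v) w + K.bil v (S *ᵥ w) = 0 := by
    intro v w
    rw [hSdef, Matrix.sub_mulVec, Matrix.sub_mulVec, bil_sub, bil_sub_right, bil_adj K P v w, E5dX.bil_comm K (adj K P *ᵥ v) w,
      ← bil_adj K P w v, E5dX.bil_comm K (P *ᵥ w) v]
    ring
  have hZa : ∀ v, K.Z S * K.cl v - K.cl v * K.Z S = K.cl (S *ᵥ v) := hlift S hSkew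
  have hZe : K.Z S ∈ EW K := by
    unfold KSE.Z
    refine Submodule.sum_mem _ fun i _ => Submodule.smul_mem _ _ ?_
    rw [cl_eq, cl_single, Finset.sum_mul]
    refine Submodule.sum_mem _ fun j _ => ?_
    rw [Matrix.smul_mul]
    refine Submodule.smul_mem _ _ (Submodule.subset_span ⟨[j, i], by simp, ?_⟩)
    rw [M_cons, M_cons, M_nil, mul_one]
  -- infinitesimal action
  have hZX : ∀ X ξ, InLie (Gam A) X ξ → X * K.Z S = K.Z S * X := by
    intro X ξ hX
    have hact : ∀ v, ∃ w, X * K.cl v - K.cl v * X = K.cl w := fun v => by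
      obtain ⟨w, -, h⟩ := st_top K hK2d X ξ hX v Submodule.mem_top
      exact ⟨w, h⟩
    choose a ha using hact
    have hadd : ∀ v w, a (v + w) = a v + a w := by
      intro v w
      apply cl_inj K hK5a
      rw [← ha, cl_add, cl_add, ← ha, ← ha, mul_add, add_mul]
      abel
    have hak : ∀ v w, K.bil (a v) w + K.bil v (a w) = 0 := by
      intro v w
      have h1 := hcl v w
      have h2 := hcl (a v) w
      have h3 := hcl v (a w)
      rw [← ha v] at h2
      rw [← ha w] at h3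
      have h4 : (2 * K.bil (a v) w) • (1 : Matrix (Idx g) (Idx g) ℂ) + (2 * K.bil v (a w)) • 1 =
          X * ((2 * K.bil v w) • (1 : Matrix (Idx g) (Idx g) ℂ)) - ((2 * K.bil v w) • 1) * X := by
        rw [← h1, ← h2, ← h3]
        noncomm_ring
      rw [Matrix.mul_smul, Matrix.smul_mul, mul_one, one_mul, sub_self, ← add_smul] at h4
      have : Nonempty (Idx g) := ⟨Sum.inl ⟨0, K.pos⟩⟩
      have h5 : (2 * K.bil (a v) w) + (2 * K.bil v (a w)) = 0 := by
        have h6 := congrFun (congrFun h4 this.some) this.some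
        simpa [Matrix.smul_apply] using h6
      linear_combination (1 / 2) * h5
    have haW : ∀ v ∈ W, a v ∈ W := by
      intro v hv
      obtain ⟨w, hw, h⟩ := hW X ξ hX v hv
      have : a v = w := cl_inj K hK5a (by rw [← ha, h])
      rw [this]; exact hw
    have haM : ∀ v ∈ M, a v ∈ M := by
      intro v hv
      obtain ⟨w, hw, h⟩ := hM X ξ hX v hv
      have : a v = w := cl_inj K hK5a (by rw [← ha, h])
      rw [this]; exact hw
    have haP : ∀ v, P *ᵥ (a v) = a (P *ᵥ v) := by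
      intro v
      obtain ⟨w, hw, m, hm, rfl⟩ := hdec v
      rw [hP, hP, hadd, map_add, map_add, hPW _ hw, hPM _ hm, hPW _ (haW _ hw), hPM _ (haM _ hm), add_zero,
        add_zero]
    have haP' : ∀ v, adj K P *ᵥ (a v) = a (adj K P *ᵥ v) := by
      intro v
      rw [← sub_eq_zero]
      apply E5dX.bil_nondeg K
      intro w
      rw [E5dX.bil_comm, bil_sub_right, ← bil_adj]
      have h1 := hak (P *ᵥ w) v
      have h2 := hak w (adj K P *ᵥ v)
      have h3 : K.bil (a (P *ᵥ w)) v = K.bil (a w) (adj K P *ᵥ v) := by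
        rw [← haP w, bil_adj]
      linear_combination h1 - h2 - h3
    have haS : ∀ v, S *ᵥ (a v) = a (S *ᵥ v) := by
      intro v
      have hsub : ∀ v w, a (v - w) = a v - a w := by
        intro v w
        have := hadd (v - w) w
        rw [sub_add_cancel] at this
        rw [this]; abel
      rw [hSdef, Matrix.sub_mulVec, Matrix.sub_mulVec, haP, haP', hsub]
    -- the commutator is scalar
    have hXe : X ∈ EW K := mem_EW K X fun α hα => (hK2c g A X ξ hX).1 α hα
    obtain ⟨c, hc'⟩ := scalar_of_EW K (X * K.Z S - K.Z S * X)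
      (Submodule.sub_mem _ (EW_mul K hXe hZe) (EW_mul K hZe hXe)) (by
        intro i
        rw [← cl_single]
        set v : Fin n → ℂ := Pi.single i 1
        rw [← sub_eq_zero]
        have h1 : (X * K.Z S - K.Z S * X) * K.cl v - K.cl v * (X * K.Z S - K.Z S * X) =
            (X * (K.Z S * K.cl v - K.cl v * K.Z S) - (K.Z S * K.cl v - K.cl v * K.Z S) * X) -
            (K.Z S * (X * K.cl v - K.cl v * X) - (X * K.cl v - K.cl v * X) * K.Z S) := by noncomm_ring
        rw [h1, hZa v, ha v, ha (S *ᵥ v), hZa (a v), haS, sub_self])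
    have : Nonempty (Idx g) := ⟨Sum.inl ⟨0, K.pos⟩⟩
    have hc0 : c = 0 := by
      have h1 := congrArg Matrix.trace hc'
      rw [Matrix.trace_sub, Matrix.trace_mul_comm, sub_self, Matrix.trace_smul, Matrix.trace_one, smul_eq_mul] at h1
      have h2 : ((Fintype.card (Idx g) : ℕ) : ℂ) ≠ 0 := by
        exact_mod_cast Fintype.card_ne_zero
      exact (mul_eq_zero.1 h1.symm).resolve_right h2
    rw [hc0, zero_smul] at hc'
    exact sub_eq_zero.1 hc'
  have hZmem := hK4 g A (K.Z S) hZX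
  have hS0 : ∀ v, S *ᵥ v = 0 := by
    refine skew_zero K hn h5l S hSkew fun s hs v => ?_
    have hsk : ∀ v w, K.bil (s *ᵥ v) w + K.bil v (s *ᵥ w) = 0 := by
      intro v w
      rw [bil_eq, bil_eq, ← Matrix.vecMul_transpose, Matrix.dotProduct_mulVec, Matrix.dotProduct_mulVec,
        Matrix.dotProduct_mulVec, Matrix.vecMul_vecMul, Matrix.vecMul_vecMul, ← add_dotProduct,
        ← Matrix.vecMul_add, hs.1, Matrix.vecMul_zero, zero_dotProduct]
    have hZs := hlift s hsk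
    have h1 := hend (K.Z S) hZmem s hs
    rw [← sub_eq_zero]
    apply hinj
    rw [cl_sub, ← hZa (s *ᵥ v), ← hZs (S *ᵥ v)]
    have h2 : K.Z S * (K.Z s * K.cl v - K.cl v * K.Z s) - (K.Z s * K.cl v - K.cl v * K.Z s) * K.Z S -
        (K.Z s * (K.Z S * K.cl v - K.cl v * K.Z S) - (K.Z S * K.cl v - K.cl v * K.Z S) * K.Z s) =
        (K.Z S * K.Z s - K.Z s * K.Z S) * K.cl v - K.cl v * (K.Z S * K.Z s - K.Z s * K.Z S) := by noncomm_ring
    rw [← hZs v, ← hZa v, h2, h1, sub_self, zero_mul, mul_zero, sub_zero]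
  have hself : ∀ v w, K.bil (P *ᵥ v) w = K.bil v (P *ᵥ w) := by
    intro v w
    have h1 := hS0 w
    rw [hSdef, Matrix.sub_mulVec, sub_eq_zero] at h1
    rw [bil_adj, h1]
  intro v hv hvw
  apply E5dX.bil_nondeg K
  intro u
  obtain ⟨w, hw, m, hm, rfl⟩ := hdec u
  rw [bil_add_right, hvw w hw, zero_add]
  have h1 := hself v m
  rw [hP, hP, hPW v hv, hPM m hm] at h1
  rw [h1]
  unfold KSE.bil
  simp

end

end Pool.Agent.K3E
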