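import Pool.Agent.K3D.Stmts
import Pool.Agent.K3E.Defs

/-!
# De Rham-Betti conjecture for K3 surfaces, real multiplication: exact statements of the modules
-/

open scoped BigOperators
open Matrix

namespace Pool.Agent.K3E

open Pool.Agent.DRB Pool.Agent.K3D

noncomputable section

/-- E2D. The group and its Lie algebra preserve `T`. -/
def Stmt_E2d : Prop :=
  ∀ (g : ℕ) (A : AbVar g) (n m : ℕ) (K : KSE A n m),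
    (∀ p ∈ Gam A, ∀ Y ∈ K.TC, p.1.val * Y * (p.1⁻¹).val ∈ K.TC) ∧
    (∀ X ξ, InLie (Gam A) X ξ → ∀ Y ∈ K.TC, X * Y - Y * X ∈ K.TC)

/-! ## Clifford algebra -/

/-- E5A. The Clifford relations, the lift of skew maps, and scalars. -/
def Stmt_E5a : Prop :=
  ∀ (g : ℕ) (A : AbVar g) (n m : ℕ) (K : KSE A n m),
    (∀ v w, K.cl v * K.cl w + K.cl w * K.cl v = (2 * K.bil v w) • (1 : Matrix (Idx g) (Idx g) ℂ)) ∧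
    (∀ v, K.cl v = 0 → v = 0) ∧
    (∀ a : Matrix (Fin n) (Fin n) ℂ, (∀ v w, K.bil (a *ᵥ v) w + K.bil v (a *ᵥ w) = 0) →
      ∀ v, K.Z a * K.cl v - K.cl v * K.Z a = K.cl (a *ᵥ v)) ∧
    (∀ Y : Matrix (Idx g) (Idx g) ℂ, (∀ α, A.IsEnd α → Y * AbVar.toC α = AbVar.toC α * Y) →
      (∀ v, Y * K.cl v = K.cl v * Y) → ∃ c : ℂ, Y = c • 1) ∧
    (∀ Y ∈ Submodule.span ℂ {Z | ∃ α ∈ A.EndQ, Z = AbVar.toC α}, ∀ a ∈ K.S, Y * K.Z a = K.Z a * Y) ∧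
    (∀ α, A.IsEnd α → ∀ a ∈ K.S, K.Z a * AbVar.toC α = AbVar.toC α * K.Z a)

/-- E5V. Matrices commuting with the endomorphisms and preserving `T` act `E`-linearly on `T`. -/
def Stmt_E5v : Prop :=
  ∀ (g : ℕ) (A : AbVar g) (n m : ℕ) (K : KSE A n m), 3 ≤ m →
    (∀ (Y : Matrix (Idx g) (Idx g) ℂ) (a : Matrix (Fin n) (Fin n) ℂ),
      (∀ α, A.IsEnd α → Y * AbVar.toC α = AbVar.toC α * Y) →
      (∀ v, Y * K.cl v - K.cl v * Y = K.cl (a *ᵥ v)) → a * K.thC = K.thC * a) ∧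
    (∀ (x : GL (Idx g) ℂ) (b : Matrix (Fin n) (Fin n) ℂ),
      (∀ α, A.IsEnd α → x.val * AbVar.toC α = AbVar.toC α * x.val) →
      (∀ v, x.val * K.cl v * (x⁻¹).val = K.cl (b *ᵥ v)) → b * K.thC = K.thC * b)

/-- E5L. Linear algebra of the eigenspaces of `E`. -/
def Stmt_E5l : Prop :=
  ∀ (g : ℕ) (A : AbVar g) (n m : ℕ) (K : KSE A n m), 3 ≤ m →
    (∀ z : ℂ, Polynomial.aeval z K.P = 0 → Module.finrank ℂ (K.Tl z) = m) ∧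
    (∀ v : Fin n → ℂ, v ∈ ⨆ z ∈ {z : ℂ | Polynomial.aeval z K.P = 0}, K.Tl z) ∧
    (∀ z z' : ℂ, z ≠ z' → ∀ v ∈ K.Tl z, ∀ w ∈ K.Tl z', K.bil v w = 0) ∧
    (∀ z : ℂ, ∀ v ∈ K.Tl z, (∀ w ∈ K.Tl z, K.bil v w = 0) → v = 0) ∧
    (∀ z : ℂ, ∀ x ∈ K.Tl z, ∀ y ∈ K.Tl z, ∃ a ∈ K.S, ∀ v, a *ᵥ v = K.bil y v • x - K.bil x v • y) ∧
    (∀ a ∈ K.S, ∀ z : ℂ, ∀ v ∈ K.Tl z, a *ᵥ v ∈ K.Tl z) ∧
    (∀ z : ℂ, ∀ W : Submodule ℂ (Fin n → ℂ), W ≤ K.Tl z → (∀ a ∈ K.S, ∀ v ∈ W, a *ᵥ v ∈ W) →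
      W = ⊥ ∨ W = K.Tl z) ∧
    (∀ W : Submodule ℂ (Fin n → ℂ), (∀ (σ : ℂ ≃ₐ[ℚ] ℂ), ∀ v ∈ W, (fun i => σ (v i)) ∈ W) →
      (∀ a ∈ K.S, ∀ v ∈ W, a *ᵥ v ∈ W) → W = ⊥ ∨ W = ⊤)

/-- E5B. A rational subspace of `T` stable under the group is trivial. -/
def Stmt_E5b : Prop :=
  ∀ (g : ℕ) (A : AbVar g) (n m : ℕ) (K : KSE A n m), 3 ≤ m → ∀ W : Submodule ℂ (Fin n → ℂ),
    (∀ (σ : ℂ ≃ₐ[ℚ] ℂ), ∀ v ∈ W, (fun i => σ (v i)) ∈ W) →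
    (∀ p ∈ Gam A, ∀ v ∈ W, ∃ w ∈ W, p.1.val * K.cl v * (p.1⁻¹).val = K.cl w) →
    W = ⊥ ∨ W = ⊤

/-- E5C. A nondegenerate subspace stable under the Lie algebra is stable under `so_E(T)`. -/
def Stmt_E5c : Prop :=
  ∀ (g : ℕ) (A : AbVar g) (n m : ℕ) (K : KSE A n m), 3 ≤ m → ∀ W : Submodule ℂ (Fin n → ℂ),
    (∀ X ξ, InLie (Gam A) X ξ → ∀ v ∈ W, ∃ w ∈ W, X * K.cl v - K.cl v * X = K.cl w) →
    (∀ v ∈ W, (∀ w ∈ W, K.bil v w = 0) → v = 0) →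
    ∀ a ∈ K.S, ∀ v ∈ W, a *ᵥ v ∈ W

/-- E5D. A subspace stable under the Lie algebra is stable under `so_E(T)`. -/
def Stmt_E5d : Prop :=
  ∀ (g : ℕ) (A : AbVar g) (n m : ℕ) (K : KSE A n m), 3 ≤ m → ∀ W : Submodule ℂ (Fin n → ℂ),
    (∀ X ξ, InLie (Gam A) X ξ → ∀ v ∈ W, ∃ w ∈ W, X * K.cl v - K.cl v * X = K.cl w) →
    ∀ a ∈ K.S, ∀ v ∈ W, a *ᵥ v ∈ W

/-! ## Real Lie algebras -/

/-- The real Lie algebra acting on `T`. -/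
def KSE.lie {g n m : ℕ} {A : AbVar g} (K : KSE A n m) (a : Matrix (Fin n) (Fin n) ℝ) : Prop :=
  ∃ (X : Matrix (Idx g) (Idx g) ℂ) (ξ : ℂ), InLie (Gam A) X ξ ∧
    ∀ v, X * K.cl v - K.cl v * X = K.cl ((a.map Complex.ofReal) *ᵥ v)

/-- E8A. Products of exponentials of elements of `K.lie` have their hyperbolic logarithm in `K.lie`. -/
def Stmt_E8a : Prop :=
  ∀ (g : ℕ) (A : AbVar g) (n m : ℕ) (K : KSE A n m) (as : List (Matrix (Fin n) (Fin n) ℝ)),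
    (∀ a ∈ as, K.lie a) → ∃ h, K.lie h ∧ IsHypLog (as.map fun a => NormedSpace.exp a).prod h

/-- E8B. The Lie algebra is everything. -/
def Stmt_E8b : Prop :=
  ∀ (g : ℕ) (A : AbVar g) (n m : ℕ) (K : KSE A n m), 3 ≤ m → m ≠ 5 →
    ∀ a ∈ K.S, ∃ (X : Matrix (Idx g) (Idx g) ℂ) (ξ : ℂ), InLie (Gam A) X ξ ∧
      ∀ v, X * K.cl v - K.cl v * X = K.cl (a *ᵥ v)

/-- E9. The conclusion. -/
def Stmt_E9 : Prop := MainE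

end

end Pool.Agent.K3E
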