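import Pool.Agent.K3D.K8a
import Pool.Agent.K3E.Stmts

/-!
# E8a: products of exponentials have their hyperbolic logarithm in the Lie algebra (real multiplication)
-/

open scoped BigOperators Matrix
open Matrix

namespace Pool.Agent.K3E

open Pool.Agent.DRB Pool.Agent.K3D

noncomputable section

namespace E8X

open K8X hiding clL clL_apply mem_TC_iff exists_mat lift_list

section clifford

variable {g n m : ℕ} {A : AbVar g} (K : KSE A n m)

/-- The Clifford map as a linear map. -/
def clL : (Fin n → ℂ) →ₗ[ℂ] Matrix (Idx g) (Idx g) ℂ where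
  toFun := K.cl
  map_add' := by
    intro v w
    simp only [KSE.cl, Pi.add_apply, add_smul, Finset.sum_add_distrib]
  map_smul' := by
    intro c v
    simp only [KSE.cl, Pi.smul_apply, smul_eq_mul, mul_smul, Finset.smul_sum, RingHom.id_apply]

theorem clL_apply (v : Fin n → ℂ) : clL K v = K.cl v := rfl

theorem mem_TC_iff (Y : Matrix (Idx g) (Idx g) ℂ) : Y ∈ K.TC ↔ ∃ w, K.cl w = Y := by
  unfold KSE.TC
  rw [Submodule.mem_span_range_iff_exists_fun]
  rfl

theorem exists_mat (X : Matrix (Idx g) (Idx g) ℂ) (hX : ∀ Y ∈ K.TC, X * Y - Y * X ∈ K.TC) :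
    ∃ b : Matrix (Fin n) (Fin n) ℂ, ∀ v, X * K.cl v - K.cl v * X = K.cl (b *ᵥ v) := by
  have h1 : ∀ i : Fin n, ∃ w, K.cl w = X * K.cl (Pi.single i 1) - K.cl (Pi.single i 1) * X := by
    intro i
    exact (mem_TC_iff K _).1 (hX _ ((mem_TC_iff K _).2 ⟨_, rfl⟩))
  choose w hw using h1
  refine ⟨Matrix.of fun i j => w j i, fun v => ?_⟩
  let F : (Fin n → ℂ) →ₗ[ℂ] Matrix (Idx g) (Idx g) ℂ := (Lm X - Rm X).comp (clL K)
  let G : (Fin n → ℂ) →ₗ[ℂ] Matrix (Idx g) (Idx g) ℂ :=
    (clL K).comp (Matrix.toLin' (Matrix.of fun i j => w j i))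
  have hFG : F = G := by
    refine LinearMap.pi_ext' fun i => LinearMap.ext_ring ?_
    simp only [F, G, LinearMap.comp_apply, LinearMap.sub_apply, Lm_apply, Rm_apply,
      LinearMap.single_apply, Matrix.toLin'_apply, clL_apply, Matrix.mulVec_single_one]
    rw [← hw i]
    congr 1
  have := congrArg (fun H : (Fin n → ℂ) →ₗ[ℂ] Matrix (Idx g) (Idx g) ℂ => H v) hFG
  simpa only [F, G, LinearMap.comp_apply, LinearMap.sub_apply, Lm_apply, Rm_apply,
    Matrix.toLin'_apply, clL_apply] using this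

theorem lift_list (hK3 : Stmt_K3) (as : List (Matrix (Fin n) (Fin n) ℝ))
    (has : ∀ a ∈ as, K.lie a) :
    ∃ (x : GL (Idx g) ℂ) (ν : ℂˣ), (∀ (t : TData) (D : Submodule ℂ (TIdx t (Idx g) → ℂ)),
      StabG (Gam A) t D → D.map (TAct t x.val ν.val) ≤ D) ∧
      ∀ v, x.val * K.cl v =
        K.cl (((as.map fun a => NormedSpace.exp a).prod.map Complex.ofReal) *ᵥ v) * x.val := by
  induction as with
  | nil =>
    refine ⟨1, 1, fun t D _ => ?_, fun v => ?_⟩
    · rw [Units.val_one, Units.val_one, TAct_one, Submodule.map_id]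
    · have h1 : ((List.map (fun a : Matrix (Fin n) (Fin n) ℝ => NormedSpace.exp a) []).prod.map
          Complex.ofReal) = (1 : Matrix (Fin n) (Fin n) ℂ) := by
        rw [List.map_nil, List.prod_nil]
        exact Matrix.map_one _ Complex.ofReal_zero Complex.ofReal_one
      rw [h1, Matrix.one_mulVec, Units.val_one, one_mul, mul_one]
  | cons a as ih =>
    obtain ⟨x, ν, h1, h2⟩ := ih fun b hb => has b (List.mem_cons_of_mem _ hb)
    obtain ⟨X, ξ, hX, hXa⟩ := has a List.mem_cons_self
    let e : GL (Idx g) ℂ := ⟨NormedSpace.exp X, NormedSpace.exp (-X), (exp_mul_exp_neg X).1,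
      (exp_mul_exp_neg X).2⟩
    let ε : ℂˣ := Units.mk0 (Complex.exp ξ) (Complex.exp_ne_zero ξ)
    refine ⟨e * x, ε * ν, fun t D hD => ?_, fun v => ?_⟩
    · rw [Units.val_mul, Units.val_mul, TAct_comp, Submodule.map_comp]
      refine le_trans (Submodule.map_mono (h1 t D hD)) ?_
      exact hK3 (Idx g) t X ξ D (hX t D hD)
    · have h3 := exp_intertwine (clL K) X (a.map Complex.ofReal) (fun w => hXa w)
        (((as.map fun a => NormedSpace.exp a).prod.map Complex.ofReal) *ᵥ v)
      rw [clL_apply, clL_apply, Matrix.mulVec_mulVec, ← exp_ofReal] at h3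
      have h4 : ((List.map (fun a : Matrix (Fin n) (Fin n) ℝ => NormedSpace.exp a)
          (a :: as)).prod.map Complex.ofReal) = ((NormedSpace.exp a).map Complex.ofReal) *
          ((as.map fun a => NormedSpace.exp a).prod.map Complex.ofReal) := by
        rw [List.map_cons, List.prod_cons]
        exact Matrix.map_mul (f := Complex.ofRealHom)
      rw [h4, Units.val_mul]
      have h5 : e.val = NormedSpace.exp X := rfl
      rw [h5, mul_assoc, h2 v, ← mul_assoc, h3, mul_assoc]

end clifford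


end E8X

open E8X
open K8X hiding clL clL_apply mem_TC_iff exists_mat lift_list

/-- E8A. -/
theorem E8a_proof (hK1 : Stmt_K1) (hE2d : Stmt_E2d) (hK3 : Stmt_K3) (hE5a : Stmt_E5a) :
    Stmt_E8a := by
  intro g A n m K as has
  obtain ⟨x, ν, hst, hx⟩ := lift_list K hK3 as has
  set G : Matrix (Fin n) (Fin n) ℂ :=
    (as.map fun a => NormedSpace.exp a).prod.map Complex.ofReal with hG
  obtain ⟨S, α, N, M, hN, hcomm, hxe, _, hstab⟩ := hK1 (Idx g) x
  set Dg : Matrix (Idx g) (Idx g) ℂ := Matrix.diagonal (fun i => (α i).val) with hDg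
  set u : Matrix (Idx g) (Idx g) ℂ := Dg * (1 + N) with hu
  set lg : Matrix (Idx g) (Idx g) ℂ :=
    Matrix.diagonal (fun i => logAbs (Additive.ofMul (α i))) with hlg
  set Xh : Matrix (Idx g) (Idx g) ℂ := S.val * lg * (S⁻¹).val with hXh
  have hLie : InLie (Gam A) Xh (logAbs (Additive.ofMul ν)) := by
    intro t D hD
    exact (hstab ν t D (hst t D hD)).1 logAbs
  obtain ⟨b, hb⟩ := exists_mat K Xh ((hE2d g A n m K).2 Xh _ hLie)
  have hinj := (hE5a g A n m K).2.1
  have hSS : (S⁻¹).val * S.val = 1 := by rw [← Units.val_mul]; simp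
  have hSS' : S.val * (S⁻¹).val = 1 := by rw [← Units.val_mul]; simp
  -- the conjugated Clifford map
  let Y : (Fin n → ℂ) → Matrix (Idx g) (Idx g) ℂ := fun v => (S⁻¹).val * K.cl v * S.val
  have hYu : ∀ v, u * Y v = Y (G *ᵥ v) * u := by
    intro v
    have h1 := hx v
    have hxe' : x.val = S.val * u * (S⁻¹).val := by
      rw [hxe, hu]
      simp only [mul_assoc]
    rw [hxe'] at h1
    calc u * Y v = (S⁻¹).val * S.val * u * ((S⁻¹).val * K.cl v * S.val) := by rw [hSS, one_mul]
      _ = (S⁻¹).val * (S.val * u * (S⁻¹).val * K.cl v) * S.val := by simp only [mul_assoc]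
      _ = (S⁻¹).val * (K.cl (G *ᵥ v) * (S.val * u * (S⁻¹).val)) * S.val := by rw [h1]
      _ = (S⁻¹).val * K.cl (G *ᵥ v) * S.val * u * ((S⁻¹).val * S.val) := by simp only [mul_assoc]
      _ = Y (G *ᵥ v) * u := by rw [hSS, mul_one]
  have hYsub : ∀ (c : ℂ) (v w : Fin n → ℂ), Y (v - c • w) = Y v - c • Y w := by
    intro c v w
    have h1 : K.cl (v - c • w) = K.cl v - c • K.cl w := by
      rw [← clL_apply, map_sub, map_smul]; rfl
    simp only [Y, h1, mul_sub, sub_mul, mul_smul_comm, smul_mul_assoc]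
  have hgen : ∀ (β : ℂ) (k : ℕ) (v : Fin n → ℂ),
      (((Lm u - β • Rm u : Module.End ℂ (Matrix (Idx g) (Idx g) ℂ)) ^ k) (Y v)) =
        Y (((G - β • (1 : Matrix (Fin n) (Fin n) ℂ)) ^ k) *ᵥ v) * u ^ k := by
    intro β k
    induction k with
    | zero => intro v; simp
    | succ k ih =>
      intro v
      have h1 : (Lm u - β • Rm u : Module.End ℂ (Matrix (Idx g) (Idx g) ℂ)) (Y v) =
          Rm u (Y ((G - β • (1 : Matrix (Fin n) (Fin n) ℂ)) *ᵥ v)) := by
        rw [LinearMap.sub_apply, LinearMap.smul_apply, Lm_apply, Rm_apply, Rm_apply, hYu,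
          Matrix.sub_mulVec, Matrix.smul_mulVec, Matrix.one_mulVec, hYsub, sub_mul, smul_mul_assoc]
      have h2 : Commute ((Lm u - β • Rm u : Module.End ℂ (Matrix (Idx g) (Idx g) ℂ)) ^ k) (Rm u) := by
        refine Commute.pow_left ?_ k
        exact (Lm_Rm u u).sub_left ((Commute.refl _).smul_left β)
      rw [pow_succ, Module.End.mul_apply, h1]
      have h3 := congrArg (fun F : Module.End ℂ (Matrix (Idx g) (Idx g) ℂ) =>
        F (Y ((G - β • (1 : Matrix (Fin n) (Fin n) ℂ)) *ᵥ v))) h2.eq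
      simp only [Module.End.mul_apply] at h3
      rw [h3, ih, Rm_apply, Matrix.mulVec_mulVec, ← pow_succ, mul_assoc, ← pow_succ]
  have hkey : ∀ (β : ℂ) (v : Fin n → ℂ),
      (∃ k : ℕ, ((G - β • (1 : Matrix (Fin n) (Fin n) ℂ)) ^ k) *ᵥ v = 0) →
      b *ᵥ v = (Real.log ‖β‖ : ℂ) • v := by
    rintro β v ⟨k, hk⟩
    have h1 := hgen β k v
    have hY0 : Y 0 = 0 := by
      have : K.cl 0 = 0 := by rw [← clL_apply, map_zero]
      simp only [Y, this, mul_zero, zero_mul]
    rw [hk, hY0, zero_mul] at h1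
    have h2 := diag_of_gen α N hN hcomm β (Y v) k h1
    have h3 : lg * Y v - Y v * lg = (Real.log ‖β‖ : ℂ) • Y v := by
      ext i j
      rw [Matrix.sub_apply, hlg, Matrix.diagonal_mul, Matrix.mul_diagonal, Matrix.smul_apply,
        smul_eq_mul, logAbs_apply, logAbs_apply]
      by_cases hij : Y v i j = 0
      · rw [hij]; ring
      · have h4 := h2 i j hij
        have hβ : β ≠ 0 := by
          intro h0
          rw [h0, zero_mul] at h4
          exact (α i).ne_zero h4
        have h5 : Real.log ‖(α i).val‖ = Real.log ‖β‖ + Real.log ‖(α j).val‖ := by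
          rw [h4, norm_mul, Real.log_mul (norm_ne_zero_iff.2 hβ)
            (norm_ne_zero_iff.2 (Units.ne_zero _))]
        rw [h5, Complex.ofReal_add]
        ring
    have h6 : K.cl (b *ᵥ v) = K.cl ((Real.log ‖β‖ : ℂ) • v) := by
      rw [← hb v]
      have h7 : K.cl ((Real.log ‖β‖ : ℂ) • v) = (Real.log ‖β‖ : ℂ) • K.cl v := by
        rw [← clL_apply, map_smul]; rfl
      have h8 : K.cl v = S.val * Y v * (S⁻¹).val := by
        calc K.cl v = (S.val * (S⁻¹).val) * K.cl v * (S.val * (S⁻¹).val) := by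
              rw [hSS', one_mul, mul_one]
          _ = S.val * Y v * (S⁻¹).val := by simp only [Y, mul_assoc]
      rw [h7, h8]
      calc Xh * (S.val * Y v * (S⁻¹).val) - S.val * Y v * (S⁻¹).val * Xh
          = S.val * lg * ((S⁻¹).val * S.val) * Y v * (S⁻¹).val -
            S.val * Y v * ((S⁻¹).val * S.val) * lg * (S⁻¹).val := by
            rw [hXh]; simp only [mul_assoc]
        _ = S.val * (lg * Y v - Y v * lg) * (S⁻¹).val := by
            rw [hSS, mul_one, mul_one, mul_sub, sub_mul]; simp only [mul_assoc]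
        _ = _ := by rw [h3, mul_smul_comm, smul_mul_assoc]
    have h9 : K.cl (b *ᵥ v - (Real.log ‖β‖ : ℂ) • v) = 0 := by
      rw [← clL_apply, map_sub, clL_apply, clL_apply, h6, sub_self]
    exact sub_eq_zero.1 (hinj _ h9)
  -- the matrix is real
  have hGreal : cj G = G := by
    ext i j
    rw [cj_apply, hG, Matrix.map_apply, Complex.conj_ofReal]
  have hreal : cj b = b := by
    have h1 : (⊤ : Submodule ℂ (Fin n → ℂ)) ≤
        LinearMap.eqLocus (Matrix.toLin' (cj b)) (Matrix.toLin' b) := by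
      rw [← Module.End.iSup_maxGenEigenspace_eq_top (Matrix.toLin' G)]
      refine iSup_le fun β v hv => ?_
      rw [Module.End.mem_maxGenEigenspace] at hv
      obtain ⟨k, hk⟩ := hv
      have h2 : ((G - β • (1 : Matrix (Fin n) (Fin n) ℂ)) ^ k) *ᵥ v = 0 := by
        have h3 : (Matrix.toLin' G - β • (1 : Module.End ℂ (Fin n → ℂ))) ^ k =
            Matrix.toLin' ((G - β • (1 : Matrix (Fin n) (Fin n) ℂ)) ^ k) := by
          rw [Matrix.toLin'_pow, map_sub, map_smul, Matrix.toLin'_one]
          rfl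
        rw [h3, Matrix.toLin'_apply] at hk
        exact hk
      have h4 := hkey β v ⟨k, h2⟩
      have h5 : ((G - (starRingEnd ℂ) β • (1 : Matrix (Fin n) (Fin n) ℂ)) ^ k) *ᵥ
          (fun i => (starRingEnd ℂ) (v i)) = 0 := by
        have h6 : cj ((G - β • (1 : Matrix (Fin n) (Fin n) ℂ)) ^ k) =
            (G - (starRingEnd ℂ) β • (1 : Matrix (Fin n) (Fin n) ℂ)) ^ k := by
          rw [map_pow, map_sub, hGreal]
          congr 2
          ext i j
          simp only [cj_apply, Matrix.smul_apply, smul_eq_mul, map_mul, Matrix.one_apply]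
          split_ifs <;> simp
        rw [← h6, cj_mulVec, h2]
        funext i
        simp
      have h7 := hkey _ _ ⟨k, h5⟩
      show Matrix.toLin' (cj b) v = Matrix.toLin' b v
      rw [Matrix.toLin'_apply, Matrix.toLin'_apply, h4]
      have h8 : v = fun i => (starRingEnd ℂ) ((fun i => (starRingEnd ℂ) (v i)) i) := by
        funext i; simp
      conv_lhs => rw [h8]
      rw [cj_mulVec, h7]
      funext i
      simp
    have h2 : Matrix.toLin' (cj b) = Matrix.toLin' b := LinearMap.ext fun v => h1 Submodule.mem_top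
    exact Matrix.toLin'.injective h2
  have hre : (b.map Complex.re).map Complex.ofReal = b := by
    ext i j
    have h1 : (starRingEnd ℂ) (b i j) = b i j := by
      rw [← cj_apply, hreal]
    rw [Matrix.map_apply, Matrix.map_apply]
    exact Complex.conj_eq_iff_re.1 h1
  refine ⟨b.map Complex.re, ⟨Xh, _, hLie, fun v => ?_⟩, fun β v hv => ?_⟩
  · rw [hre]; exact hb v
  · rw [hre]; exact hkey β v hv

end

end Pool.Agent.K3E
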