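import Pool.Agent.K3E.E8b2

/-!
# E8b, third part: the Lie algebra is everything
-/

open scoped BigOperators Matrix
open Matrix Polynomial

namespace Pool.Agent.K3E

open Pool.Agent.DRB Pool.Agent.K3D

noncomputable section

namespace E8Y

open K8X (cj cj_apply cj_mulVec exp_ofReal)
open K8Y (exp_gen diag_real)
open Pool.Agent.K3D.K7w Pool.Agent.K3D.K7x

/-- The real theorem. -/
theorem real_main (hK6 : Stmt_K6) (hK7E : Stmt_K7E) {n : ℕ} {q : Fin n → ℝ}
    {V0 : Submodule ℝ (Fin n → ℝ)} {l : Submodule ℝ (Matrix (Fin n) (Fin n) ℝ)}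
    (L : LHypE n q V0 l) (hdim : 3 ≤ Module.finrank ℝ V0)
    (hlog : ∀ as : List (Matrix (Fin n) (Fin n) ℝ), (∀ a ∈ as, a ∈ l) →
      ∃ h ∈ l, IsHypLog (as.map fun a => NormedSpace.exp a).prod h) :
    ∀ x ∈ V0, ∀ y ∈ V0, ∀ a : Matrix (Fin n) (Fin n) ℝ,
      (∀ v, a *ᵥ v = (∑ i, q i * y i * v i) • x - (∑ i, q i * x i * v i) • y) → a ∈ l := by
  have E := ctxE L
  have hpos : ∃ x ∈ V0, 0 < ∑ i, q i * x i * x i := by
    let i0 : Fin n := ⟨0, by have := L.n2; omega⟩
    obtain ⟨x, hx, y, hy, hxy⟩ := E.dec (Pi.single i0 1)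
    refine ⟨x, hx, ?_⟩
    have h1 : Bq q (Pi.single i0 1) (Pi.single i0 1) = q i0 := by
      rw [Bq_single_left, Pi.single_eq_same, mul_one]
    have h2 : 0 < q i0 := L.qpos i0 (by simp [i0])
    rw [hxy, LinearMap.map_add, LinearMap.map_add, LinearMap.add_apply, LinearMap.add_apply, hy x hx,
      E.symm y x, hy x hx] at h1
    have h3 : Bq q y y ≤ 0 := by
      by_contra hcon
      have h4 := E.neg y hy (not_le.1 hcon).le
      rw [h4] at hcon
      exact hcon (by simp)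
    rw [← Bq_apply]
    linarith
  have hneg : ∃ x ∈ V0, ∑ i, q i * x i * x i < 0 := by
    obtain ⟨v, hv⟩ := exists_linearIndependent_of_le_finrank hdim
    have hv' : LinearIndependent ℝ fun i => (v i : Fin n → ℝ) :=
      hv.map' V0.subtype (Submodule.ker_subtype _)
    obtain ⟨c, hc⟩ := E.sig _ hv'
    refine ⟨∑ i, c i • (v i : Fin n → ℝ), ?_, ?_⟩
    · exact Submodule.sum_mem _ fun i _ => V0.smul_mem _ (v i).2
    · rw [← Bq_apply]; exact hc
  have hnd : ∀ x ∈ V0, (∀ y ∈ V0, ∑ i, q i * x i * y i = 0) → x = 0 := E.nondeg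
  obtain ⟨as, has, β, v, hv, hβ, hg⟩ := K6rel hK6 q V0 l hnd hpos hneg L.pres L.skew L.irr
  obtain ⟨h, hh, hl⟩ := hlog as has
  have hβ0 : β ≠ 0 := by
    rintro rfl
    rw [zero_smul] at hg
    have hunit : ∀ as : List (Matrix (Fin n) (Fin n) ℝ),
        IsUnit (as.map fun a => NormedSpace.exp a).prod := by
      intro as
      induction as with
      | nil => simp
      | cons a as ih =>
        rw [List.map_cons, List.prod_cons]
        exact (Matrix.isUnit_exp a).mul ih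
    have hu : IsUnit ((as.map fun a => NormedSpace.exp a).prod.map Complex.ofReal) := by
      have := (hunit as).map (Complex.ofRealHom.mapMatrix :
        Matrix (Fin n) (Fin n) ℝ →+* Matrix (Fin n) (Fin n) ℂ)
      exact this
    obtain ⟨y, hy⟩ := hu
    apply hv
    have h1 : (y⁻¹ : (Matrix (Fin n) (Fin n) ℂ)ˣ).val *ᵥ (y.val *ᵥ v) = v := by
      rw [Matrix.mulVec_mulVec, ← Units.val_mul]
      simp
    rw [hy, hg, Matrix.mulVec_zero] at h1
    exact h1.symm
  have hlogne : Real.log ‖β‖ ≠ 0 := by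
    intro h0
    have h1 : 0 < ‖β‖ := norm_pos_iff.2 hβ0
    rcases Real.log_eq_zero.1 h0 with h2 | h2 | h2
    · linarith
    · exact hβ h2
    · linarith
  have hne : h ≠ 0 := by
    rintro rfl
    have h1 := hl β v ⟨1, by
      rw [pow_one, Matrix.sub_mulVec, Matrix.smul_mulVec, Matrix.one_mulVec, hg, sub_self]⟩
    have h2 : ((0 : Matrix (Fin n) (Fin n) ℝ).map Complex.ofReal) *ᵥ v = 0 := by
      have : ((0 : Matrix (Fin n) (Fin n) ℝ).map Complex.ofReal) = 0 := by ext i j; simp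
      rw [this, Matrix.zero_mulVec]
    rw [h2] at h1
    have h3 := smul_eq_zero.1 h1.symm
    rcases h3 with h3 | h3
    · exact hlogne (by exact_mod_cast h3)
    · exact hv h3
  exact hK7E n q V0 l L ⟨h, hh, hne, diag_real _ _ hl⟩

section kse

variable {g n m : ℕ} {A : AbVar g} (K : KSE A n m)

/-- The real eigenspace. -/
def V0 : Submodule ℝ (Fin n → ℝ) where
  carrier := {v | (K.th.map (fun x => (x : ℝ))) *ᵥ v = K.lam • v}
  add_mem' := by
    intro a b (h1 : _ = _) (h2 : _ = _)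
    show _ = _
    rw [Matrix.mulVec_add, h1, h2, smul_add]
  zero_mem' := by
    show _ = _
    rw [Matrix.mulVec_zero, smul_zero]
  smul_mem' := by
    intro c a (h : _ = _)
    show _ = _
    rw [Matrix.mulVec_smul, h, smul_comm]

theorem mem_V0 (v : Fin n → ℝ) : v ∈ V0 K ↔ (K.th.map (fun x => (x : ℝ))) *ᵥ v = K.lam • v := Iff.rfl

theorem th_re (v : Fin n → ℂ) (i : Fin n) : ((K.thC *ᵥ v) i).re =
    ((K.th.map (fun x => (x : ℝ))) *ᵥ fun j => (v j).re) i := by
  simp only [KSE.thC, Matrix.mulVec, dotProduct, Matrix.map_apply, Complex.re_sum]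
  refine Finset.sum_congr rfl fun j _ => ?_
  have : ((K.th i j : ℚ) : ℂ) = (((K.th i j : ℚ) : ℝ) : ℂ) := by norm_cast
  rw [this, Complex.re_ofReal_mul]

theorem th_im (v : Fin n → ℂ) (i : Fin n) : ((K.thC *ᵥ v) i).im =
    ((K.th.map (fun x => (x : ℝ))) *ᵥ fun j => (v j).im) i := by
  simp only [KSE.thC, Matrix.mulVec, dotProduct, Matrix.map_apply, Complex.im_sum]
  refine Finset.sum_congr rfl fun j _ => ?_
  have : ((K.th i j : ℚ) : ℂ) = (((K.th i j : ℚ) : ℝ) : ℂ) := by norm_cast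
  rw [this, Complex.im_ofReal_mul]

theorem cplx_V0 : cplx (V0 K) = K.Tl (K.lam : ℂ) := by
  ext v
  rw [E5L.mem_Tl, mem_cplx, mem_V0, mem_V0]
  constructor
  · rintro ⟨h1, h2⟩
    funext i
    refine Complex.ext ?_ ?_
    · rw [th_re, h1]; simp
    · rw [th_im, h2]; simp
  · intro h
    refine ⟨?_, ?_⟩
    · funext i
      rw [← th_re, h]; simp
    · funext i
      rw [← th_im, h]; simp

theorem lam_rootC : aeval (K.lam : ℂ) K.P = 0 := by
  have h1 : aeval ((algebraMap ℝ ℂ) K.lam) K.P = algebraMap ℝ ℂ (aeval K.lam K.P) :=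
    Polynomial.aeval_algebraMap_apply ℂ K.lam K.P
  rw [K.lam_root, map_zero] at h1
  exact h1

theorem finrank_V0 (hm : 3 ≤ m) (hE5l : Stmt_E5l) : Module.finrank ℝ (V0 K) = m := by
  rw [← finrank_cplx', cplx_V0]
  exact (hE5l g A n m K hm).1 _ (lam_rootC K)

theorem ofReal_mulVec (a : Matrix (Fin n) (Fin n) ℝ) (v : Fin n → ℝ) :
    (a.map Complex.ofReal) *ᵥ (fun i => (v i : ℂ)) = fun i => (((a *ᵥ v) i : ℝ) : ℂ) := by
  funext i
  simp [Matrix.mulVec, dotProduct]

theorem lie_pres (hK2c : Stmt_K2c) (hE5v : Stmt_E5v) (hm : 3 ≤ m) {a : Matrix (Fin n) (Fin n) ℝ}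
    (ha : K.lie a) {v : Fin n → ℝ} (hv : v ∈ V0 K) : a *ᵥ v ∈ V0 K := by
  obtain ⟨X, ξ, hX, hXa⟩ := ha
  have hc := (hE5v g A n m K hm).1 X _ ((hK2c g A X ξ hX).1) hXa
  have hvC : (fun i => (v i : ℂ)) ∈ K.Tl (K.lam : ℂ) := by
    rw [← cplx_V0, mem_cplx]
    refine ⟨by simpa using hv, ?_⟩
    have : (fun i : Fin n => ((v i : ℂ)).im) = 0 := by funext i; simp
    rw [this]; exact Submodule.zero_mem _
  have h1 : (a.map Complex.ofReal) *ᵥ (fun i => (v i : ℂ)) ∈ K.Tl (K.lam : ℂ) := by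
    rw [E5L.mem_Tl] at hvC ⊢
    rw [Matrix.mulVec_mulVec, ← hc, ← Matrix.mulVec_mulVec, hvC, Matrix.mulVec_smul]
  rw [← cplx_V0, mem_cplx, ofReal_mulVec] at h1
  simpa using h1.1

/-- The complex Lie algebra acting on `T`. -/
def LC (hK2a : Stmt_K2a) : Submodule ℂ (Matrix (Fin n) (Fin n) ℂ) where
  carrier := {a | ∃ (X : Matrix (Idx g) (Idx g) ℂ) (ξ : ℂ), InLie (Gam A) X ξ ∧
    ∀ v, X * K.cl v - K.cl v * X = K.cl (a *ᵥ v)}
  add_mem' := by
    rintro a b ⟨X, ξ, hX, hXa⟩ ⟨Y, η, hY, hYb⟩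
    refine ⟨X + (1 : ℂ) • Y, ξ + 1 * η, (hK2a (Idx g) (Gam A)).1 X Y ξ η 1 hX hY, fun v => ?_⟩
    rw [Matrix.add_mulVec, cl_add, ← hXa, ← hYb, one_smul, add_mul, mul_add]
    abel
  zero_mem' := by
    refine ⟨0, 0, (hK2a (Idx g) (Gam A)).2.1, fun v => ?_⟩
    rw [Matrix.zero_mulVec, cl_zero, zero_mul, mul_zero, sub_zero]
  smul_mem' := by
    rintro c a ⟨X, ξ, hX, hXa⟩
    refine ⟨0 + c • X, 0 + c * ξ, (hK2a (Idx g) (Gam A)).1 0 X 0 ξ c
      (hK2a (Idx g) (Gam A)).2.1 hX, fun v => ?_⟩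
    rw [Matrix.smul_mulVec, cl_smul, ← hXa, zero_add, smul_sub, Matrix.smul_mul, Matrix.mul_smul]

theorem LC_map (hK2a : Stmt_K2a) (hK2b : Stmt_K2b) (hG4 : Stmt_Gb4) (σ : ℂ ≃ₐ[ℚ] ℂ)
    {a : Matrix (Fin n) (Fin n) ℂ} (ha : a ∈ LC K hK2a) : a.map σ ∈ LC K hK2a := by
  obtain ⟨X, ξ, hX, hXa⟩ := ha
  refine ⟨X.map σ, σ ξ,
    hK2b (Idx g) (Gam A) (fun σ p hp q h1 h2 => hG4 g A σ p hp q h1 h2) σ X ξ hX, fun w => ?_⟩
  have h1 := congrArg (fun Z : Matrix (Idx g) (Idx g) ℂ => Z.map σ) (hXa fun i => σ.symm (w i))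
  have h3 : ∀ Z Z' : Matrix (Idx g) (Idx g) ℂ, (Z * Z').map σ = Z.map σ * Z'.map σ :=
    fun Z Z' => Matrix.map_mul (f := (σ : ℂ →+* ℂ))
  have h4 : ∀ Z Z' : Matrix (Idx g) (Idx g) ℂ, (Z - Z').map σ = Z.map σ - Z'.map σ := by
    intro Z Z'
    ext i j
    rw [Matrix.map_apply, Matrix.sub_apply, map_sub, Matrix.sub_apply, Matrix.map_apply,
      Matrix.map_apply]
  simp only [h4, h3] at h1
  rw [← E5X.cl_map, ← E5X.cl_map] at h1
  have h5 : (fun i => σ (σ.symm (w i))) = w := by funext i; simp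
  rw [h5] at h1
  rw [h1]
  congr 1
  funext i
  simp only [Matrix.mulVec, dotProduct, map_sum, map_mul, Matrix.map_apply, AlgEquiv.apply_symm_apply]

theorem wm_map (σ : ℂ ≃ₐ[ℚ] ℂ) (x y : Fin n → ℂ) :
    (E5L.wm K x y).map σ = E5L.wm K (fun i => σ (x i)) (fun i => σ (y i)) := by
  ext i j
  simp only [E5L.wm, Matrix.map_apply, Matrix.of_apply, map_sub, map_mul]
  have h : σ (K.q j : ℂ) = (K.q j : ℂ) := by simp
  rw [h]

/-- From the real place to all the eigenspaces. -/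
theorem all_roots (hK2a : Stmt_K2a) (hK2b : Stmt_K2b) (hG4 : Stmt_Gb4)
    (h0 : ∀ x ∈ V0 K, ∀ y ∈ V0 K, E5L.wm K (fun i => (x i : ℂ)) (fun i => (y i : ℂ)) ∈ LC K hK2a)
    {a : Matrix (Fin n) (Fin n) ℂ} (ha : a ∈ K.S) : a ∈ LC K hK2a := by
  -- complexify
  have hx : ∀ x ∈ V0 K, ∀ y ∈ K.Tl (K.lam : ℂ), E5L.wm K (fun i => (x i : ℂ)) y ∈ LC K hK2a := by
    intro x hx y hy
    rw [← cplx_V0, mem_cplx] at hy
    have h1 : E5L.wm K (fun i => (x i : ℂ)) y =
        E5L.wm K (fun i => (x i : ℂ)) (fun i => (((y i).re : ℝ) : ℂ)) +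
        Complex.I • E5L.wm K (fun i => (x i : ℂ)) (fun i => (((y i).im : ℝ) : ℂ)) := by
      ext i j
      have e1 : y i = ((y i).re : ℂ) + ((y i).im : ℂ) * Complex.I := (Complex.re_add_im _).symm
      have e2 : y j = ((y j).re : ℂ) + ((y j).im : ℂ) * Complex.I := (Complex.re_add_im _).symm
      simp only [E5L.wm, Matrix.add_apply, Matrix.smul_apply, Matrix.of_apply, smul_eq_mul]
      conv_lhs => rw [e1, e2]
      ring
    rw [h1]
    exact Submodule.add_mem _ (h0 x hx _ hy.1) (Submodule.smul_mem _ _ (h0 x hx _ hy.2))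
  have hxy : ∀ x ∈ K.Tl (K.lam : ℂ), ∀ y ∈ K.Tl (K.lam : ℂ), E5L.wm K x y ∈ LC K hK2a := by
    intro x hx' y hy
    rw [← cplx_V0, mem_cplx] at hx'
    have h1 : E5L.wm K x y = E5L.wm K (fun i => (((x i).re : ℝ) : ℂ)) y +
        Complex.I • E5L.wm K (fun i => (((x i).im : ℝ) : ℂ)) y := by
      ext i j
      have e1 : x i = ((x i).re : ℂ) + ((x i).im : ℂ) * Complex.I := (Complex.re_add_im _).symm
      have e2 : x j = ((x j).re : ℂ) + ((x j).im : ℂ) * Complex.I := (Complex.re_add_im _).symm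
      simp only [E5L.wm, Matrix.add_apply, Matrix.smul_apply, Matrix.of_apply, smul_eq_mul]
      conv_lhs => rw [e1, e2]
      ring
    rw [h1]
    exact Submodule.add_mem _ (hx _ hx'.1 y hy) (Submodule.smul_mem _ _ (hx _ hx'.2 y hy))
  have hz : ∀ z : ℂ, aeval z K.P = 0 → ∀ x ∈ K.Tl z, ∀ y ∈ K.Tl z, E5L.wm K x y ∈ LC K hK2a := by
    intro z hz x hx y hy
    obtain ⟨σ, hσ⟩ := E5L.exists_aut K.irr (lam_rootC K) hz
    have hσ' : σ.symm z = (K.lam : ℂ) := by rw [← hσ]; simp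
    have h1 := E5L.map_Tl K σ.symm hx
    have h2 := E5L.map_Tl K σ.symm hy
    rw [hσ'] at h1 h2
    have h3 := LC_map K hK2a hK2b hG4 σ (hxy _ h1 _ h2)
    rw [wm_map] at h3
    simpa using h3
  have hspan := DUAL.mem_span K ha
  refine Submodule.span_le.2 ?_ hspan
  rintro w ⟨z, x, y, hz', hx', hy', rfl⟩
  exact hz z hz' x hx' y hy'

end kse

end E8Y

open E8Y in
/-- E8B. -/
theorem E8b_proof (hK2a : Stmt_K2a) (hK2b : Stmt_K2b) (hG4 : Stmt_Gb4) (hK2c : Stmt_K2c)
    (hK6 : Stmt_K6) (hK7E : Stmt_K7E) (hE2d : Stmt_E2d) (hE5a : Stmt_E5a) (hE5v : Stmt_E5v)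
    (hE5l : Stmt_E5l) (hE5d : Stmt_E5d) (hE8a : Stmt_E8a) : Stmt_E8b := by
  intro g A n m K hm hm5 a ha
  set qR : Fin n → ℝ := fun i => (K.q i : ℝ) with hqR
  let l := lieSub K hK2a
  have hfin := finrank_V0 K hm hE5l
  have hn2 : 2 ≤ n := by
    have h1 := K.dim
    have h2 : 0 < K.P.natDegree := K.irr.natDegree_pos
    nlinarith
  have hpres : ∀ a ∈ l, ∀ v ∈ V0 K, a *ᵥ v ∈ V0 K := fun a ha v hv =>
    lie_pres K hK2c hE5v hm ha hv
  have hskew : ∀ a ∈ l, aᵀ * Matrix.diagonal qR + Matrix.diagonal qR * a = 0 :=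
    fun a ha => lie_skew K hE5a ha
  have hbrk : ∀ a ∈ l, ∀ b ∈ l, a * b - b * a ∈ l := fun a ha b hb => lie_brk K hK2a ha hb
  have hirr : ∀ W : Submodule ℂ (Fin n → ℂ), W ≤ cplx (V0 K) →
      (∀ a ∈ l, ∀ v ∈ W, (a.map Complex.ofReal) *ᵥ v ∈ W) → W = ⊥ ∨ W = cplx (V0 K) := by
    intro W hW hstab
    have h1 := hE5d g A n m K hm W (lie_stab K hK2a hK2b hG4 hE2d W hstab)
    rw [cplx_V0] at hW ⊢
    exact (hE5l g A n m K hm).2.2.2.2.2.2.1 _ W hW h1
  have hhyp : ∀ a ∈ l, ∃ h ∈ l, IsHypPart a h := by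
    intro a ha
    obtain ⟨h, h1, h2⟩ := lie_hyp K hE8a ha
    exact ⟨h, h1, h2⟩
  have hlog : ∀ as : List (Matrix (Fin n) (Fin n) ℝ), (∀ a ∈ as, a ∈ l) →
      ∃ h ∈ l, IsHypLog (as.map fun a => NormedSpace.exp a).prod h := by
    intro as has
    obtain ⟨h, h1, h2⟩ := hE8a g A n m K as has
    exact ⟨h, h1, h2⟩
  have hcast : ∀ i, (0 < qR i ↔ 0 < K.q i) ∧ (qR i < 0 ↔ K.q i < 0) := by
    intro i
    simp only [hqR]
    constructor
    · exact_mod_cast Iff.rfl
    · exact_mod_cast Iff.rfl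
  -- the real matrices x ∧ y
  have key : ∀ x ∈ V0 K, ∀ y ∈ V0 K, ∀ a : Matrix (Fin n) (Fin n) ℝ,
      (∀ v, a *ᵥ v = (∑ i, qR i * y i * v i) • x - (∑ i, qR i * x i * v i) • y) → a ∈ l := by
    rcases K.sig with ⟨hs, hs2⟩ | ⟨hs, hs2⟩
    · have hL : LHypE n qR (V0 K) l :=
        { n2 := hn2
          qpos := fun i hi => by rw [(hcast i).1, hs]; exact hi
          qneg := fun i hi => by
            have h1 : ¬ 0 < K.q i := by rw [hs]; omega
            rw [(hcast i).2]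
            exact lt_of_le_of_ne (not_lt.1 h1) (K.q_ne i)
          neg := fun v hv hv0 => by
            refine hs2 v hv0 fun w hw => ?_
            rw [← hv w hw]
            exact Finset.sum_congr rfl fun i _ => by simp only [hqR]; ring
          dim := by rw [hfin]; exact hm5
          pres := hpres
          skew := hskew
          brk := hbrk
          irr := hirr
          hyp := hhyp }
      exact real_main hK6 hK7E hL (by rw [hfin]; exact hm) hlog
    · have hneg : ∀ a : Matrix (Fin n) (Fin n) ℝ,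
          aᵀ * Matrix.diagonal qR + Matrix.diagonal qR * a = 0 →
          aᵀ * Matrix.diagonal (fun i => - qR i) + Matrix.diagonal (fun i => - qR i) * a = 0 := by
        intro a ha
        have h1 : Matrix.diagonal (fun i => - qR i) = - Matrix.diagonal qR := by
          rw [← Matrix.diagonal_neg]
        rw [h1, Matrix.mul_neg, Matrix.neg_mul, ← neg_add, ha, neg_zero]
      have hL : LHypE n (fun i => - qR i) (V0 K) l :=
        { n2 := hn2
          qpos := fun i hi => by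
            have h1 : qR i < 0 := by rw [(hcast i).2, hs]; exact hi
            linarith
          qneg := fun i hi => by
            have h1 : ¬ K.q i < 0 := by rw [hs]; omega
            have h2 : 0 < qR i := by
              rw [(hcast i).1]
              exact lt_of_le_of_ne (not_lt.1 h1) (K.q_ne i).symm
            linarith
          neg := fun v hv hv0 => by
            have h1 := hs2 v hv0 fun w hw => by
              have h2 := hv w hw
              have h3 : ∑ i, -qR i * w i * v i = -∑ i, (K.q i : ℝ) * v i * w i := by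
                rw [← Finset.sum_neg_distrib]
                exact Finset.sum_congr rfl fun i _ => by simp only [hqR]; ring
              rw [h3] at h2
              linarith
            have h3 : ∑ i, -qR i * v i * v i = -∑ i, (K.q i : ℝ) * v i * v i := by
              rw [← Finset.sum_neg_distrib]
              exact Finset.sum_congr rfl fun i _ => by simp only [hqR]; ring
            rw [h3]
            linarith
          dim := by rw [hfin]; exact hm5
          pres := hpres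
          skew := fun a ha => hneg a (hskew a ha)
          brk := hbrk
          irr := hirr
          hyp := hhyp }
      intro x hx y hy a ha
      refine real_main hK6 hK7E hL (by rw [hfin]; exact hm) hlog y hy x hx a fun v => ?_
      rw [ha v]
      have h3 : ∀ y : Fin n → ℝ, ∑ i, -qR i * y i * v i = -∑ i, qR i * y i * v i := by
        intro y
        rw [← Finset.sum_neg_distrib]
        exact Finset.sum_congr rfl fun i _ => by ring
      rw [h3, h3, neg_smul, neg_smul]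
      abel
  refine all_roots K hK2a hK2b hG4 (fun x hx y hy => ?_) ha
  have h1 := key x hx y hy (Matrix.of fun i j => x i * (qR j * y j) - y i * (qR j * x j)) (by
    intro v
    ext i
    simp only [Matrix.mulVec, dotProduct, Matrix.of_apply, Pi.sub_apply, Pi.smul_apply,
      smul_eq_mul, Finset.sum_mul]
    rw [← Finset.sum_sub_distrib]
    exact Finset.sum_congr rfl fun j _ => by ring)
  obtain ⟨X, ξ, hX, hXa⟩ := h1
  refine ⟨X, ξ, hX, fun v => ?_⟩
  rw [hXa v]
  congr 2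
  ext i j
  simp only [Matrix.map_apply, Matrix.of_apply, E5L.wm, hqR]
  push_cast
  ring

end

end Pool.Agent.K3E
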