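import Pool.Agent.K3E.E5l

/-!
# Dual bases of the eigenspaces of `E`; `so_E(T)` is spanned by the `x ∧ y` with `x`, `y` in one eigenspace
-/

set_option autoImplicit false

open scoped BigOperators
open Matrix Polynomial

namespace Pool.Agent.K3E

open Pool.Agent.DRB Pool.Agent.K3D

namespace DUAL

variable {g n m : ℕ} {A : AbVar g} (K : KSE A n m)

/-- Dual bases of `Tl z`. -/
theorem dual (z : ℂ) : ∃ b b' : Fin (Module.finrank ℂ (K.Tl z)) → (Fin n → ℂ),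
    (∀ j, b j ∈ K.Tl z) ∧ (∀ j, b' j ∈ K.Tl z) ∧
    (∀ i j, K.bil (b' i) (b j) = if j = i then 1 else 0) ∧
    (∀ v ∈ K.Tl z, ∑ j, K.bil (b' j) v • b j = v) ∧
    (∀ v ∈ K.Tl z, ∑ j, K.bil (b j) v • b' j = v) := by
  classical
  let B : LinearMap.BilinForm ℂ (K.Tl z) := (E5L.bf K).domRestrict₁₂ (K.Tl z) (K.Tl z)
  have hB : ∀ x y : K.Tl z, B x y = K.bil x.1 y.1 := fun x y => rfl
  have hl : ∀ x : K.Tl z, (∀ y : K.Tl z, B x y = 0) → x = 0 := by
    intro x hx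
    apply Subtype.ext
    refine E5L.nondegT K x.2 fun w hw => ?_
    exact hx ⟨w, hw⟩
  have hnd : B.Nondegenerate := by
    refine ⟨hl, fun y hy => hl y fun x => ?_⟩
    rw [hB, E5L.bil_comm]
    exact hy x
  let b := Module.finBasis ℂ (K.Tl z)
  let b' := B.dualBasis hnd b
  have h1 : ∀ i j, B (b' i) (b j) = if j = i then 1 else 0 := fun i j =>
    LinearMap.BilinForm.apply_dualBasis_left hnd b i j
  have h2 : ∀ v : K.Tl z, ∑ j, B (b' j) v • b j = v := by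
    intro v
    conv_rhs => rw [← b.sum_repr v]
    refine Finset.sum_congr rfl fun j _ => ?_
    congr 1
    conv_lhs => rw [← b.sum_repr v, map_sum]
    rw [Finset.sum_eq_single j]
    · rw [map_smul, h1, if_pos rfl, smul_eq_mul, mul_one]
    · intro i _ hij
      rw [map_smul, h1, if_neg hij, smul_zero]
    · intro h; exact absurd (Finset.mem_univ j) h
  have h3 : ∀ v : K.Tl z, ∑ j, B (b j) v • b' j = v := by
    intro v
    conv_rhs => rw [← b'.sum_repr v]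
    refine Finset.sum_congr rfl fun j _ => ?_
    congr 1
    rw [LinearMap.BilinForm.dualBasis_repr_apply, hB, hB, E5L.bil_comm]
  refine ⟨fun j => (b j).1, fun j => (b' j).1, fun j => (b j).2, fun j => (b' j).2, h1, ?_, ?_⟩
  · intro v hv
    have := congrArg Subtype.val (h2 ⟨v, hv⟩)
    rw [Submodule.coe_sum] at this
    exact this
  · intro v hv
    have := congrArg Subtype.val (h3 ⟨v, hv⟩)
    rw [Submodule.coe_sum] at this
    exact this

theorem bil_skew {a : Matrix (Fin n) (Fin n) ℂ} (ha : a ∈ K.S) (v w : Fin n → ℂ) :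
    K.bil (a *ᵥ v) w = -K.bil v (a *ᵥ w) := by
  have h : aᵀ * Matrix.diagonal (fun i => (K.q i : ℂ)) =
      -(Matrix.diagonal (fun i => (K.q i : ℂ)) * a) := eq_neg_of_add_eq_zero_left ha.1
  rw [E5L.bil_dot, E5L.bil_dot, Matrix.mulVec_mulVec, ← neg_neg (Matrix.diagonal _ * a), ← h,
    Matrix.neg_mulVec, dotProduct_neg, neg_neg, ← Matrix.mulVec_mulVec,
    Matrix.dotProduct_mulVec v, Matrix.vecMul_transpose]

/-- The component of `a` at `z`. -/
theorem comp {a : Matrix (Fin n) (Fin n) ℂ} (ha : a ∈ K.S) (z : ℂ)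
    (b b' : Fin (Module.finrank ℂ (K.Tl z)) → (Fin n → ℂ))
    (hb : ∀ j, b j ∈ K.Tl z) (hb' : ∀ j, b' j ∈ K.Tl z)
    (h1 : ∀ v ∈ K.Tl z, ∑ j, K.bil (b' j) v • b j = v)
    (h2 : ∀ v ∈ K.Tl z, ∑ j, K.bil (b j) v • b' j = v) :
    (∀ v ∈ K.Tl z, (∑ j, (1 / 2 : ℂ) • E5L.wm K (a *ᵥ b j) (b' j)) *ᵥ v = a *ᵥ v) ∧
    (∀ z' : ℂ, z' ≠ z → ∀ v ∈ K.Tl z',
      (∑ j, (1 / 2 : ℂ) • E5L.wm K (a *ᵥ b j) (b' j)) *ᵥ v = 0) := by
  refine ⟨?_, ?_⟩
  · intro v hv
    have hav := E5L.S_pres K ha hv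
    rw [Matrix.sum_mulVec]
    have h3 : ∀ j, ((1 / 2 : ℂ) • E5L.wm K (a *ᵥ b j) (b' j)) *ᵥ v =
        (1 / 2 : ℂ) • (a *ᵥ (K.bil (b' j) v • b j)) + (1 / 2 : ℂ) • (K.bil (b j) (a *ᵥ v) • b' j) := by
      intro j
      rw [Matrix.smul_mulVec, E5L.wm_mulVec, bil_skew K ha, neg_smul, sub_neg_eq_add, smul_add,
        Matrix.mulVec_smul]
    rw [Finset.sum_congr rfl fun j _ => h3 j, Finset.sum_add_distrib, ← Finset.smul_sum,
      ← Finset.smul_sum, h2 _ hav]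
    have h4 : ∑ j, a *ᵥ (K.bil (b' j) v • b j) = a *ᵥ v := by
      conv_rhs => rw [← h1 v hv]
      exact (map_sum (Matrix.mulVecLin a) _ _).symm
    rw [h4, ← add_smul]
    norm_num
  · intro z' hz v hv
    rw [Matrix.sum_mulVec]
    refine Finset.sum_eq_zero fun j _ => ?_
    rw [Matrix.smul_mulVec, E5L.wm_mulVec, E5L.orth K (Ne.symm hz) (hb' j) hv,
      E5L.orth K (Ne.symm hz) (E5L.S_pres K ha (hb j)) hv, zero_smul, zero_smul, sub_zero, smul_zero]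

/-- `so_E(T)` is spanned by the `x ∧ y` with `x`, `y` in one eigenspace. -/
theorem mem_span {a : Matrix (Fin n) (Fin n) ℂ} (ha : a ∈ K.S) :
    a ∈ Submodule.span ℂ {w : Matrix (Fin n) (Fin n) ℂ | ∃ (z : ℂ) (x y : Fin n → ℂ),
      aeval z K.P = 0 ∧ x ∈ K.Tl z ∧ y ∈ K.Tl z ∧ w = E5L.wm K x y} := by
  classical
  choose b b' hb hb' h0 h1 h2 using fun z => dual K z
  let R : Finset ℂ := (K.P.aroots ℂ).toFinset
  have hR : ∀ w, w ∈ R ↔ aeval w K.P = 0 := by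
    intro w
    rw [Multiset.mem_toFinset, Polynomial.mem_aroots]
    exact ⟨fun h => h.2, fun h => ⟨K.irr.ne_zero, h⟩⟩
  have key : a = ∑ z ∈ R, ∑ j, (1 / 2 : ℂ) • E5L.wm K (a *ᵥ b z j) (b' z j) := by
    refine E5L.mat_ext fun v => ?_
    have hle : (⨆ z ∈ {z : ℂ | aeval z K.P = 0}, K.Tl z) ≤ LinearMap.ker
        (Matrix.mulVecLin (a - ∑ z ∈ R, ∑ j, (1 / 2 : ℂ) • E5L.wm K (a *ᵥ b z j) (b' z j))) := by
      refine iSup₂_le fun z hz w hw => ?_
      rw [LinearMap.mem_ker, Matrix.mulVecLin_apply, Matrix.sub_mulVec, Matrix.sum_mulVec,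
        Finset.sum_eq_single z]
      · rw [(comp K ha z (b z) (b' z) (hb z) (hb' z) (h1 z) (h2 z)).1 w hw, sub_self]
      · intro z' _ hzz'
        exact (comp K ha z' (b z') (b' z') (hb z') (hb' z') (h1 z') (h2 z')).2 z (Ne.symm hzz') w hw
      · intro h; exact absurd ((hR z).2 hz) h
    have h3 := hle (E5L.top' K v)
    rw [LinearMap.mem_ker, Matrix.mulVecLin_apply, Matrix.sub_mulVec] at h3
    exact sub_eq_zero.1 h3
  rw [key]
  refine Submodule.sum_mem _ fun z hz => Submodule.sum_mem _ fun j _ => Submodule.smul_mem _ _ ?_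
  exact Submodule.subset_span ⟨z, _, _, (hR z).1 hz, E5L.S_pres K ha (hb z j), hb' z j, rfl⟩

end DUAL

end Pool.Agent.K3E
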