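import Pool.Agent.K3E.Stmts2
import Pool.Agent.K3E.Dual

/-!
# E8c: removing the scalars, `so_E(T)` is perfect
-/

set_option autoImplicit false

open scoped BigOperators
open Matrix Polynomial

namespace Pool.Agent.K3E

open Pool.Agent.DRB Pool.Agent.K3D

namespace E8C

variable {g n m : ℕ} {A : AbVar g} (K : KSE A n m)

theorem cl_add (v w : Fin n → ℂ) : K.cl (v + w) = K.cl v + K.cl w := by
  simp [KSE.cl, add_smul, Finset.sum_add_distrib]

theorem cl_sub (v w : Fin n → ℂ) : K.cl (v - w) = K.cl v - K.cl w := by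
  simp [KSE.cl, sub_smul, Finset.sum_sub_distrib]

theorem Z_add (a b : Matrix (Fin n) (Fin n) ℂ) : K.Z (a + b) = K.Z a + K.Z b := by
  unfold KSE.Z
  rw [← Finset.sum_add_distrib]
  refine Finset.sum_congr rfl fun i _ => ?_
  rw [Matrix.add_mulVec, cl_add, add_mul, smul_add]

theorem Z_smul (c : ℂ) (a : Matrix (Fin n) (Fin n) ℂ) : K.Z (c • a) = c • K.Z a := by
  unfold KSE.Z
  rw [Finset.smul_sum]
  refine Finset.sum_congr rfl fun i _ => ?_
  have h : K.cl ((c • a) *ᵥ Pi.single i 1) = c • K.cl (a *ᵥ Pi.single i 1) := by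
    rw [Matrix.smul_mulVec]
    simp [KSE.cl, Finset.smul_sum, smul_smul]
  rw [h, Matrix.smul_mul, smul_comm]

/-- The lift as a linear map. -/
noncomputable def ZL : Matrix (Fin n) (Fin n) ℂ →ₗ[ℂ] Matrix (Idx g) (Idx g) ℂ where
  toFun := K.Z
  map_add' := Z_add K
  map_smul' := Z_smul K

/-- The elements of the Lie algebra with multiplier zero. -/
noncomputable def L0 (hK2a : Stmt_K2a) : Submodule ℂ (Matrix (Idx g) (Idx g) ℂ) where
  carrier := {X | InLie (Gam A) X 0}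
  add_mem' := by
    intro X Y hX hY
    have := (hK2a _ (Gam A)).1 X Y 0 0 1 hX hY
    simpa using this
  zero_mem' := (hK2a _ (Gam A)).2.1
  smul_mem' := by
    intro c X hX
    have := (hK2a _ (Gam A)).1 0 X 0 0 c (hK2a _ (Gam A)).2.1 hX
    simpa using this

/-- The trace of the lift of a skew map vanishes. -/
theorem trace_Z (h5a : Stmt_E5a) {a : Matrix (Fin n) (Fin n) ℂ} (ha : a ∈ K.S) :
    (K.Z a).trace = 0 := by
  have hr := (h5a g A n m K).1
  have htr : ∀ v w, (K.cl v * K.cl w).trace = K.bil v w * (Fintype.card (Idx g) : ℂ) := by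
    intro v w
    have h1 := congrArg Matrix.trace (hr v w)
    rw [Matrix.trace_add, Matrix.trace_mul_comm (K.cl w), Matrix.trace_smul, Matrix.trace_one,
      smul_eq_mul] at h1
    linear_combination (1 / 2) * h1
  unfold KSE.Z
  rw [Matrix.trace_sum]
  refine Finset.sum_eq_zero fun i _ => ?_
  have h2 : K.bil (a *ᵥ Pi.single i 1) (Pi.single i 1) = 0 := by
    have h3 := DUAL.bil_skew K ha (Pi.single i 1) (Pi.single i 1)
    rw [E5L.bil_comm K (Pi.single i 1) (a *ᵥ Pi.single i 1)] at h3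
    linear_combination (1 / 2) * h3
  rw [Matrix.trace_smul, htr, h2, zero_mul, smul_zero]

theorem comm_mem_S {a b : Matrix (Fin n) (Fin n) ℂ} (ha : a ∈ K.S) (hb : b ∈ K.S) :
    a * b - b * a ∈ K.S := by
  obtain ⟨h1, h2⟩ := ha
  obtain ⟨h3, h4⟩ := hb
  set D := Matrix.diagonal (fun i => (K.q i : ℂ)) with hD
  have h1' : aᵀ * D = -(D * a) := eq_neg_of_add_eq_zero_left h1
  have h3' : bᵀ * D = -(D * b) := eq_neg_of_add_eq_zero_left h3
  refine ⟨?_, ?_⟩
  · change (a * b - b * a)ᵀ * D + D * (a * b - b * a) = 0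
    rw [Matrix.transpose_sub, Matrix.transpose_mul, Matrix.transpose_mul, sub_mul, mul_assoc,
      mul_assoc, h1', h3', mul_neg, mul_neg, ← mul_assoc, ← mul_assoc, h1', h3', mul_sub]
    simp only [neg_mul, mul_assoc]
    abel
  · rw [sub_mul, mul_sub, mul_assoc, h4, ← mul_assoc, h2, mul_assoc b, h2, ← mul_assoc b, h4]
    simp only [mul_assoc]

/-- The lift of a commutator. -/
theorem lie_comm (hK2a : Stmt_K2a) (hK2c : Stmt_K2c) (h5a : Stmt_E5a)
    (H : ∀ a ∈ K.S, ∃ (X : Matrix (Idx g) (Idx g) ℂ) (ξ : ℂ), InLie (Gam A) X ξ ∧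
      ∀ v, X * K.cl v - K.cl v * X = K.cl (a *ᵥ v))
    {a b : Matrix (Fin n) (Fin n) ℂ} (ha : a ∈ K.S) (hb : b ∈ K.S) :
    K.Z (a * b - b * a) ∈ L0 (A := A) hK2a := by
  obtain ⟨-, -, hlift, hsc, -, hend⟩ := h5a g A n m K
  have hskew : ∀ {a : Matrix (Fin n) (Fin n) ℂ}, a ∈ K.S → ∀ v w,
      K.bil (a *ᵥ v) w + K.bil v (a *ᵥ w) = 0 := by
    intro a ha v w
    rw [DUAL.bil_skew K ha, neg_add_cancel]
  have key : ∀ {a : Matrix (Fin n) (Fin n) ℂ}, a ∈ K.S → ∃ (c ξ : ℂ),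
      InLie (Gam A) (K.Z a + c • 1) ξ := by
    intro a ha
    obtain ⟨X, ξ, hX, hXa⟩ := H a ha
    obtain ⟨c, hc⟩ := hsc (X - K.Z a)
      (fun α hα => by rw [sub_mul, mul_sub, (hK2c g A X ξ hX).1 α hα, hend α hα a ha])
      (fun v => by
        have h1 := hXa v
        have h2 := hlift a (hskew ha) v
        rw [sub_mul, mul_sub, sub_eq_sub_iff_add_eq_add]
        have h3 : X * K.cl v - K.cl v * X = K.Z a * K.cl v - K.cl v * K.Z a := by rw [h1, h2]
        rw [sub_eq_sub_iff_add_eq_add] at h3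
        rw [h3, add_comm])
    refine ⟨c, ξ, ?_⟩
    rw [← hc, add_sub_cancel]
    exact hX
  obtain ⟨c, ξ, h1⟩ := key ha
  obtain ⟨d, η, h2⟩ := key hb
  have h3 := (hK2a _ (Gam A)).2.2.1 _ _ _ _ h1 h2
  have h4 : (K.Z a + c • 1) * (K.Z b + d • 1) - (K.Z b + d • 1) * (K.Z a + c • 1) =
      K.Z a * K.Z b - K.Z b * K.Z a := by
    simp only [add_mul, mul_add, Matrix.smul_mul, Matrix.mul_smul, one_mul, mul_one]
    rw [smul_comm c d]
    abel
  rw [h4] at h3
  have hab := comm_mem_S K ha hb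
  obtain ⟨e, he⟩ := hsc (K.Z a * K.Z b - K.Z b * K.Z a - K.Z (a * b - b * a))
    (fun α hα => by
      have e1 := hend α hα a ha
      have e2 := hend α hα b hb
      have e3 := hend α hα _ hab
      rw [sub_mul, sub_mul, mul_sub, mul_sub, e3, mul_assoc, e2, ← mul_assoc, e1, mul_assoc (K.Z b), e1,
        ← mul_assoc (K.Z b), e2]
      simp only [mul_assoc])
    (fun v => by
      have e1 := hlift a (hskew ha)
      have e2 := hlift b (hskew hb)
      have e3 := hlift _ (hskew hab) v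
      have e4 : K.cl ((a * b - b * a) *ᵥ v) = K.cl (a *ᵥ (b *ᵥ v)) - K.cl (b *ᵥ (a *ᵥ v)) := by
        rw [Matrix.sub_mulVec, ← Matrix.mulVec_mulVec, ← Matrix.mulVec_mulVec, cl_sub]
      have e5 : (K.Z a * K.Z b - K.Z b * K.Z a) * K.cl v - K.cl v * (K.Z a * K.Z b - K.Z b * K.Z a) =
          K.cl (a *ᵥ (b *ᵥ v)) - K.cl (b *ᵥ (a *ᵥ v)) := by
        rw [← e1 (b *ᵥ v), ← e2 (a *ᵥ v), ← e1 v, ← e2 v]
        noncomm_ring
      have e6 : (K.Z a * K.Z b - K.Z b * K.Z a) * K.cl v - K.cl v * (K.Z a * K.Z b - K.Z b * K.Z a) =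
          K.Z (a * b - b * a) * K.cl v - K.cl v * K.Z (a * b - b * a) := by
        rw [e5, e3, e4]
      rw [sub_mul _ (K.Z (a * b - b * a)), mul_sub (K.cl v) _ (K.Z (a * b - b * a))]
      rw [sub_eq_sub_iff_add_eq_add] at e6 ⊢
      rw [e6, add_comm])
  have h5 : e = 0 := by
    have h6 := congrArg Matrix.trace he
    rw [Matrix.trace_sub, Matrix.trace_sub, Matrix.trace_mul_comm (K.Z a), sub_self,
      trace_Z K h5a hab, sub_zero, Matrix.trace_smul, Matrix.trace_one, smul_eq_mul] at h6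
    have h7 : (Fintype.card (Idx g) : ℂ) ≠ 0 := by
      have : 0 < Fintype.card (Idx g) := by
        have := K.pos
        have : Nonempty (Fin g) := ⟨⟨0, this⟩⟩
        exact Fintype.card_pos
      exact_mod_cast this.ne'
    rcases mul_eq_zero.1 h6.symm with h | h
    · exact h
    · exact absurd h h7
  rw [h5, zero_smul, sub_eq_zero] at he
  change InLie (Gam A) (K.Z (a * b - b * a)) 0
  rw [← he]
  exact h3

/-- `∑_k [x ∧ e_k, e^k ∧ y] = (dim - 2) x ∧ y`. -/
theorem comm_sum {z : ℂ} {x y : Fin n → ℂ} (hx : x ∈ K.Tl z) (hy : y ∈ K.Tl z)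
    (b b' : Fin (Module.finrank ℂ (K.Tl z)) → (Fin n → ℂ))
    (hb : ∀ j, b j ∈ K.Tl z) (hb' : ∀ j, b' j ∈ K.Tl z)
    (h0 : ∀ i j, K.bil (b' i) (b j) = if j = i then 1 else 0)
    (h1 : ∀ v ∈ K.Tl z, ∑ j, K.bil (b' j) v • b j = v)
    (h2 : ∀ v ∈ K.Tl z, ∑ j, K.bil (b j) v • b' j = v) :
    ∑ j, (E5L.wm K x (b j) * E5L.wm K (b' j) y - E5L.wm K (b' j) y * E5L.wm K x (b j)) =
      ((Module.finrank ℂ (K.Tl z) : ℂ) - 2) • E5L.wm K x y := by
  classical
  have hlin : ∀ (c d : ℂ) (u v w : Fin n → ℂ),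
      K.bil u (c • v - d • w) = c * K.bil u v - d * K.bil u w := by
    intro c d u v w
    rw [← E5L.bf_apply, ← E5L.bf_apply, ← E5L.bf_apply, map_sub, map_smul, map_smul, smul_eq_mul,
      smul_eq_mul]
  have hdiag : ∀ j, K.bil (b' j) (b j) = 1 := fun j => by rw [h0, if_pos rfl]
  refine E5L.mat_ext fun v => ?_
  have hle : (⨆ z ∈ {z : ℂ | aeval z K.P = 0}, K.Tl z) ≤ LinearMap.ker (Matrix.mulVecLin
      (∑ j, (E5L.wm K x (b j) * E5L.wm K (b' j) y - E5L.wm K (b' j) y * E5L.wm K x (b j)) -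
        ((Module.finrank ℂ (K.Tl z) : ℂ) - 2) • E5L.wm K x y)) := by
    refine iSup₂_le fun z' _ w hw => ?_
    rw [LinearMap.mem_ker, Matrix.mulVecLin_apply, Matrix.sub_mulVec, Matrix.sum_mulVec,
      Matrix.smul_mulVec, sub_eq_zero]
    by_cases hz : z = z'
    · subst hz
      have key : ∀ j, (E5L.wm K x (b j) * E5L.wm K (b' j) y - E5L.wm K (b' j) y * E5L.wm K x (b j)) *ᵥ w =
          K.bil y w • x - K.bil y w • (K.bil (b' j) x • b j) - (K.bil (b' j) w * K.bil (b j) y) • x +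
            K.bil x y • (K.bil (b' j) w • b j) - K.bil x y • (K.bil (b j) w • b' j) +
            (K.bil (b j) w * K.bil (b' j) x) • y + K.bil x w • (K.bil (b j) y • b' j) - K.bil x w • y := by
        intro j
        rw [Matrix.sub_mulVec, ← Matrix.mulVec_mulVec, ← Matrix.mulVec_mulVec, E5L.wm_mulVec,
          E5L.wm_mulVec, E5L.wm_mulVec, E5L.wm_mulVec, hlin, hlin, hlin, hlin,
          E5L.bil_comm K (b j) (b' j), hdiag, E5L.bil_comm K x (b' j), E5L.bil_comm K y x,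
          E5L.bil_comm K y (b j)]
        module
      rw [Finset.sum_congr rfl fun j _ => key j]
      simp only [Finset.sum_add_distrib, Finset.sum_sub_distrib, ← Finset.smul_sum, ← Finset.sum_smul]
      rw [h1 x hx, h1 w hw, h2 w hw, h2 y hy]
      have e1 : ∑ j, K.bil (b' j) w * K.bil (b j) y = K.bil y w := by
        conv_rhs => rw [E5L.bil_comm, ← h1 w hw, ← E5L.bf_apply, map_sum, LinearMap.sum_apply]
        exact Finset.sum_congr rfl fun j _ => by
          rw [map_smul, LinearMap.smul_apply, smul_eq_mul, E5L.bf_apply]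
      have e2 : ∑ j, K.bil (b j) w * K.bil (b' j) x = K.bil x w := by
        conv_rhs => rw [E5L.bil_comm, ← h2 w hw, ← E5L.bf_apply, map_sum, LinearMap.sum_apply]
        exact Finset.sum_congr rfl fun j _ => by
          rw [map_smul, LinearMap.smul_apply, smul_eq_mul, E5L.bf_apply]
      rw [e1, e2, Finset.sum_const, Finset.sum_const, Finset.card_univ, Fintype.card_fin,
        E5L.wm_mulVec, ← Nat.cast_smul_eq_nsmul ℂ, ← Nat.cast_smul_eq_nsmul ℂ]
      module
    · have e : ∀ x' y', x' ∈ K.Tl z → y' ∈ K.Tl z → E5L.wm K x' y' *ᵥ w = 0 := by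
        intro x' y' hx' hy'
        rw [E5L.wm_mulVec, E5L.orth K hz hx' hw, E5L.orth K hz hy' hw, zero_smul, zero_smul, sub_zero]
      rw [e x y hx hy, smul_zero]
      refine Finset.sum_eq_zero fun j _ => ?_
      rw [Matrix.sub_mulVec, ← Matrix.mulVec_mulVec, ← Matrix.mulVec_mulVec, e _ _ hx (hb j),
        e _ _ (hb' j) hy, Matrix.mulVec_zero, Matrix.mulVec_zero, sub_zero]
  have h3 := hle (E5L.top' K v)
  rw [LinearMap.mem_ker, Matrix.mulVecLin_apply, Matrix.sub_mulVec] at h3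
  exact sub_eq_zero.1 h3

end E8C

open E8C in
theorem E8c_proof (hK2a : Stmt_K2a) (hK2c : Stmt_K2c) (h5a : Stmt_E5a) : Stmt_E8c := by
  intro g A n m K hm H a ha
  have hwm : ∀ (z : ℂ) (x y : Fin n → ℂ), aeval z K.P = 0 → x ∈ K.Tl z → y ∈ K.Tl z →
      K.Z (E5L.wm K x y) ∈ L0 (A := A) hK2a := by
    intro z x y hz hx hy
    obtain ⟨b, b', hb, hb', h0, h1, h2⟩ := DUAL.dual K z
    have hd : (Module.finrank ℂ (K.Tl z) : ℂ) - 2 ≠ 0 := by
      rw [E5L.finrank_Tl K hz]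
      intro h
      have h3 : (m : ℂ) = (2 : ℕ) := by
        push_cast
        linear_combination h
      have h4 : m = 2 := by exact_mod_cast h3
      omega
    have h5 : E5L.wm K x y = ((Module.finrank ℂ (K.Tl z) : ℂ) - 2)⁻¹ •
        ∑ j, (E5L.wm K x (b j) * E5L.wm K (b' j) y - E5L.wm K (b' j) y * E5L.wm K x (b j)) := by
      rw [comm_sum K hx hy b b' hb hb' h0 h1 h2, smul_smul, inv_mul_cancel₀ hd, one_smul]
    rw [h5]
    change ZL K _ ∈ _
    rw [map_smul, map_sum]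
    refine Submodule.smul_mem _ _ (Submodule.sum_mem _ fun j _ => ?_)
    exact lie_comm K hK2a hK2c h5a H (E5L.wm_mem K hx (hb j)) (E5L.wm_mem K (hb' j) hy)
  have hsub : Submodule.span ℂ {w : Matrix (Fin n) (Fin n) ℂ | ∃ (z : ℂ) (x y : Fin n → ℂ),
      aeval z K.P = 0 ∧ x ∈ K.Tl z ∧ y ∈ K.Tl z ∧ w = E5L.wm K x y} ≤
      (L0 (A := A) hK2a).comap (ZL K) := by
    rw [Submodule.span_le]
    rintro w ⟨z, x, y, hz, hx, hy, rfl⟩
    exact hwm z x y hz hx hy
  exact hsub (DUAL.mem_span K ha)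

end Pool.Agent.K3E
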