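import Pool.Agent.K3E.Stmts

/-!
# De Rham-Betti conjecture for K3 surfaces, real multiplication: statements, continued
-/

open scoped BigOperators
open Matrix

namespace Pool.Agent.K3E

open Pool.Agent.DRB Pool.Agent.K3D

noncomputable section

/-- E8C. Removing the scalars: `so_E(T)` is perfect. -/
def Stmt_E8c : Prop :=
  ∀ (g : ℕ) (A : AbVar g) (n m : ℕ) (K : KSE A n m), 3 ≤ m →
    (∀ a ∈ K.S, ∃ (X : Matrix (Idx g) (Idx g) ℂ) (ξ : ℂ), InLie (Gam A) X ξ ∧
      ∀ v, X * K.cl v - K.cl v * X = K.cl (a *ᵥ v)) →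
    ∀ a ∈ K.S, InLie (Gam A) (K.Z a) 0

end

end Pool.Agent.K3E
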