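import Pool.Agent.K3D.K9
import Pool.Agent.K3E.E5d
import Pool.Agent.K3E.Stmts2

/-!
# E9: the generator of the Hodge structure belongs to the Lie algebra, and the conclusion
-/

open scoped BigOperators
open Matrix

namespace Pool.Agent.K3E

open Pool.Agent.DRB Pool.Agent.K3D E5A

noncomputable section

namespace E9X

/-- decomposition of the matrices commuting with the endomorphisms and normalizing `T` -/
theorem decomp {g n m : ℕ} {A : AbVar g} (K : KSE A n m) (hK2a : Stmt_K2a) (hK2c : Stmt_K2c) (hK5a : Stmt_E5a)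
    (h5v : Stmt_E5v) (h8 : ∀ a ∈ K.S, InLie (Gam A) (K.Z a) 0) (hn : 3 ≤ m)
    (Y : Matrix (Idx g) (Idx g) ℂ) (h1 : ∀ α, A.IsEnd α → Y * AbVar.toC α = AbVar.toC α * Y)
    (h2 : ∀ v, ∃ w, Y * K.cl v - K.cl v * Y = K.cl w) :
    ∃ (Z : Matrix (Idx g) (Idx g) ℂ) (c : ℂ), InLie (Gam A) Z 0 ∧ Y = Z + c • 1 := by
  obtain ⟨hcl, hinj, hlift, hscal, -, hZend⟩ := hK5a g A n m K
  choose b hb using h2
  have hinj' : ∀ v w, K.cl v = K.cl w → v = w := by
    intro v w h
    have h3 := hinj (v - w) (by rw [E5dX.cl_sub, h, sub_self])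
    exact sub_eq_zero.1 h3
  let f : (Fin n → ℂ) →ₗ[ℂ] (Fin n → ℂ) :=
    { toFun := b
      map_add' := by
        intro v w
        apply hinj'
        rw [← hb, cl_add, cl_add, ← hb, ← hb, mul_add, add_mul]
        abel
      map_smul' := by
        intro c v
        apply hinj'
        rw [← hb, RingHom.id_apply, cl_smul, cl_smul, ← hb, Matrix.mul_smul, Matrix.smul_mul, smul_sub] }
  set a : Matrix (Fin n) (Fin n) ℂ := LinearMap.toMatrix' f with ha
  have hab : ∀ v, a *ᵥ v = b v := by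
    intro v
    rw [ha, LinearMap.toMatrix'_mulVec]
    rfl
  have hact : ∀ v, Y * K.cl v - K.cl v * Y = K.cl (a *ᵥ v) := by
    intro v
    rw [hab, hb]
  have hskew : ∀ v w, K.bil (a *ᵥ v) w + K.bil v (a *ᵥ w) = 0 := by
    intro v w
    have h1 := hcl v w
    have h2 := hcl (a *ᵥ v) w
    have h3 := hcl v (a *ᵥ w)
    rw [← hact v] at h2
    rw [← hact w] at h3
    have h4 : (2 * K.bil (a *ᵥ v) w) • (1 : Matrix (Idx g) (Idx g) ℂ) + (2 * K.bil v (a *ᵥ w)) • 1 =
        Y * ((2 * K.bil v w) • (1 : Matrix (Idx g) (Idx g) ℂ)) - ((2 * K.bil v w) • 1) * Y := by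
      rw [← h1, ← h2, ← h3]
      noncomm_ring
    rw [Matrix.mul_smul, Matrix.smul_mul, mul_one, one_mul, sub_self, ← add_smul] at h4
    have : Nonempty (Idx g) := ⟨Sum.inl ⟨0, K.pos⟩⟩
    have h5 : (2 * K.bil (a *ᵥ v) w) + (2 * K.bil v (a *ᵥ w)) = 0 := by
      have h6 := congrFun (congrFun h4 this.some) this.some
      simpa [Matrix.smul_apply] using h6
    linear_combination (1 / 2) * h5
  have hS : a ∈ K.S := by
    refine ⟨?_, (h5v g A n m K hn).1 Y a h1 hact⟩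
    have h3 : ∀ v w : Fin n → ℂ, v ⬝ᵥ ((aᵀ * Matrix.diagonal (fun i => (K.q i : ℂ)) +
        Matrix.diagonal (fun i => (K.q i : ℂ)) * a) *ᵥ w) = 0 := by
      intro v w
      have h4 := hskew v w
      rw [E5dX.bil_eq, E5dX.bil_eq] at h4
      rw [Matrix.add_mulVec, dotProduct_add, ← Matrix.mulVec_mulVec, ← Matrix.mulVec_mulVec,
        Matrix.dotProduct_mulVec v aᵀ, Matrix.vecMul_transpose]
      exact h4
    ext i j
    have h4 := h3 (Pi.single i 1) (Pi.single j 1)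
    rw [Matrix.mulVec_single_one, single_one_dotProduct] at h4
    exact h4
  obtain ⟨c, hc⟩ := hscal (Y - K.Z a) (by
      intro α hα
      rw [sub_mul, mul_sub, h1 α hα, hZend α hα a hS]) (by
      intro v
      have h3 := hact v
      have h4 := hlift a hskew v
      rw [← sub_eq_zero]
      have h5 : (Y - K.Z a) * K.cl v - K.cl v * (Y - K.Z a) =
          (Y * K.cl v - K.cl v * Y) - (K.Z a * K.cl v - K.cl v * K.Z a) := by noncomm_ring
      rw [h5, h3, h4, sub_self])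
  refine ⟨K.Z a, c, h8 a hS, ?_⟩
  rw [← hc]
  abel

/-- the weight element -/
theorem weight_mem {g n m : ℕ} {A : AbVar g} (K : KSE A n m) (hK1 : Stmt_K1) (hH : Stmt_Homx) (hTau : Stmt_TAU) (hL : Stmt_Leg)
    (hK2a : Stmt_K2a) (hK2c : Stmt_K2c) (hK2d : Stmt_E2d) (hK5a : Stmt_E5a) (h5v : Stmt_E5v) (h8 : ∀ a ∈ K.S, InLie (Gam A) (K.Z a) 0)
    (hn : 3 ≤ m) : InLie (Gam A) ((1 / 2 : ℂ) • (1 : Matrix (Idx g) (Idx g) ℂ)) 1 := by
  obtain ⟨p, hp, hpN⟩ := hTau g A
  obtain ⟨L, hLne⟩ : ∃ L : Additive ℂˣ →+ ℂ, L (Additive.ofMul p.2) ≠ 0 := by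
    by_contra hcon
    push Not at hcon
    obtain ⟨N, hN, h1⟩ := K4X.tors_of_L hH p.2 hcon
    exact hpN N hN h1
  obtain ⟨S, α, N, M, -, -, -, -, hst⟩ := hK1 (Idx g) p.1
  set X : Matrix (Idx g) (Idx g) ℂ := S.val * Matrix.diagonal (fun i => L (Additive.ofMul (α i))) *
    (S⁻¹).val with hX
  set ζ : ℂ := L (Additive.ofMul p.2) with hζ
  have hXm : InLie (Gam A) X ζ := fun t D hD => (hst p.2 t D (hD p hp)).1 L
  obtain ⟨Z, c, hZ, hXZ⟩ := decomp K hK2a hK2c hK5a h5v h8 hn X (hK2c g A X ζ hXm).1 (fun v => by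
    have h1 := (hK2d g A n m K).2 X ζ hXm (K.cl v) ((E5dX.mem_TC K _).2 ⟨v, rfl⟩)
    exact (E5dX.mem_TC K _).1 h1)
  have hc : InLie (Gam A) (c • 1) ζ := by
    have h1 := (hK2a (Idx g) (Gam A)).1 X Z ζ 0 (-1) hXm hZ
    rw [mul_zero, add_zero, neg_one_smul, hXZ] at h1
    have e : Z + c • (1 : Matrix (Idx g) (Idx g) ℂ) + -Z = c • 1 := by abel
    rwa [e] at h1
  have hsim := (hK2c g A _ _ hc).2
  have h2c : 2 * c = ζ := by
    have h1 : (2 * c - ζ) • A.riem = 0 := by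
      rw [Matrix.transpose_smul, Matrix.transpose_one, Matrix.smul_mul, one_mul, Matrix.mul_smul,
        mul_one] at hsim
      rw [sub_smul, ← hsim, two_mul, add_smul, sub_self]
    rcases smul_eq_zero.1 h1 with h | h
    · exact sub_eq_zero.1 h
    · exact absurd h (K9X.riem_ne hL K.pos)
  have h3 := K2Y.inLie_smul hK2a hc ζ⁻¹
  rw [inv_mul_cancel₀ hLne, smul_smul] at h3
  have e : ζ⁻¹ * c = 1 / 2 := by
    rw [← h2c]
    have hc0 : c ≠ 0 := by
      intro h0
      rw [h0, mul_zero] at h2c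
      exact hLne h2c.symm
    field_simp
  rwa [e] at h3

end E9X

open E9X

theorem E9_proof (hK1 : Stmt_K1) (hH : Stmt_Homx) (hTau : Stmt_TAU) (hPI : Stmt_PI) (hL : Stmt_Leg)
    (hG2 : Stmt_Gb2) (hK2a : Stmt_K2a) (hK2c : Stmt_K2c) (hK2d : Stmt_E2d) (hK5a : Stmt_E5a)
    (h5v : Stmt_E5v) (h8b : Stmt_E8b) (h8c : Stmt_E8c) : MainE := by
  rintro g A n m hn hn5 ⟨K⟩ t D hD
  have h8 : ∀ a ∈ K.S, InLie (Gam A) (K.Z a) 0 := h8c g A n m K hn (h8b g A n m K hn hn5)
  refine ⟨hD.1, ?_⟩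
  obtain ⟨π, hπ, hmu, hex, hcomm, hsim⟩ := hPI g A
  -- π normalizes T
  have hT : ∀ v, ∃ w, π * K.cl v - K.cl v * π = K.cl w := by
    have h0 : ∀ i, π * AbVar.toC (K.t i) - AbVar.toC (K.t i) * π ∈ K.TC := by
      intro i
      set y := AbVar.toC (K.t i) with hy
      have hf : ∀ z : ℂ, z ≠ 0 → y + (z - 1) • (π * y) + (z⁻¹ - 1) • (y * π) +
          ((z - 1) * (z⁻¹ - 1)) • (π * y * π) ∈ K.TC := by
        intro z hz
        obtain ⟨x, hx⟩ := hex (Units.mk0 z hz)
        have h1 := K.hdg _ x hx i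
        have h2 : x.val = 1 + (z - 1) • π := (hmu _ x).1 hx
        have h3 : (x⁻¹).val = 1 + (z⁻¹ - 1) • π := by
          have h4 : x.val * (1 + (z⁻¹ - 1) • π) = 1 := by
            rw [h2]
            simp only [mul_add, add_mul, mul_one, one_mul, Matrix.smul_mul, Matrix.mul_smul, hπ,
              smul_smul]
            have h5 : (z - 1) + ((z⁻¹ - 1) + (z⁻¹ - 1) * (z - 1)) = 0 := by field_simp; ring
            rw [add_assoc, ← add_smul, ← add_smul, h5, zero_smul, add_zero]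
          have h6 : (x⁻¹).val * x.val = 1 := by rw [← Units.val_mul]; simp
          calc (x⁻¹).val = (x⁻¹).val * (x.val * (1 + (z⁻¹ - 1) • π)) := by rw [h4, mul_one]
            _ = _ := by rw [← mul_assoc, h6, one_mul]
        rw [h2, h3] at h1
        have h5 : (1 + (z - 1) • π) * y * (1 + (z⁻¹ - 1) • π) = y + (z - 1) • (π * y) +
            (z⁻¹ - 1) • (y * π) + ((z - 1) * (z⁻¹ - 1)) • (π * y * π) := by
          simp only [mul_add, add_mul, mul_one, one_mul, Matrix.smul_mul, Matrix.mul_smul, smul_smul]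
          rw [mul_comm (z⁻¹ - 1) (z - 1)]
          abel
        rw [← h5]
        exact h1
      have hy0 : y ∈ K.TC := Submodule.subset_span ⟨i, rfl⟩
      have h2 := hf 2 two_ne_zero
      have h3 := hf (-1) (by norm_num)
      -- combination
      have h4 : π * y - y * π = (4 / 3 : ℂ) • ((y + ((2 : ℂ) - 1) • (π * y) + ((2 : ℂ)⁻¹ - 1) • (y * π) +
          (((2 : ℂ) - 1) * ((2 : ℂ)⁻¹ - 1)) • (π * y * π)) - y) +
          (1 / 6 : ℂ) • ((y + ((-1 : ℂ) - 1) • (π * y) + ((-1 : ℂ)⁻¹ - 1) • (y * π) +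
          (((-1 : ℂ) - 1) * ((-1 : ℂ)⁻¹ - 1)) • (π * y * π)) - y) := by
        ext a b
        simp only [Matrix.add_apply, Matrix.sub_apply, Matrix.smul_apply, smul_eq_mul]
        norm_num
        ring
      rw [h4]
      exact Submodule.add_mem _ (Submodule.smul_mem _ _ (Submodule.sub_mem _ h2 hy0))
        (Submodule.smul_mem _ _ (Submodule.sub_mem _ h3 hy0))
    intro v
    rw [← E5dX.mem_TC]
    unfold KSE.cl
    rw [Finset.mul_sum, Finset.sum_mul, ← Finset.sum_sub_distrib]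
    refine Submodule.sum_mem _ fun i _ => ?_
    rw [Matrix.mul_smul, Matrix.smul_mul, ← smul_sub]
    exact Submodule.smul_mem _ _ (h0 i)
  obtain ⟨Z, c, hZ, hπZ⟩ := decomp K hK2a hK2c hK5a h5v h8 hn π hcomm hT
  have hc : c = 1 / 2 := by
    have h1 := (hK2c g A Z 0 hZ).2
    rw [zero_smul] at h1
    have h2 : (2 * c - 1) • A.riem = 0 := by
      have h3 := hsim
      rw [hπZ, Matrix.transpose_add, Matrix.transpose_smul, Matrix.transpose_one, add_mul, mul_add,
        Matrix.smul_mul, one_mul, Matrix.mul_smul, mul_one] at h3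
      have h4 : Zᵀ * A.riem + c • A.riem + (A.riem * Z + c • A.riem) =
          (Zᵀ * A.riem + A.riem * Z) + (2 * c) • A.riem := by
        rw [two_mul, add_smul]; abel
      rw [h4, h1, zero_add] at h3
      rw [sub_smul, one_smul, h3, sub_self]
    rcases smul_eq_zero.1 h2 with h | h
    · linear_combination (1 / 2) * h
    · exact absurd h (K9X.riem_ne hL K.pos)
  have hπm : InLie (Gam A) π 1 := by
    have h1 := (hK2a (Idx g) (Gam A)).1 Z _ 0 1 1 hZ
      (weight_mem K hK1 hH hTau hL hK2a hK2c hK2d hK5a h5v h8 hn)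
    rw [one_smul, one_mul, zero_add, ← hc, ← hπZ] at h1
    exact h1
  intro z x hx
  have hz : Complex.exp (Complex.log z.val) = z.val := Complex.exp_log (Units.ne_zero z)
  have h1 := K2Y.inLie_smul hK2a hπm (Complex.log z.val)
  rw [mul_one] at h1
  have h2 := K2Y.exp_stab_eq hK2a h1 t D (fun p hp => hG2 g A t D hD p hp)
  rw [K2Y.eX_val, K9X.exp_idem π hπ, hz] at h2
  rw [(hmu z x).1 hx]
  exact h2

end

end Pool.Agent.K3E
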