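import Pool.Agent.K3D.K7x

/-!
# K7E: the classification with real multiplication (abstract part)

`V = V0 ⊕ V0^⊥`, `V0^⊥` negative definite, `V0` of signature `(2, m - 2)`, `m ≠ 5`; `l ⊆ so(V)` preserves
`V0`, is irreducible on `V0 ⊗ ℂ`, closed under brackets and hyperbolic parts and contains a nonzero
hyperbolic element. Then `l` contains all `x ∧ y`, `x, y ∈ V0`.
-/

open scoped BigOperators

namespace Pool.Agent.K3D.K7x

open Module

variable {V : Type*} [AddCommGroup V] [Module ℝ V]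

variable {B : V →ₗ[ℝ] V →ₗ[ℝ] ℝ} {l : Submodule ℝ (Module.End ℝ V)}

theorem span_of_nondeg [FiniteDimensional ℝ V] (hs : ∀ x y, B x y = B y x)
    (hnd : ∀ x, (∀ y, B x y = 0) → x = 0) {Y : Module.End ℝ V}
    (hY : ∀ x y, B (Y x) y = - B x (Y y)) :
    Y ∈ Submodule.span ℝ {Z | ∃ x y, Z = wd B x y} := by
  classical
  let b := Module.finBasis ℝ V
  have hB : LinearMap.BilinForm.Nondegenerate B :=
    ⟨fun x hx => hnd x hx, fun x hx => hnd x fun y => by rw [hs]; exact hx y⟩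
  have hsym : LinearMap.BilinForm.IsSymm B := ⟨fun x y => hs x y⟩
  let b' := LinearMap.BilinForm.dualBasis B hB b
  have e1 : ∀ v, v = ∑ i, B (b i) v • b' i := by
    intro v
    conv_lhs => rw [← b'.sum_repr v]
    refine Finset.sum_congr rfl fun i _ => ?_
    rw [LinearMap.BilinForm.dualBasis_repr_apply, hs]
  have e2 : ∀ v, v = ∑ i, B (b' i) v • b i := by
    intro v
    conv_lhs => rw [← b.sum_repr v]
    refine Finset.sum_congr rfl fun i _ => ?_
    congr 1
    conv_rhs => rw [← b.sum_repr v]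
    rw [map_sum, Finset.sum_eq_single i]
    · rw [map_smul, LinearMap.BilinForm.apply_dualBasis_left, if_pos rfl]; simp
    · intro j _ hj
      rw [map_smul, LinearMap.BilinForm.apply_dualBasis_left, if_neg hj]; simp
    · simp
  have h1 : Y = ∑ i, (1 / 2 : ℝ) • wd B (Y (b i)) (b' i) := by
    refine LinearMap.ext fun v => ?_
    rw [← Finset.smul_sum, LinearMap.smul_apply, LinearMap.sum_apply]
    have h2 : ∀ i, wd B (Y (b i)) (b' i) v = B (b' i) v • Y (b i) + B (b i) (Y v) • b' i := by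
      intro i
      rw [wd_apply, hY, neg_smul, sub_neg_eq_add]
    rw [Finset.sum_congr rfl fun i _ => h2 i, Finset.sum_add_distrib, ← e1 (Y v)]
    have h3 : ∑ i, B (b' i) v • Y (b i) = Y v := by
      conv_rhs => rw [e2 v, map_sum]
      exact Finset.sum_congr rfl fun i _ => by rw [map_smul]
    rw [h3]
    module
  rw [h1]
  exact Submodule.sum_mem _ fun i _ => Submodule.smul_mem _ _ (Submodule.subset_span ⟨_, _, rfl⟩)

/-- The context with real multiplication. -/
structure CtxE (B : V →ₗ[ℝ] V →ₗ[ℝ] ℝ) (l : Submodule ℝ (Module.End ℝ V)) (V0 : Submodule ℝ V) :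
    Prop where
  symm : ∀ x y, B x y = B y x
  sig : ∀ v : Fin 3 → V, LinearIndependent ℝ v → ∃ c : Fin 3 → ℝ,
    B (∑ i, c i • v i) (∑ i, c i • v i) < 0
  dec : ∀ v, ∃ v0 ∈ V0, ∃ v1, (∀ x ∈ V0, B x v1 = 0) ∧ v = v0 + v1
  neg : ∀ v, (∀ x ∈ V0, B x v = 0) → 0 ≤ B v v → v = 0
  nondeg : ∀ x ∈ V0, (∀ y ∈ V0, B x y = 0) → x = 0
  dim : Module.finrank ℝ V0 ≤ 4 ∨ 6 ≤ Module.finrank ℝ V0
  pres : ∀ Y ∈ l, ∀ x ∈ V0, Y x ∈ V0
  skew : ∀ Y ∈ l, ∀ x y, B (Y x) y = - B x (Y y)
  brk : ∀ X ∈ l, ∀ Y ∈ l, X * Y - Y * X ∈ l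
  irr : ∀ W : Submodule ℝ (V × V), W ≤ V0.prod V0 → (∀ p ∈ W, (-p.2, p.1) ∈ W) →
    (∀ Y ∈ l, ∀ p ∈ W, (Y p.1, Y p.2) ∈ W) → W = ⊥ ∨ W = V0.prod V0
  hyp : ∀ Y ∈ l, ∃ H ∈ l, (⨆ μ : ℝ, Module.End.eigenspace H μ = ⊤) ∧
    ∀ (c : ℝ) v, Y v = c • v → H v = c • v

variable {V0 : Submodule ℝ V}

/-- the restricted form -/
noncomputable def B0 (B : V →ₗ[ℝ] V →ₗ[ℝ] ℝ) (V0 : Submodule ℝ V) : V0 →ₗ[ℝ] V0 →ₗ[ℝ] ℝ :=
  B.domRestrict₁₂ V0 V0

@[simp] theorem B0_apply (x y : V0) : B0 B V0 x y = B x y := rfl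

/-- the restricted algebra -/
def l0 (l : Submodule ℝ (Module.End ℝ V)) (V0 : Submodule ℝ V) :
    Submodule ℝ (Module.End ℝ V0) where
  carrier := {Z | ∃ Y ∈ l, ∀ x : V0, (Z x : V) = Y x}
  zero_mem' := ⟨0, l.zero_mem, fun x => by simp⟩
  add_mem' := by
    rintro a b ⟨Y, hY, h⟩ ⟨Y', hY', h'⟩
    exact ⟨Y + Y', l.add_mem hY hY', fun x => by simp [h, h']⟩
  smul_mem' := by
    rintro c a ⟨Y, hY, h⟩
    exact ⟨c • Y, l.smul_mem _ hY, fun x => by simp [h]⟩

theorem mem_l0 {Z : Module.End ℝ V0} : Z ∈ l0 l V0 ↔ ∃ Y ∈ l, ∀ x : V0, (Z x : V) = Y x := Iff.rfl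

/-- a hyperbolic element kills the definite part -/
theorem hyp_kill (E : CtxE B l V0) {H : Module.End ℝ V} (hH : H ∈ l)
    (htop : ⨆ μ : ℝ, Module.End.eigenspace H μ = ⊤) {v : V} (hv : ∀ x ∈ V0, B x v = 0) :
    H v = 0 := by
  have sk := E.skew H hH
  -- for every eigenvector `y`, its component in `V0^⊥` is killed
  have key : ∀ y : V, ∀ y0 ∈ V0, ∀ y1, (∀ x ∈ V0, B x y1 = 0) → y = y0 + y1 → H y1 = 0 := by
    intro y
    have hy : y ∈ ⨆ μ : ℝ, Module.End.eigenspace H μ := by rw [htop]; exact Submodule.mem_top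
    refine Submodule.iSup_induction _ (motive := fun y => ∀ y0 ∈ V0, ∀ y1,
      (∀ x ∈ V0, B x y1 = 0) → y = y0 + y1 → H y1 = 0) hy ?_ ?_ ?_
    · intro μ y hy y0 hy0 y1 hy1 h
      rw [Module.End.mem_eigenspace_iff] at hy
      -- H y1 = μ y1
      have h1 : H y1 - μ • y1 = -(H y0 - μ • y0) := by
        have : H y0 + H y1 = μ • y0 + μ • y1 := by
          rw [← map_add, ← smul_add, ← h, hy]
        have h2 : H y1 - μ • y1 + (H y0 - μ • y0) = (H y0 + H y1) - (μ • y0 + μ • y1) := by abel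
        rw [eq_neg_iff_add_eq_zero, h2, this, sub_self]
      have hm : H y0 - μ • y0 ∈ V0 := V0.sub_mem (E.pres H hH y0 hy0) (V0.smul_mem _ hy0)
      have hperp : ∀ x ∈ V0, B x (H y1 - μ • y1) = 0 := by
        intro x hx
        have h3 := sk x y1
        rw [E.symm] at h3
        rw [map_sub, map_smul, hy1 x hx, smul_zero, sub_zero]
        have h4 : B y1 (H x) = 0 := by rw [E.symm]; exact hy1 _ (E.pres H hH x hx)
        linarith
      have h5 : H y0 - μ • y0 = 0 := by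
        refine E.nondeg _ hm fun x hx => ?_
        have h6 := hperp x hx
        rw [h1, map_neg, neg_eq_zero] at h6
        rw [E.symm]; exact h6
      rw [h5, neg_zero, sub_eq_zero] at h1
      have h7 : μ * B y1 y1 = 0 := by
        have h8 := sk y1 y1
        rw [h1] at h8
        simp only [map_smul, LinearMap.smul_apply, smul_eq_mul] at h8
        linarith
      rcases mul_eq_zero.1 h7 with h8 | h8
      · rw [h1, h8, zero_smul]
      · rw [E.neg y1 hy1 h8.ge, map_zero]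
    · intro y0 hy0 y1 hy1 h
      have h1 : y1 = -y0 := by
        rw [eq_neg_iff_add_eq_zero, add_comm]; exact h.symm
      have h2 : y1 = 0 := by
        refine E.nondeg _ (by rw [h1]; exact V0.neg_mem hy0) fun x hx => ?_
        rw [E.symm]; exact hy1 x hx
      rw [h2, map_zero]
    · intro a b ha hb y0 hy0 y1 hy1 h
      obtain ⟨a0, ha0, a1, ha1, ha2⟩ := E.dec a
      obtain ⟨b0, hb0, b1, hb1, hb2⟩ := E.dec b
      have h3 := ha a0 ha0 a1 ha1 ha2
      have h4 := hb b0 hb0 b1 hb1 hb2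
      have h5 : y1 - (a1 + b1) = -(y0 - (a0 + b0)) := by
        have h6 : y0 + y1 = (a0 + a1) + (b0 + b1) := by rw [← h, ← ha2, ← hb2]
        have h7 : y1 - (a1 + b1) + (y0 - (a0 + b0)) = (y0 + y1) - ((a0 + a1) + (b0 + b1)) := by abel
        rw [eq_neg_iff_add_eq_zero, h7, h6, sub_self]
      have h8 : y1 - (a1 + b1) = 0 := by
        refine E.nondeg _ (by
          rw [h5]
          exact V0.neg_mem (V0.sub_mem hy0 (V0.add_mem ha0 hb0))) fun x hx => ?_
        rw [E.symm, map_sub, map_add, hy1 x hx, ha1 x hx, hb1 x hx]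
        simp
      rw [sub_eq_zero] at h8
      rw [h8, map_add, h3, h4, add_zero]
  exact key v 0 V0.zero_mem v hv (by simp)

variable [FiniteDimensional ℝ V]

theorem ctx0 (E : CtxE B l V0) : Ctx (B0 B V0) (l0 l V0) := by
  have hsk : ∀ Z ∈ l0 l V0, ∀ x y, B0 B V0 (Z x) y = - B0 B V0 x (Z y) := by
    rintro Z ⟨Y, hY, h⟩ x y
    rw [B0_apply, B0_apply, h, h]
    exact E.skew Y hY _ _
  have hnd : ∀ x : V0, (∀ y, B0 B V0 x y = 0) → x = 0 := by
    intro x hx
    exact Subtype.ext (E.nondeg x x.2 fun y hy => hx ⟨y, hy⟩)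
  refine ⟨fun x y => E.symm _ _, ?_, hnd, E.dim, hsk, ?_, ?_, ?_,
    fun Y hY => span_of_nondeg (B := B0 B V0) (fun x y => E.symm _ _) hnd hY⟩
  · intro v hv
    have hv' : LinearIndependent ℝ (fun i => ((v i : V0) : V)) :=
      hv.map' V0.subtype (Submodule.ker_subtype V0)
    obtain ⟨c, hc⟩ := E.sig _ hv'
    refine ⟨c, ?_⟩
    rw [B0_apply]
    have : ((∑ i, c i • v i : V0) : V) = ∑ i, c i • (v i : V) := by
      simp
    rw [this]
    exact hc
  · rintro X ⟨X', hX', hX⟩ Y ⟨Y', hY', hY⟩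
    refine ⟨_, E.brk X' hX' Y' hY', fun x => ?_⟩
    simp [hX, hY]
  · intro W hJ hW
    let W' : Submodule ℝ (V × V) := W.map (V0.subtype.prodMap V0.subtype)
    have hW' : ∀ p : V0 × V0, ((p.1 : V), (p.2 : V)) ∈ W' ↔ p ∈ W := by
      intro p
      constructor
      · rintro ⟨p', hp', h⟩
        have h1 := congrArg Prod.fst h
        have h2 := congrArg Prod.snd h
        simp only [LinearMap.prodMap_apply, Submodule.subtype_apply] at h1 h2
        have : p' = p := Prod.ext (Subtype.ext h1) (Subtype.ext h2)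
        rwa [← this]
      · intro hp
        exact ⟨p, hp, rfl⟩
    have hle : W' ≤ V0.prod V0 := by
      rintro _ ⟨p, hp, rfl⟩
      exact ⟨p.1.2, p.2.2⟩
    rcases E.irr W' hle (by
      rintro _ ⟨p, hp, rfl⟩
      exact ⟨_, hJ p hp, by simp⟩) (by
      rintro Y hY _ ⟨p, hp, rfl⟩
      let Z : Module.End ℝ V0 := Y.restrict (E.pres Y hY)
      have hZ : Z ∈ l0 l V0 := ⟨Y, hY, fun x => rfl⟩
      exact ⟨_, hW Z hZ p hp, rfl⟩) with h | h
    · left
      rw [eq_bot_iff]
      intro p hp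
      have h1 := (hW' p).2 hp
      rw [h, Submodule.mem_bot] at h1
      have h2 := congrArg Prod.fst h1
      have h3 := congrArg Prod.snd h1
      rw [Submodule.mem_bot]
      exact Prod.ext (Subtype.ext h2) (Subtype.ext h3)
    · right
      rw [eq_top_iff]
      rintro p -
      rw [← hW', h]
      exact ⟨p.1.2, p.2.2⟩
  · rintro Z ⟨Y, hY, h⟩
    obtain ⟨H, hH, htop, hev⟩ := E.hyp Y hY
    refine ⟨H.restrict (E.pres H hH), ⟨H, hH, fun x => rfl⟩, ?_, ?_⟩
    · have := Module.End.genEigenspace_restrict_eq_top (f := H) (k := 1) (E.pres H hH) htop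
      exact this
    · intro c v hv
      apply Subtype.ext
      have h1 : Y (v : V) = c • (v : V) := by
        rw [← h v, hv]; rfl
      exact hev c v h1

/-- Main theorem with real multiplication. -/
theorem mainE (E : CtxE B l V0) {h : Module.End ℝ V} (hh : h ∈ l) (h0 : h ≠ 0)
    (htop : ⨆ μ : ℝ, Module.End.eigenspace h μ = ⊤) :
    ∀ x ∈ V0, ∀ y ∈ V0, wd B x y ∈ l := by
  have C := ctx0 E
  -- the restriction of `h`
  have hr0 : h.restrict (E.pres h hh) ≠ 0 := by
    intro hz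
    apply h0
    refine LinearMap.ext fun v => ?_
    obtain ⟨v0, hv0, v1, hv1, rfl⟩ := E.dec v
    have h1 : h v1 = 0 := hyp_kill E hh htop hv1
    have h2 : h v0 = 0 := by
      have := congrArg (fun Z => ((Z ⟨v0, hv0⟩ : V0) : V)) hz
      simpa using this
    rw [map_add, h1, h2]; simp
  have hrtop : ⨆ μ : ℝ, Module.End.eigenspace (h.restrict (E.pres h hh)) μ = ⊤ :=
    Module.End.genEigenspace_restrict_eq_top (f := h) (k := 1) (E.pres h hh) htop
  have hrm : h.restrict (E.pres h hh) ∈ l0 l V0 := ⟨h, hh, fun x => rfl⟩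
  have hall := main C hrm hr0 hrtop
  -- wedges of hyperbolic pairs belong to `l`
  have hpair : ∀ e ∈ V0, ∀ f ∈ V0, B e e = 0 → B f f = 0 → B e f = 1 → wd B e f ∈ l := by
    intro e he f hf hee hff hef
    have hfe : B f e = 1 := by rw [E.symm, hef]
    obtain ⟨Y, hY, hYe⟩ := hall ⟨e, he⟩ ⟨f, hf⟩
    have hYv : ∀ v ∈ V0, Y v = B f v • e - B e v • f := by
      intro v hv
      rw [← hYe ⟨v, hv⟩]
      rfl
    obtain ⟨H, hH, hHtop, hev⟩ := E.hyp Y hY
    have k1 : H e = (1 : ℝ) • e := hev 1 e (by rw [hYv e he, hfe, hee]; simp)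
    have k2 : H f = (-1 : ℝ) • f := hev (-1) f (by rw [hYv f hf, hff, hef]; simp)
    have : wd B e f = H := by
      refine LinearMap.ext fun v => ?_
      obtain ⟨v0, hv0, v1, hv1, rfl⟩ := E.dec v
      have e1 : H v1 = 0 := hyp_kill E hH hHtop hv1
      have e2 : H (v0 - B f v0 • e - B e v0 • f) = (0 : ℝ) • (v0 - B f v0 • e - B e v0 • f) := by
        refine hev 0 _ ?_
        rw [hYv _ (V0.sub_mem (V0.sub_mem hv0 (V0.smul_mem _ he)) (V0.smul_mem _ hf))]
        simp [hee, hff, hef, hfe]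
      rw [zero_smul, map_sub, map_sub, map_smul, map_smul, k1, k2] at e2
      have e3 : H v0 = B f v0 • e - B e v0 • f := by
        have : H v0 = (H v0 - B f v0 • (1 : ℝ) • e - B e v0 • (-1 : ℝ) • f) +
            (B f v0 • e - B e v0 • f) := by module
        rw [this, e2, zero_add]
      rw [map_add H, e1, add_zero, e3, wd_apply, map_add, map_add, hv1 e he, hv1 f hf, add_zero,
        add_zero]
    rw [this]
    exact hH
  -- choose a hyperbolic pair
  obtain ⟨a, e, f, ha, hae, haf, hee, hff, hef⟩ := extract C.symm C.nondeg (C.skew _ hrm) hrtop hr0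
  rw [B0_apply] at hee hff hef
  have he := e.2
  have hf := f.2
  generalize (e : V) = e' at *
  generalize (f : V) = f' at *
  have hfe : B f' e' = 1 := by rw [E.symm, hef]
  have hef' := hpair e' he f' hf hee hff hef
  -- e ∧ u
  have hpu : ∀ e ∈ V0, ∀ f ∈ V0, B e e = 0 → B f f = 0 → B e f = 1 → ∀ u ∈ V0, B e u = 0 →
      B f u = 0 → wd B e u ∈ l := by
    intro e he f hf hee hff hef u hu heu hfu
    have hfe : B f e = 1 := by rw [E.symm, hef]
    have hue : B u e = 0 := by rw [E.symm, heu]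
    have huf : B u f = 0 := by rw [E.symm, hfu]
    have h1 := hpair e he f hf hee hff hef
    have h2 := hpair e he (f - u - (B u u / 2) • e)
      (V0.sub_mem (V0.sub_mem hf hu) (V0.smul_mem _ he)) hee (by
        simp only [map_sub, map_smul, LinearMap.sub_apply, LinearMap.smul_apply, smul_eq_mul, hee,
          hff, hef, hfe, heu, hfu, hue, huf]
        ring) (by
        simp only [map_sub, map_smul, smul_eq_mul, hee, hef, heu]
        ring)
    have h3 := l.sub_mem h1 h2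
    have h4 : wd B e f - wd B e (f - u - (B u u / 2) • e) = wd B e u := by
      simp only [map_sub, map_smul, wd_self, smul_zero, sub_zero]
      abel
    rwa [h4] at h3
  -- all
  have hbrkw : ∀ {A : Module.End ℝ V}, A ∈ l → ∀ {x y : V}, wd B x y ∈ l →
      wd B (A x) y + wd B x (A y) ∈ l := by
    intro A hA x y h
    rw [← comm_wd (E.skew A hA)]
    exact E.brk _ hA _ h
  have hdec : ∀ x ∈ V0, ∃ u ∈ V0, B e' u = 0 ∧ B f' u = 0 ∧
      x = B f' x • e' + B e' x • f' + u := by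
    intro x hx
    refine ⟨x - B f' x • e' - B e' x • f',
      V0.sub_mem (V0.sub_mem hx (V0.smul_mem _ he)) (V0.smul_mem _ hf), ?_, ?_, by abel⟩
    · simp [hee, hef]
    · simp [hfe, hff]
  have he_all : ∀ x ∈ V0, wd B e' x ∈ l := by
    intro x hx
    obtain ⟨u, hu, heu, hfu, hxu⟩ := hdec x hx
    rw [hxu]
    simp only [map_add, map_smul, wd_self, smul_zero, zero_add]
    exact l.add_mem (l.smul_mem _ hef') (hpu e' he f' hf hee hff hef u hu heu hfu)
  have hf_all : ∀ x ∈ V0, wd B f' x ∈ l := by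
    intro x hx
    obtain ⟨u, hu, heu, hfu, hxu⟩ := hdec x hx
    rw [hxu]
    simp only [map_add, map_smul, wd_self, smul_zero, add_zero]
    refine l.add_mem (l.smul_mem _ ?_) (hpu f' hf e' he hff hee hfe u hu hfu heu)
    rw [wd_swap]
    exact l.neg_mem hef'
  intro x hx y hy
  have h := hbrkw (he_all x hx) (hf_all y hy)
  rw [wd_apply, wd_apply, hef] at h
  simp only [map_sub, map_smul, LinearMap.sub_apply, LinearMap.smul_apply, one_smul] at h
  have h2 := l.sub_mem (l.sub_mem (l.add_mem (l.neg_mem h) (l.smul_mem (B x f') (he_all y hy)))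
    (l.smul_mem (B e' y) (hf_all x hx))) (l.smul_mem (-(B x y)) (hf_all e' he))
  convert h2 using 1
  module

end Pool.Agent.K3D.K7x
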