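import Pool.Agent.K3D.K7
import Pool.Agent.K3E.K7y

/-!
# K7E: the classification with real multiplication, for matrices
-/

open scoped BigOperators
open Matrix

namespace Pool.Agent.K3E

open Pool.Agent.K3D Pool.Agent.K3D.K7w Pool.Agent.K3D.K7x Module

/-- The complexification of a real subspace. -/
def cplx {n : ℕ} (V0 : Submodule ℝ (Fin n → ℝ)) : Submodule ℂ (Fin n → ℂ) where
  carrier := {v | (fun i => (v i).re) ∈ V0 ∧ (fun i => (v i).im) ∈ V0}
  zero_mem' := ⟨V0.zero_mem, V0.zero_mem⟩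
  add_mem' := by
    rintro v w ⟨hv, hv'⟩ ⟨hw, hw'⟩
    exact ⟨V0.add_mem hv hw, V0.add_mem hv' hw'⟩
  smul_mem' := by
    rintro c v ⟨hv, hv'⟩
    refine ⟨?_, ?_⟩
    · have := V0.sub_mem (V0.smul_mem c.re hv) (V0.smul_mem c.im hv')
      convert this using 1
      ext i
      simp
    · have := V0.add_mem (V0.smul_mem c.re hv') (V0.smul_mem c.im hv)
      convert this using 1
      ext i
      simp

theorem mem_cplx {n : ℕ} {V0 : Submodule ℝ (Fin n → ℝ)} {v : Fin n → ℂ} :
    v ∈ cplx V0 ↔ (fun i => (v i).re) ∈ V0 ∧ (fun i => (v i).im) ∈ V0 := Iff.rfl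

/-- The hypotheses on the real Lie algebra, with real multiplication. -/
structure LHypE (n : ℕ) (q : Fin n → ℝ) (V0 : Submodule ℝ (Fin n → ℝ))
    (l : Submodule ℝ (Matrix (Fin n) (Fin n) ℝ)) : Prop where
  n2 : 2 ≤ n
  qpos : ∀ i : Fin n, (i : ℕ) < 2 → 0 < q i
  qneg : ∀ i : Fin n, 2 ≤ (i : ℕ) → q i < 0
  neg : ∀ v : Fin n → ℝ, (∀ x ∈ V0, ∑ i, q i * x i * v i = 0) → v ≠ 0 → ∑ i, q i * v i * v i < 0
  dim : Module.finrank ℝ V0 ≠ 5
  pres : ∀ a ∈ l, ∀ v ∈ V0, a *ᵥ v ∈ V0
  skew : ∀ a ∈ l, aᵀ * Matrix.diagonal q + Matrix.diagonal q * a = 0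
  brk : ∀ a ∈ l, ∀ b ∈ l, a * b - b * a ∈ l
  irr : ∀ W : Submodule ℂ (Fin n → ℂ), W ≤ cplx V0 →
    (∀ a ∈ l, ∀ v ∈ W, (a.map Complex.ofReal) *ᵥ v ∈ W) → W = ⊥ ∨ W = cplx V0
  hyp : ∀ a ∈ l, ∃ h ∈ l, IsHypPart a h

/-- K7E. -/
def Stmt_K7E : Prop :=
  ∀ (n : ℕ) (q : Fin n → ℝ) (V0 : Submodule ℝ (Fin n → ℝ))
    (l : Submodule ℝ (Matrix (Fin n) (Fin n) ℝ)), LHypE n q V0 l →
    (∃ h ∈ l, h ≠ 0 ∧ ∃ (S : GL (Fin n) ℝ) (d : Fin n → ℝ),
      h = S.val * Matrix.diagonal d * (S⁻¹).val) →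
    ∀ x ∈ V0, ∀ y ∈ V0, ∀ a : Matrix (Fin n) (Fin n) ℝ,
      (∀ v, a *ᵥ v = (∑ i, q i * y i * v i) • x - (∑ i, q i * x i * v i) • y) → a ∈ l

variable {n : ℕ} {q : Fin n → ℝ} {l : Submodule ℝ (Matrix (Fin n) (Fin n) ℝ)}
  {V0 : Submodule ℝ (Fin n → ℝ)}

theorem sigq (n2 : 2 ≤ n) (qpos : ∀ i : Fin n, (i : ℕ) < 2 → 0 < q i)
    (qneg : ∀ i : Fin n, 2 ≤ (i : ℕ) → q i < 0) (v : Fin 3 → Fin n → ℝ)
    (hv : LinearIndependent ℝ v) :
    ∃ c : Fin 3 → ℝ, Bq q (∑ i, c i • v i) (∑ i, c i • v i) < 0 := by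
  have hq : ∀ i, q i ≠ 0 := by
    intro i
    rcases lt_or_ge (i : ℕ) 2 with h | h
    · exact (qpos i h).ne'
    · exact (qneg i h).ne
  let i0 : Fin n := ⟨0, by omega⟩
  let i1 : Fin n := ⟨1, by omega⟩
  let φ : (Fin 3 → ℝ) →ₗ[ℝ] (Fin 2 → ℝ) :=
    LinearMap.pi ![∑ j, v j i0 • LinearMap.proj j, ∑ j, v j i1 • LinearMap.proj j]
  have hk : LinearMap.ker φ ≠ ⊥ := by
    apply LinearMap.ker_ne_bot_of_finrank_lt
    rw [Module.finrank_fin_fun, Module.finrank_fin_fun]
    norm_num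
  obtain ⟨c, hc, hc0⟩ := Submodule.exists_mem_ne_zero_of_ne_bot hk
  rw [LinearMap.mem_ker] at hc
  have h0 := congrFun hc 0
  have h1 := congrFun hc 1
  refine ⟨c, ?_⟩
  have w0 : (∑ j, c j • v j) i0 = 0 := by
    have h2 : φ c 0 = ∑ j, v j i0 * c j := by simp [φ, LinearMap.sum_apply]
    rw [h2] at h0
    rw [Finset.sum_apply]
    simpa [mul_comm] using h0
  have w1 : (∑ j, c j • v j) i1 = 0 := by
    have h2 : φ c 1 = ∑ j, v j i1 * c j := by simp [φ, LinearMap.sum_apply]
    rw [h2] at h1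
    rw [Finset.sum_apply]
    simpa [mul_comm] using h1
  have wne : (∑ j, c j • v j) ≠ 0 := by
    intro h
    rw [Fintype.linearIndependent_iff] at hv
    exact hc0 (funext (hv c h))
  obtain ⟨i, hi⟩ : ∃ i, (∑ j, c j • v j) i ≠ 0 := by
    by_contra hcon
    push Not at hcon
    exact wne (funext hcon)
  generalize (∑ j, c j • v j) = w at *
  rw [Bq_apply]
  have hle : ∀ j ∈ (Finset.univ : Finset (Fin n)), q j * w j * w j ≤ 0 := by
    intro j _
    rcases lt_or_ge (j : ℕ) 2 with h | h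
    · have : w j = 0 := by
        have h' : (j : ℕ) = 0 ∨ (j : ℕ) = 1 := by omega
        rcases h' with h' | h'
        · have : j = i0 := Fin.ext h'
          rw [this]; exact w0
        · have : j = i1 := Fin.ext h'
          rw [this]; exact w1
      rw [this]; simp
    · have := qneg j h
      rw [mul_assoc]
      exact mul_nonpos_of_nonpos_of_nonneg this.le (mul_self_nonneg _)
  refine lt_of_le_of_ne (Finset.sum_nonpos hle) ?_
  intro h
  have := (Finset.sum_eq_zero_iff_of_nonpos hle).1 h i (Finset.mem_univ i)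
  rcases mul_eq_zero.1 this with h | h
  · rcases mul_eq_zero.1 h with h | h
    · exact hq i h
    · exact hi h
  · exact hi h

/-- the hyperbolic part, in real terms -/
theorem hypq {a h : Matrix (Fin n) (Fin n) ℝ} (hyp : IsHypPart a h) :
    (⨆ μ : ℝ, Module.End.eigenspace (Matrix.toLin' h) μ = ⊤) ∧
      ∀ (c : ℝ) v, Matrix.toLin' a v = c • v → Matrix.toLin' h v = c • v := by
  refine ⟨?_, ?_⟩
  · set S : Submodule ℝ (Fin n → ℝ) := ⨆ μ : ℝ, Module.End.eigenspace (Matrix.toLin' h) μ with hS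
    have key : ∀ v : Fin n → ℂ, (fun i => (v i).re) ∈ S ∧ (fun i => (v i).im) ∈ S := by
      intro v
      have hv : v ∈ ⨆ β : ℂ, Module.End.maxGenEigenspace
          (Matrix.toLin' (a.map Complex.ofReal)) β := by
        rw [Module.End.iSup_maxGenEigenspace_eq_top]; exact Submodule.mem_top
      refine Submodule.iSup_induction _ (motive := fun v => (fun i => (v i).re) ∈ S ∧
        (fun i => (v i).im) ∈ S) hv ?_ ?_ ?_
      · intro β v hv
        rw [Module.End.mem_maxGenEigenspace] at hv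
        obtain ⟨k, hk⟩ := hv
        have h1 : (a.map Complex.ofReal - β • (1 : Matrix (Fin n) (Fin n) ℂ)) ^ k *ᵥ v = 0 := by
          have : Matrix.toLin' ((a.map Complex.ofReal - β • (1 : Matrix (Fin n) (Fin n) ℂ)) ^ k) =
              (Matrix.toLin' (a.map Complex.ofReal) - β • 1) ^ k := by
            rw [Matrix.toLin'_pow, map_sub, map_smul, Matrix.toLin'_one]; rfl
          rw [← Matrix.toLin'_apply, this]
          exact hk
        have h2 := hyp β v ⟨k, h1⟩
        constructor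
        · refine Submodule.mem_iSup_of_mem β.re ?_
          rw [Module.End.mem_eigenspace_iff, Matrix.toLin'_apply]
          ext i
          rw [← re_mulVec, h2]
          simp
        · refine Submodule.mem_iSup_of_mem β.re ?_
          rw [Module.End.mem_eigenspace_iff, Matrix.toLin'_apply]
          ext i
          rw [← im_mulVec, h2]
          simp
      · simp only [Pi.zero_apply, Complex.zero_re, Complex.zero_im]
        exact ⟨S.zero_mem, S.zero_mem⟩
      · intro v w hv hw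
        simp only [Pi.add_apply, Complex.add_re, Complex.add_im]
        exact ⟨S.add_mem hv.1 hw.1, S.add_mem hv.2 hw.2⟩
    rw [eq_top_iff]
    rintro x -
    have := (key fun i => (x i : ℂ)).1
    simpa using this
  · intro c v hv
    have h1 := hyp (c : ℂ) (fun i => (v i : ℂ)) ⟨1, by
      rw [pow_one, Matrix.sub_mulVec, sub_eq_zero]
      rw [Matrix.toLin'_apply] at hv
      ext i
      have h2 := congrFun hv i
      have h3 : ((a.map Complex.ofReal *ᵥ fun i => (v i : ℂ)) i) = ((a *ᵥ v) i : ℂ) := by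
        apply Complex.ext
        · rw [re_mulVec]; simp
        · rw [im_mulVec]
          simp only [Complex.ofReal_im]
          have : (fun _ : Fin n => (0 : ℝ)) = 0 := rfl
          rw [this, Matrix.mulVec_zero]; simp
      rw [h3, h2, Matrix.smul_mulVec, Matrix.one_mulVec]
      simp⟩
    rw [Matrix.toLin'_apply]
    ext i
    have h4 := congrArg Complex.re (congrFun h1 i)
    rw [re_mulVec] at h4
    simpa using h4

/-- real diagonalizable matrices -/
theorem diag_top {h : Matrix (Fin n) (Fin n) ℝ} {S : GL (Fin n) ℝ} {d : Fin n → ℝ}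
    (hS : h = S.val * Matrix.diagonal d * (S⁻¹).val) :
    ⨆ μ : ℝ, Module.End.eigenspace (Matrix.toLin' h) μ = ⊤ := by
  rw [eq_top_iff]
  rintro x -
  have h1 : x = ∑ j, ((S⁻¹).val *ᵥ x) j • (S.val *ᵥ Pi.single j (1 : ℝ)) := by
    have h2 : x = S.val *ᵥ ((S⁻¹).val *ᵥ x) := by
      rw [Matrix.mulVec_mulVec, Units.mul_inv, Matrix.one_mulVec]
    conv_lhs => rw [h2]
    generalize (S⁻¹).val *ᵥ x = y
    have h3 : y = ∑ j, y j • (Pi.single j (1 : ℝ) : Fin n → ℝ) := by
      ext j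
      simp [Finset.sum_apply, Pi.single_apply]
    conv_lhs => rw [h3]
    rw [Matrix.mulVec_sum]
    exact Finset.sum_congr rfl fun j _ => by rw [Matrix.mulVec_smul]
  rw [h1]
  refine Submodule.sum_mem _ fun j _ => Submodule.smul_mem _ _ ?_
  refine Submodule.mem_iSup_of_mem (d j) ?_
  rw [Module.End.mem_eigenspace_iff, Matrix.toLin'_apply, hS, Matrix.mulVec_mulVec, mul_assoc,
    Units.inv_mul, mul_one, ← Matrix.mulVec_mulVec, ← Matrix.mulVec_smul]
  congr 1
  ext i
  rw [Matrix.mulVec_diagonal, Pi.smul_apply, smul_eq_mul]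
  by_cases hij : i = j
  · subst hij; simp
  · simp [Pi.single_eq_of_ne hij]

theorem ctxE (L : LHypE n q V0 l) : CtxE (Bq q) (lE l) V0 := by
  have hneg : ∀ v : Fin n → ℝ, (∀ x ∈ V0, Bq q x v = 0) → 0 ≤ Bq q v v → v = 0 := by
    intro v hv h0
    by_contra hne
    have := L.neg v hv hne
    rw [Bq_apply] at h0
    linarith
  have hnd : ∀ x ∈ V0, (∀ y ∈ V0, Bq q x y = 0) → x = 0 := by
    intro x hx h
    exact hneg x (fun y hy => by rw [Bq_symm]; exact h y hy) (h x hx).ge
  refine ⟨Bq_symm, sigq L.n2 L.qpos L.qneg, ?_, hneg, hnd, ?_, ?_, ?_, ?_, ?_, ?_⟩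
  · -- decomposition
    have hrefl : (LinearMap.BilinForm.restrict (Bq q) V0).Nondegenerate := by
      refine ⟨?_, ?_⟩
      · intro x hx
        exact Subtype.ext (hnd x x.2 fun y hy => hx ⟨y, hy⟩)
      · intro x hx
        exact Subtype.ext (hnd x x.2 fun y hy => by rw [Bq_symm]; exact hx ⟨y, hy⟩)
    have hcompl := LinearMap.BilinForm.isCompl_orthogonal_of_restrict_nondegenerate
      (B := Bq q) (W := V0) (fun x y h => by rw [Bq_symm]; exact h) hrefl
    intro v
    have htop : v ∈ V0 ⊔ LinearMap.BilinForm.orthogonal (Bq q) V0 := by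
      rw [hcompl.sup_eq_top]; exact Submodule.mem_top
    obtain ⟨k, hk, k', hk', hkk⟩ := Submodule.mem_sup.1 htop
    exact ⟨k, hk, k', fun x hx => hk' x hx, hkk.symm⟩
  · have := L.dim
    omega
  · intro Y hY x hx
    obtain ⟨a, ha, rfl⟩ := mem_lE.1 hY
    rw [Matrix.toLin'_apply]
    exact L.pres a ha x hx
  · intro Y hY x y
    obtain ⟨a, ha, rfl⟩ := mem_lE.1 hY
    exact Bq_skew (L.skew a ha) x y
  · intro X hX Y hY
    obtain ⟨a, ha, rfl⟩ := mem_lE.1 hX
    obtain ⟨b, hb, rfl⟩ := mem_lE.1 hY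
    have : Matrix.toLin' a * Matrix.toLin' b - Matrix.toLin' b * Matrix.toLin' a =
        Matrix.toLin' (a * b - b * a) := by
      rw [map_sub, Matrix.toLin'_mul, Matrix.toLin'_mul]; rfl
    rw [this]
    exact toLin'_mem_lE.2 (L.brk a ha b hb)
  · -- irreducible
    intro W hle hJ hW
    let WC : Submodule ℂ (Fin n → ℂ) :=
      { carrier := {v | mk2 v ∈ W}
        zero_mem' := by
          show mk2 0 ∈ W
          have : mk2 (0 : Fin n → ℂ) = 0 := by ext <;> simp [mk2]
          rw [this]; exact W.zero_mem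
        add_mem' := by
          intro v w hv hw
          show mk2 (v + w) ∈ W
          have : mk2 (v + w) = mk2 v + mk2 w := by ext <;> simp [mk2]
          rw [this]; exact W.add_mem hv hw
        smul_mem' := by
          intro c v hv
          show mk2 (c • v) ∈ W
          have : mk2 (c • v) = c.re • mk2 v + c.im • (-(mk2 v).2, (mk2 v).1) := by
            ext i
            · simp [mk2]; ring
            · simp [mk2]
          rw [this]; exact W.add_mem (W.smul_mem _ hv) (W.smul_mem _ (hJ _ hv)) }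
    have hWC : ∀ v, v ∈ WC ↔ mk2 v ∈ W := fun v => Iff.rfl
    rcases L.irr WC (by
      intro v hv
      rw [hWC] at hv
      exact hle hv) (by
      intro a ha v hv
      rw [hWC] at hv ⊢
      have := hW _ (toLin'_mem_lE.2 ha) _ hv
      convert this using 1
      ext i
      · exact re_mulVec a v i
      · exact im_mulVec a v i) with h | h
    · left
      rw [eq_bot_iff]
      rintro ⟨x, y⟩ hxy
      have h1 : (fun i => (⟨x i, y i⟩ : ℂ)) ∈ WC := (hWC _).2 hxy
      rw [h, Submodule.mem_bot] at h1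
      rw [Submodule.mem_bot]
      ext i
      · have := congrArg Complex.re (congrFun h1 i); simpa using this
      · have := congrArg Complex.im (congrFun h1 i); simpa using this
    · right
      refine le_antisymm hle ?_
      rintro ⟨x, y⟩ ⟨hx, hy⟩
      have h1 : (fun i => (⟨x i, y i⟩ : ℂ)) ∈ WC := by
        rw [h]
        exact ⟨hx, hy⟩
      exact (hWC _).1 h1
  · intro Y hY
    obtain ⟨a, ha, rfl⟩ := mem_lE.1 hY
    obtain ⟨h, hh, hyp⟩ := L.hyp a ha
    exact ⟨Matrix.toLin' h, toLin'_mem_lE.2 hh, hypq hyp⟩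

theorem K7E_proof : Stmt_K7E := by
  rintro n q V0 l L ⟨h, hh, h0, S, d, hS⟩ x hx y hy a ha
  have h1 := mainE (ctxE L) (h := Matrix.toLin' h) (toLin'_mem_lE.2 hh) (by
    intro h1
    apply h0
    have : Matrix.toLin' h = Matrix.toLin' (0 : Matrix (Fin n) (Fin n) ℝ) := by rw [h1, map_zero]
    exact Matrix.toLin'.injective this) (diag_top hS) x hx y hy
  have h2 : wd (Bq q) x y = Matrix.toLin' a := by
    refine LinearMap.ext fun v => ?_
    rw [Matrix.toLin'_apply, ha v]
    rfl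
  rw [h2] at h1
  exact toLin'_mem_lE.1 h1

end Pool.Agent.K3E
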