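import Pool.Agent.K3D.Assembly
import Pool.Agent.K3E.E2d
import Pool.Agent.K3E.E5a
import Pool.Agent.K3E.E5b
import Pool.Agent.K3E.E5c
import Pool.Agent.K3E.E5d
import Pool.Agent.K3E.E5l
import Pool.Agent.K3E.E5v
import Pool.Agent.K3E.E8a
import Pool.Agent.K3E.E8b
import Pool.Agent.K3E.E8c
import Pool.Agent.K3E.E9
import Pool.Agent.K3E.K7E

/-!
# De Rham-Betti conjecture for Kuga-Satake varieties with real multiplication: assembly
-/

namespace Pool.Agent.K3E

open Pool.Agent.DRB Pool.Agent.K3D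

theorem e2dC : Stmt_E2d := E2d_proof k2aC gb1C gb2_proof (rev_proof leg_proof) leg_proof

theorem e5vC : Stmt_E5v := E5v_proof descqC E5l_proof

theorem e5bC : Stmt_E5b := E5b_proof descqC (gb3_proof descaC) t1eC finC e2dC E5l_proof

theorem e5cC : Stmt_E5c := E5c_proof descqC e2dC k4C

theorem e5dC : Stmt_E5d :=
  E5d_proof gb4_proof k2aC k2b_proof k2cC e2dC k4C E5a_proof e5bC e5cC E5l_proof

theorem e8aC : Stmt_E8a := E8a_proof k1C e2dC k3_proof E5a_proof

theorem e8bC : Stmt_E8b :=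
  E8b_proof k2aC k2b_proof gb4_proof k2cC K6_proof K7E_proof e2dC E5a_proof e5vC E5l_proof e5dC e8aC

theorem e8cC : Stmt_E8c := E8c_proof k2aC k2cC E5a_proof

/-- The main theorem. -/
theorem mainE : MainE :=
  E9_proof k1C homx_proof tauC piC leg_proof gb2_proof k2aC k2cC e2dC E5a_proof e5vC e8bC e8cC

end Pool.Agent.K3E
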