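import Pool.Agent.K3E.E9
import Pool.Agent.K3E.Stmts3

/-!
# E10: the main theorem with the explicit de Rham-Betti group
-/

open scoped BigOperators
open Matrix

namespace Pool.Agent.K3E

open Pool.Agent.DRB Pool.Agent.K3D E5A

noncomputable section

/-- The inverse of an element satisfying the three conditions satisfies them too. -/
theorem E10X_inv {g n m : ℕ} {A : AbVar g} (K : KSE A n m) (x : GL (Idx g) ℂ) (ν : ℂˣ)
    (h1 : ∀ α ∈ A.EndQ, x.val * AbVar.toC α = AbVar.toC α * x.val)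
    (h2 : ∀ Y ∈ K.TC, x.val * Y * (x⁻¹).val ∈ K.TC)
    (h3 : x.valᵀ * A.riem * x.val = ν.val • A.riem) :
    (∀ α ∈ A.EndQ, (x⁻¹).val * AbVar.toC α = AbVar.toC α * (x⁻¹).val) ∧
    (∀ Y ∈ K.TC, (x⁻¹).val * Y * ((x⁻¹)⁻¹).val ∈ K.TC) ∧
    (x⁻¹).valᵀ * A.riem * (x⁻¹).val = (ν⁻¹).val • A.riem := by
  have e1 : x.val * (x⁻¹).val = 1 := by rw [← Units.val_mul]; simp
  have e2 : (x⁻¹).val * x.val = 1 := by rw [← Units.val_mul]; simp
  refine ⟨?_, ?_, ?_⟩
  · intro α hα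
    calc (x⁻¹).val * AbVar.toC α = (x⁻¹).val * (AbVar.toC α * x.val) * (x⁻¹).val := by
          rw [mul_assoc, mul_assoc, e1, mul_one]
      _ = (x⁻¹).val * (x.val * AbVar.toC α) * (x⁻¹).val := by rw [h1 α hα]
      _ = AbVar.toC α * (x⁻¹).val := by rw [← mul_assoc, e2, one_mul]
  · intro Y hY
    rw [inv_inv]
    let f : K.TC →ₗ[ℂ] K.TC :=
      { toFun := fun Z => ⟨x.val * Z.1 * (x⁻¹).val, h2 Z.1 Z.2⟩
        map_add' := by
          intro Z W
          apply Subtype.ext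
          simp only [Submodule.coe_add, mul_add, add_mul]
        map_smul' := by
          intro c Z
          apply Subtype.ext
          simp only [Submodule.coe_smul, Matrix.mul_smul, Matrix.smul_mul, RingHom.id_apply] }
    have hback : ∀ Z : Matrix (Idx g) (Idx g) ℂ, (x⁻¹).val * (x.val * Z * (x⁻¹).val) * x.val = Z := by
      intro Z
      calc _ = ((x⁻¹).val * x.val) * Z * ((x⁻¹).val * x.val) := by simp only [mul_assoc]
        _ = Z := by rw [e2, one_mul, mul_one]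
    have hinj : Function.Injective f := by
      intro Z W hZW
      have h4 : x.val * Z.1 * (x⁻¹).val = x.val * W.1 * (x⁻¹).val := congrArg Subtype.val hZW
      apply Subtype.ext
      rw [← hback Z.1, h4, hback]
    obtain ⟨Z, hZ⟩ := (LinearMap.injective_iff_surjective.1 hinj) ⟨Y, hY⟩
    have h4 : x.val * Z.1 * (x⁻¹).val = Y := congrArg Subtype.val hZ
    rw [← h4, hback]
    exact Z.2
  · have e3 : x.valᵀ * (x⁻¹).valᵀ = 1 := by
      rw [← Matrix.transpose_mul, e2, Matrix.transpose_one]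
    have e4 : (x⁻¹).valᵀ * x.valᵀ = 1 := by
      rw [← Matrix.transpose_mul, e1, Matrix.transpose_one]
    have h4 : A.riem = ν.val • ((x⁻¹).valᵀ * A.riem * (x⁻¹).val) := by
      calc A.riem = ((x⁻¹).valᵀ * x.valᵀ) * A.riem * (x.val * (x⁻¹).val) := by
            rw [e4, e1, one_mul, mul_one]
        _ = (x⁻¹).valᵀ * (x.valᵀ * A.riem * x.val) * (x⁻¹).val := by simp only [mul_assoc]
        _ = _ := by rw [h3, Matrix.mul_smul, Matrix.smul_mul]
    calc (x⁻¹).valᵀ * A.riem * (x⁻¹).val = (ν⁻¹).val • (ν.val • ((x⁻¹).valᵀ * A.riem * (x⁻¹).val)) := by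
          rw [smul_smul, ← Units.val_mul, inv_mul_cancel, Units.val_one, one_smul]
      _ = _ := by rw [← h4]

theorem E10_proof (hK1 : Stmt_K1) (hH : Stmt_Homx) (hTau : Stmt_TAU) (hPI : Stmt_PI) (hL : Stmt_Leg)
    (hG2 : Stmt_Gb2) (hRev : Stmt_Rev) (hK2a : Stmt_K2a) (hK2c : Stmt_K2c) (hK2d : Stmt_E2d) (hK5a : Stmt_E5a)
    (h5v : Stmt_E5v) (h8b : Stmt_E8b) (h8c : Stmt_E8c) (h10a : Stmt_E10a) (h10c : Stmt_E10c) : MainE2 := by
  intro g A n m K hn hn5
  have h8 : ∀ a ∈ K.S, InLie (Gam A) (K.Z a) 0 := h8c g A n m K hn (h8b g A n m K hn hn5)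
  have hw : InLie (Gam A) ((1 / 2 : ℂ) • (1 : Matrix (Idx g) (Idx g) ℂ)) 1 :=
    E9X.weight_mem K hK1 hH hTau hL hK2a hK2c hK2d hK5a h5v h8 hn
  refine ⟨?_, E9_proof hK1 hH hTau hPI hL hG2 hK2a hK2c hK2d hK5a h5v h8b h8c g A n m hn hn5 ⟨K⟩⟩
  intro x ν
  constructor
  · intro h
    exact ⟨(hRev g A x ν h).1, h10a g A n m K x ν h, (hRev g A x ν h).2⟩
  · rintro ⟨h1, h2, h3⟩ t D hD
    have hst : StabG (Gam A) t D := fun p hp => hG2 g A t D hD p hp
    apply le_antisymm (h10c g A n m K hn h8 hw x ν h1 h2 h3 t D hst)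
    obtain ⟨i1, i2, i3⟩ := E10X_inv K x ν h1 h2 h3
    intro u hu
    have h5 := h10c g A n m K hn h8 hw x⁻¹ ν⁻¹ i1 i2 i3 t D hst ⟨u, hu, rfl⟩
    refine ⟨_, h5, ?_⟩
    have h6 := TAct_comp t x.val (x⁻¹).val ν.val (ν⁻¹).val
    have e1 : x.val * (x⁻¹).val = 1 := by rw [← Units.val_mul]; simp
    rw [e1, ← Units.val_mul, mul_inv_cancel, Units.val_one, TAct_one] at h6
    rw [← LinearMap.comp_apply, ← h6, LinearMap.id_apply]

end

end Pool.Agent.K3E
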