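import Pool.Agent.SPH.GB3T
import Pool.Agent.K3E.E2d
import Pool.Agent.K3E.Stmts3

/-!
# E10a: elements of the de Rham-Betti group normalize `T`
-/

open scoped BigOperators
open Matrix

namespace Pool.Agent.K3E

open Pool.Agent.DRB Pool.Agent.K3D Pool.Agent.K3D.K2Y

noncomputable section

theorem E10a_proof (hG : SPH.Stmt_GB3T) (hq : Stmt_DescQ) (hRev : Stmt_Rev) (hL : Stmt_Leg) (hG1 : Stmt_Gb1)
    (hE2d : Stmt_E2d) : Stmt_E10a := by
  intro g A n m K x ν hx Y hY
  obtain ⟨hint, -, hdet, -⟩ := hL g A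
  have hs := (hRev g A x ν hx).2
  have hst : ∀ p ∈ Gam A, (DT A.riem K.TC).map (TAct tT p.1.val p.2.val) ≤ DT A.riem K.TC := by
    rintro p hp _ ⟨u, hu, rfl⟩
    rw [mem_DT, act_T A.riem p.1 p.2.val (Units.ne_zero _) (hG1 g A p hp).2]
    exact (hE2d g A n m K).1 p hp _ hu
  have hrat : RatSpan (DT A.riem K.TC) := by
    apply hq
    intro σ v hv
    rw [mem_DT] at hv ⊢
    have h1 : (UU v * A.riem).map σ ∈ K.TC := map_TC K σ _ hv
    have h2 : (UU v * A.riem).map σ = UU (fun k => σ (v k)) * A.riem := by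
      rw [FinX.map_mul']
      have e1 : (UU v).map σ = UU (fun k => σ (v k)) := by
        ext i j
        rfl
      have e2 : A.riem.map σ = A.riem := by
        ext i j
        obtain ⟨k, hk⟩ := hint i j
        rw [Matrix.map_apply, hk, map_intCast]
      rw [e1, e2]
    rwa [h2] at h1
  have hD : IsDRB A tT (DT A.riem K.TC) := hG g A tT _ hrat hst
  have hu : VV (Y * A.riem⁻¹) ∈ DT A.riem K.TC := by
    rw [mem_DT, UU_VV, Matrix.mul_assoc, Matrix.nonsing_inv_mul _ hdet, Matrix.mul_one]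
    exact hY
  have h1 : TAct tT x.val ν.val (VV (Y * A.riem⁻¹)) ∈ DT A.riem K.TC := by
    have h3 := hx tT _ hD
    rw [← h3]
    exact ⟨_, hu, rfl⟩
  have h2 : Y * A.riem⁻¹ * A.riem = Y := by
    rw [Matrix.mul_assoc, Matrix.nonsing_inv_mul _ hdet, Matrix.mul_one]
  rw [mem_DT, act_T A.riem x ν.val (Units.ne_zero _) hs, UU_VV, h2] at h1
  exact h1

end

end Pool.Agent.K3E
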