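import Pool.Agent.K3E.Assembly
import Pool.Agent.K3E.E10
import Pool.Agent.K3E.E10a
import Pool.Agent.K3E.E10b
import Pool.Agent.K3E.E10c

/-!
# De Rham-Betti conjecture for Kuga-Satake varieties with real multiplication: assembly with the group
-/

namespace Pool.Agent.K3E

open Pool.Agent.DRB Pool.Agent.K3D

theorem e10aC : Stmt_E10a := E10a_proof (SPH.gb3t_proof descaC) descqC (rev_proof leg_proof) leg_proof gb1C e2dC

theorem e10bC : Stmt_E10b := E10b_proof k2aC

theorem e10cC : Stmt_E10c := E10c_proof leg_proof descqC E5l_proof E5a_proof k2aC k2cC e10bC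

/-- The main theorem. -/
theorem mainE2 : MainE2 :=
  E10_proof k1C homx_proof tauC piC leg_proof gb2_proof (rev_proof leg_proof) k2aC k2cC e2dC E5a_proof e5vC
    e8bC e8cC e10aC e10cC

end Pool.Agent.K3E
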