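import Pool.Agent.K3D.K6
import Pool.Agent.K3D.K8b
import Pool.Agent.K3E.K7E

/-!
# E8b, first part: unbounded elements for a Lie algebra acting irreducibly on a subspace
-/

open scoped BigOperators Matrix Topology
open Matrix

namespace Pool.Agent.K3E

open Pool.Agent.DRB Pool.Agent.K3D

noncomputable section

namespace E8Y

section expo

attribute [local instance] Matrix.linftyOpNormedAddCommGroup Matrix.linftyOpNormedRing
  Matrix.linftyOpNormedAlgebra

theorem exp_J {n d : ℕ} (a : Matrix (Fin n) (Fin n) ℝ) (a' : Matrix (Fin d) (Fin d) ℝ)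
    (J : Matrix (Fin n) (Fin d) ℝ) (h : a * J = J * a') :
    NormedSpace.exp a * J = J * NormedSpace.exp a' := by
  have hs : HasSum (fun k : ℕ => ((k.factorial : ℝ)⁻¹) • a ^ k) (NormedSpace.exp a) :=
    NormedSpace.exp_series_hasSum_exp' (𝕂 := ℝ) a
  have hs' : HasSum (fun k : ℕ => ((k.factorial : ℝ)⁻¹) • a' ^ k) (NormedSpace.exp a') :=
    NormedSpace.exp_series_hasSum_exp' (𝕂 := ℝ) a'
  have hp : ∀ k : ℕ, a ^ k * J = J * a' ^ k := by
    intro k
    induction k with
    | zero => simp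
    | succ k ih => rw [pow_succ, Matrix.mul_assoc, h, ← Matrix.mul_assoc, ih, Matrix.mul_assoc, ← pow_succ]
  let φ : Matrix (Fin n) (Fin n) ℝ →+ Matrix (Fin n) (Fin d) ℝ :=
    { toFun := fun M => M * J, map_zero' := Matrix.zero_mul J, map_add' := fun M N => Matrix.add_mul M N J }
  let ψ : Matrix (Fin d) (Fin d) ℝ →+ Matrix (Fin n) (Fin d) ℝ :=
    { toFun := fun M => J * M, map_zero' := Matrix.mul_zero J, map_add' := fun M N => Matrix.mul_add J M N }
  have hφ : Continuous φ := Continuous.matrix_mul continuous_id continuous_const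
  have hψ : Continuous ψ := Continuous.matrix_mul continuous_const continuous_id
  have h1 := hs.map φ hφ
  have h2 := hs'.map ψ hψ
  have h3 : (φ ∘ fun k : ℕ => ((k.factorial : ℝ)⁻¹) • a ^ k) =
      (ψ ∘ fun k : ℕ => ((k.factorial : ℝ)⁻¹) • a' ^ k) := by
    funext k
    show (((k.factorial : ℝ)⁻¹) • a ^ k) * J = J * (((k.factorial : ℝ)⁻¹) • a' ^ k)
    rw [Matrix.smul_mul, Matrix.mul_smul, hp]
  rw [h3] at h1
  exact h1.unique h2

end expo

/-- The complexification of a real matrix. -/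
theorem map_mul_real {a b c : Type} [Fintype b] (M : Matrix a b ℝ) (N : Matrix b c ℝ) :
    (M * N).map Complex.ofReal = M.map Complex.ofReal * N.map Complex.ofReal :=
  Matrix.map_mul (f := Complex.ofRealHom)

section basis

variable {n d : ℕ} {V0 : Submodule ℝ (Fin n → ℝ)} (b : Module.Basis (Fin d) ℝ V0)

/-- The matrix of a basis. -/
def J : Matrix (Fin n) (Fin d) ℝ := Matrix.of fun i j => (b j : Fin n → ℝ) i

theorem J_mulVec (x : Fin d → ℝ) : J b *ᵥ x = ((∑ j, x j • b j : V0) : Fin n → ℝ) := by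
  funext i
  simp only [J, Matrix.mulVec, dotProduct, Matrix.of_apply, Submodule.coe_sum, Submodule.coe_smul,
    Finset.sum_apply, Pi.smul_apply, smul_eq_mul]
  exact Finset.sum_congr rfl fun j _ => mul_comm _ _

theorem J_inj (x : Fin d → ℝ) (h : J b *ᵥ x = 0) : x = 0 := by
  rw [J_mulVec] at h
  have h1 : (∑ j, x j • b j : V0) = 0 := Subtype.ext h
  have h2 := Fintype.linearIndependent_iff.1 b.linearIndependent x h1
  funext j
  exact h2 j

theorem J_surj (v : Fin n → ℝ) (h : v ∈ V0) : ∃ x, J b *ᵥ x = v := by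
  refine ⟨b.repr ⟨v, h⟩, ?_⟩
  rw [J_mulVec, b.sum_repr]

theorem J_mem (x : Fin d → ℝ) : J b *ᵥ x ∈ V0 := by
  rw [J_mulVec]
  exact Subtype.mem _

theorem JC_re (v : Fin d → ℂ) (i : Fin n) :
    (((J b).map Complex.ofReal *ᵥ v) i).re = (J b *ᵥ fun j => (v j).re) i := by
  simp [Matrix.mulVec, dotProduct]

theorem JC_im (v : Fin d → ℂ) (i : Fin n) :
    (((J b).map Complex.ofReal *ᵥ v) i).im = (J b *ᵥ fun j => (v j).im) i := by
  simp [Matrix.mulVec, dotProduct]

theorem JC_inj (v : Fin d → ℂ) (h : (J b).map Complex.ofReal *ᵥ v = 0) : v = 0 := by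
  have h1 : (J b *ᵥ fun j => (v j).re) = 0 := by
    funext i
    rw [← JC_re, h]
    simp
  have h2 : (J b *ᵥ fun j => (v j).im) = 0 := by
    funext i
    rw [← JC_im, h]
    simp
  have h3 := J_inj b _ h1
  have h4 := J_inj b _ h2
  funext j
  exact Complex.ext (congrFun h3 j) (congrFun h4 j)

theorem JC_mem (v : Fin d → ℂ) : (J b).map Complex.ofReal *ᵥ v ∈ cplx V0 := by
  refine ⟨?_, ?_⟩
  · have : (fun i => (((J b).map Complex.ofReal *ᵥ v) i).re) = J b *ᵥ fun j => (v j).re := by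
      funext i; exact JC_re b v i
    rw [this]; exact J_mem b _
  · have : (fun i => (((J b).map Complex.ofReal *ᵥ v) i).im) = J b *ᵥ fun j => (v j).im := by
      funext i; exact JC_im b v i
    rw [this]; exact J_mem b _

theorem JC_surj (w : Fin n → ℂ) (hw : w ∈ cplx V0) : ∃ v, (J b).map Complex.ofReal *ᵥ v = w := by
  obtain ⟨x, hx⟩ := J_surj b _ hw.1
  obtain ⟨y, hy⟩ := J_surj b _ hw.2
  refine ⟨fun j => ⟨x j, y j⟩, ?_⟩
  funext i
  refine Complex.ext ?_ ?_
  · rw [JC_re]; exact congrFun hx i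
  · rw [JC_im]; exact congrFun hy i

include b in
theorem finrank_cplx : Module.finrank ℂ (cplx V0) = d := by
  let e : (Fin d → ℂ) ≃ₗ[ℂ] cplx V0 :=
    LinearEquiv.ofBijective
      { toFun := fun v => ⟨(J b).map Complex.ofReal *ᵥ v, JC_mem b v⟩
        map_add' := fun v w => Subtype.ext (Matrix.mulVec_add _ v w)
        map_smul' := fun c v => Subtype.ext (Matrix.mulVec_smul _ c v) }
      ⟨by
        rw [← LinearMap.ker_eq_bot, LinearMap.ker_eq_bot']
        intro v hv
        exact JC_inj b v (congrArg Subtype.val hv), by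
        rintro ⟨w, hw⟩
        obtain ⟨v, hv⟩ := JC_surj b w hw
        exact ⟨v, Subtype.ext hv⟩⟩
  rw [← e.finrank_eq, Module.finrank_fin_fun]

end basis

theorem finrank_cplx' {n : ℕ} (V0 : Submodule ℝ (Fin n → ℝ)) :
    Module.finrank ℂ (cplx V0) = Module.finrank ℝ V0 :=
  finrank_cplx (Module.finBasis ℝ V0)

/-- K6 relative to a subspace. -/
theorem K6rel (hK6 : Stmt_K6) {n : ℕ} (q : Fin n → ℝ) (V0 : Submodule ℝ (Fin n → ℝ))
    (l : Submodule ℝ (Matrix (Fin n) (Fin n) ℝ))
    (hnd : ∀ x ∈ V0, (∀ y ∈ V0, ∑ i, q i * x i * y i = 0) → x = 0)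
    (hpos : ∃ x ∈ V0, 0 < ∑ i, q i * x i * x i) (hneg : ∃ x ∈ V0, ∑ i, q i * x i * x i < 0)
    (hpres : ∀ a ∈ l, ∀ v ∈ V0, a *ᵥ v ∈ V0)
    (hskew : ∀ a ∈ l, aᵀ * Matrix.diagonal q + Matrix.diagonal q * a = 0)
    (hirr : ∀ W : Submodule ℂ (Fin n → ℂ), W ≤ cplx V0 →
      (∀ a ∈ l, ∀ v ∈ W, (a.map Complex.ofReal) *ᵥ v ∈ W) → W = ⊥ ∨ W = cplx V0) :
    ∃ as : List (Matrix (Fin n) (Fin n) ℝ), (∀ a ∈ as, a ∈ l) ∧
      ∃ (β : ℂ) (v : Fin n → ℂ), v ≠ 0 ∧ ‖β‖ ≠ 1 ∧
        ((as.map fun a => NormedSpace.exp a).prod.map Complex.ofReal) *ᵥ v = β • v := by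
  classical
  -- the form on V0
  let B0 : LinearMap.BilinForm ℝ V0 := LinearMap.mk₂ ℝ
    (fun x y : V0 => ∑ i, q i * (x : Fin n → ℝ) i * (y : Fin n → ℝ) i)
    (fun x x' y => by
      rw [← Finset.sum_add_distrib]
      exact Finset.sum_congr rfl fun i _ => by
        simp only [Submodule.coe_add, Pi.add_apply]; ring)
    (fun c x y => by
      rw [smul_eq_mul, Finset.mul_sum]
      exact Finset.sum_congr rfl fun i _ => by
        simp only [Submodule.coe_smul, Pi.smul_apply, smul_eq_mul]; ring)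
    (fun x y y' => by
      rw [← Finset.sum_add_distrib]
      exact Finset.sum_congr rfl fun i _ => by
        simp only [Submodule.coe_add, Pi.add_apply]; ring)
    (fun c x y => by
      rw [smul_eq_mul, Finset.mul_sum]
      exact Finset.sum_congr rfl fun i _ => by
        simp only [Submodule.coe_smul, Pi.smul_apply, smul_eq_mul]; ring)
  have hB0 : ∀ x y : V0, B0 x y = ∑ i, q i * (x : Fin n → ℝ) i * (y : Fin n → ℝ) i :=
    fun x y => rfl
  have hsymm : LinearMap.IsSymm B0 := ⟨fun x y => by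
    show B0 x y = B0 y x
    rw [hB0, hB0]
    exact Finset.sum_congr rfl fun i _ => by ring⟩
  obtain ⟨d, b, hb⟩ : ∃ (d : ℕ) (b : Module.Basis (Fin d) ℝ V0), B0.IsOrthoᵢ b :=
    ⟨_, LinearMap.BilinForm.exists_orthogonal_basis hsymm⟩
  let q' : Fin d → ℝ := fun i => B0 (b i) (b i)
  have hoff : ∀ i j, i ≠ j → B0 (b i) (b j) = 0 := fun i j hij => hb hij
  have hsum : ∀ x y : Fin d → ℝ, B0 (∑ i, x i • b i) (∑ i, y i • b i) = ∑ i, q' i * x i * y i := by
    intro x y
    rw [map_sum]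
    refine Finset.sum_congr rfl fun i _ => ?_
    rw [map_smul, map_sum, LinearMap.sum_apply, Finset.sum_eq_single i]
    · rw [LinearMap.map_smul, LinearMap.smul_apply, smul_eq_mul, smul_eq_mul]
      show y i * (x i * B0 (b i) (b i)) = B0 (b i) (b i) * x i * y i
      ring
    · intro j _ hji
      rw [LinearMap.map_smul, LinearMap.smul_apply, hoff j i hji, smul_zero]
    · intro h; exact absurd (Finset.mem_univ i) h
  have hq'ne : ∀ i, q' i ≠ 0 := by
    intro i hi
    have h1 : ((b i : V0) : Fin n → ℝ) = 0 := by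
      refine hnd _ (b i).2 fun y hy => ?_
      have h2 : B0 (b i) ⟨y, hy⟩ = 0 := by
        rw [← b.sum_repr ⟨y, hy⟩, map_sum]
        refine Finset.sum_eq_zero fun j _ => ?_
        rw [map_smul]
        by_cases hij : i = j
        · subst hij
          show _ • q' i = 0
          rw [hi, smul_zero]
        · rw [hoff i j hij, smul_zero]
      exact h2
    exact b.ne_zero i (Subtype.ext h1)
  have hquad : ∀ x : V0, ∑ i, q i * (x : Fin n → ℝ) i * (x : Fin n → ℝ) i =
      ∑ i, q' i * b.repr x i * b.repr x i := by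
    intro x
    rw [← hsum, b.sum_repr]
    exact (hB0 x x).symm
  have hq'pos : ∃ i, 0 < q' i := by
    obtain ⟨x, hx, hx1⟩ := hpos
    by_contra hcon
    push Not at hcon
    have h1 := hquad ⟨x, hx⟩
    have h2 : ∑ i, q' i * b.repr ⟨x, hx⟩ i * b.repr ⟨x, hx⟩ i ≤ 0 :=
      Finset.sum_nonpos fun i _ => by
        rw [mul_assoc]
        exact mul_nonpos_of_nonpos_of_nonneg (hcon i) (mul_self_nonneg _)
    simp only at h1
    linarith
  have hq'neg : ∃ i, q' i < 0 := by
    obtain ⟨x, hx, hx1⟩ := hneg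
    by_contra hcon
    push Not at hcon
    have h1 := hquad ⟨x, hx⟩
    have h2 : 0 ≤ ∑ i, q' i * b.repr ⟨x, hx⟩ i * b.repr ⟨x, hx⟩ i :=
      Finset.sum_nonneg fun i _ => by
        rw [mul_assoc]
        exact mul_nonneg (hcon i) (mul_self_nonneg _)
    simp only at h1
    linarith
  -- the matrix identity
  have hJQ : (J b)ᵀ * Matrix.diagonal q * J b = Matrix.diagonal q' := by
    ext i j
    rw [Matrix.mul_apply]
    have h1 : ∑ k, ((J b)ᵀ * Matrix.diagonal q) i k * J b k j = B0 (b i) (b j) := by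
      rw [hB0]
      refine Finset.sum_congr rfl fun k _ => ?_
      rw [Matrix.mul_diagonal, Matrix.transpose_apply]
      simp only [J, Matrix.of_apply]
      ring
    rw [h1]
    by_cases hij : i = j
    · subst hij
      rw [Matrix.diagonal_apply_eq]
    · rw [Matrix.diagonal_apply_ne _ hij]
      exact hoff i j hij
  -- the restricted Lie algebra
  let l' : Submodule ℝ (Matrix (Fin d) (Fin d) ℝ) :=
    { carrier := {a' | ∃ a ∈ l, a * J b = J b * a'}
      add_mem' := by
        rintro a1 a2 ⟨c1, h1, e1⟩ ⟨c2, h2, e2⟩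
        exact ⟨c1 + c2, l.add_mem h1 h2, by rw [Matrix.add_mul, Matrix.mul_add, e1, e2]⟩
      zero_mem' := ⟨0, l.zero_mem, by rw [Matrix.zero_mul, Matrix.mul_zero]⟩
      smul_mem' := by
        rintro c a1 ⟨c1, h1, e1⟩
        exact ⟨c • c1, l.smul_mem c h1, by rw [Matrix.smul_mul, Matrix.mul_smul, e1]⟩ }
  have hrestr : ∀ a ∈ l, ∃ a' : Matrix (Fin d) (Fin d) ℝ, a * J b = J b * a' := by
    intro a ha
    have h1 : ∀ j, ∃ x, J b *ᵥ x = a *ᵥ ((b j : V0) : Fin n → ℝ) := fun j =>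
      J_surj b _ (hpres a ha _ (b j).2)
    choose x hx using h1
    refine ⟨Matrix.of fun i j => x j i, ?_⟩
    ext i j
    have h2 := congrFun (hx j) i
    rw [Matrix.mul_apply, Matrix.mul_apply]
    exact h2.symm
  have hskew' : ∀ a' ∈ l', a'ᵀ * Matrix.diagonal q' + Matrix.diagonal q' * a' = 0 := by
    rintro a' ⟨a, ha, e⟩
    rw [← hJQ]
    calc a'ᵀ * ((J b)ᵀ * Matrix.diagonal q * J b) + (J b)ᵀ * Matrix.diagonal q * J b * a'
        = (J b * a')ᵀ * Matrix.diagonal q * J b + (J b)ᵀ * Matrix.diagonal q * (J b * a') := by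
          rw [Matrix.transpose_mul]; simp only [Matrix.mul_assoc]
      _ = (J b)ᵀ * (aᵀ * Matrix.diagonal q + Matrix.diagonal q * a) * J b := by
          rw [← e, Matrix.transpose_mul, Matrix.mul_add, Matrix.add_mul]
          simp only [Matrix.mul_assoc]
      _ = 0 := by rw [hskew a ha, Matrix.mul_zero, Matrix.zero_mul]
  have hirr' : ∀ W : Submodule ℂ (Fin d → ℂ),
      (∀ a ∈ l', ∀ v ∈ W, (a.map Complex.ofReal) *ᵥ v ∈ W) → W = ⊥ ∨ W = ⊤ := by
    intro W hW
    let F : (Fin d → ℂ) →ₗ[ℂ] (Fin n → ℂ) := Matrix.toLin' ((J b).map Complex.ofReal)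
    have hF : ∀ v, F v = (J b).map Complex.ofReal *ᵥ v := fun v => Matrix.toLin'_apply _ _
    have hFinj : ∀ v, F v = 0 → v = 0 := fun v hv => JC_inj b v (by rw [← hF]; exact hv)
    rcases hirr (W.map F) (by
      rintro _ ⟨v, hv, rfl⟩
      rw [hF]
      exact JC_mem b v) (by
      rintro a ha _ ⟨v, hv, rfl⟩
      obtain ⟨a', e⟩ := hrestr a ha
      refine ⟨(a'.map Complex.ofReal) *ᵥ v, hW a' ⟨a, ha, e⟩ v hv, ?_⟩
      rw [hF, hF, Matrix.mulVec_mulVec, Matrix.mulVec_mulVec, ← map_mul_real, ← map_mul_real, e]) with h | h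
    · left
      rw [eq_bot_iff]
      intro v hv
      rw [Submodule.mem_bot]
      apply hFinj
      have : F v ∈ W.map F := ⟨v, hv, rfl⟩
      rw [h, Submodule.mem_bot] at this
      exact this
    · right
      rw [eq_top_iff]
      intro v _
      have : F v ∈ W.map F := by rw [h, hF]; exact JC_mem b v
      obtain ⟨w, hw, hwv⟩ := this
      have h1 : w - v = 0 := hFinj _ (by rw [map_sub, hwv, sub_self])
      rw [← sub_eq_zero.1 h1]
      exact hw
  obtain ⟨as', has', β, v', hv', hβ, hg⟩ := hK6 d q' l' hq'ne hq'pos hq'neg hskew' hirr'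
  -- lift
  have hlift : ∀ as' : List (Matrix (Fin d) (Fin d) ℝ), (∀ a ∈ as', a ∈ l') →
      ∃ as : List (Matrix (Fin n) (Fin n) ℝ), (∀ a ∈ as, a ∈ l) ∧
        (as.map fun a => NormedSpace.exp a).prod * J b =
          J b * (as'.map fun a => NormedSpace.exp a).prod := by
    intro as'
    induction as' with
    | nil => intro _; exact ⟨[], by simp, by simp⟩
    | cons a' as' ih =>
      intro h
      obtain ⟨as, h1, h2⟩ := ih fun x hx => h x (List.mem_cons_of_mem _ hx)
      obtain ⟨a, ha, e⟩ := h a' List.mem_cons_self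
      refine ⟨a :: as, ?_, ?_⟩
      · intro x hx
        rcases List.mem_cons.1 hx with rfl | hx
        · exact ha
        · exact h1 x hx
      · rw [List.map_cons, List.prod_cons, List.map_cons, List.prod_cons, Matrix.mul_assoc, h2,
          ← Matrix.mul_assoc, exp_J a a' (J b) e, Matrix.mul_assoc]
  obtain ⟨as, h1, h2⟩ := hlift as' has'
  refine ⟨as, h1, β, (J b).map Complex.ofReal *ᵥ v', fun h0 => hv' (JC_inj b v' h0), hβ, ?_⟩
  rw [Matrix.mulVec_mulVec, ← map_mul_real, h2, map_mul_real, ← Matrix.mulVec_mulVec, hg,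
    Matrix.mulVec_smul]

end E8Y

end

end Pool.Agent.K3E
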